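import Pool.Agent.Q127.KI.Stm

/-! A bounded function which does not decrease along orbits is invariant almost everywhere
(job MEA of project KI, helper127). -/

set_option autoImplicit false

namespace Pool.Agent.Q154.KI

open MeasureTheory Pool.Agent.Q127.KI

theorem mea : S_mea := by
  intro M _ f μ _ hf τ hτ hC hmono
  obtain ⟨C, hC⟩ := hC
  have h1 : Integrable τ μ :=
    Integrable.of_bound hτ.aestronglyMeasurable C (Filter.Eventually.of_forall fun x => by
      rw [Real.norm_eq_abs]
      exact hC x)
  have h2 : Integrable (fun x => τ (f x)) μ :=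
    Integrable.of_bound (hτ.comp hf.measurable).aestronglyMeasurable C
      (Filter.Eventually.of_forall fun x => by
        rw [Real.norm_eq_abs]
        exact hC (f x))
  have h3 : ∫ x, τ (f x) ∂μ = ∫ x, τ x ∂μ := by
    have h4 : ∫ y, τ y ∂(Measure.map f μ) = ∫ x, τ (f x) ∂μ :=
      integral_map hf.measurable.aemeasurable hτ.aestronglyMeasurable
    rw [hf.map_eq] at h4
    exact h4.symm
  have h5 : ∫ x, (τ (f x) - τ x) ∂μ = 0 := by
    rw [integral_sub h2 h1, h3, sub_self]
  have h6 : (fun x => τ (f x) - τ x) =ᵐ[μ] 0 := by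
    have hnn : 0 ≤ fun x => τ (f x) - τ x := fun x => sub_nonneg.2 (hmono x)
    exact (integral_eq_zero_iff_of_nonneg hnn (h2.sub h1)).1 h5
  filter_upwards [h6] with x hx
  have : τ (f x) - τ x = 0 := hx
  linarith

end Pool.Agent.Q154.KI
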