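import Pool.Agent.Q82.BB.Stm

/-!
# Project BB (helper82), MP_de0dde_an, MP_0afb51_an: job DEC

Decay in the space variable, by the Fourier transform of derivatives.
-/

set_option autoImplicit false

open MeasureTheory Filter Topology Set
open scoped FourierTransform

namespace Pool.Agent.Q82.BB

theorem dec_exp (c : ℝ) (hc : 0 < c) (k : ℕ) : ∃ M : ℝ, 0 ≤ M ∧ ∀ ξ : ℝ,
    (1 + |ξ|) ^ k * Real.exp (-(c * |ξ|)) ≤ M * (1 + ‖ξ‖) ^ (-2 : ℝ) := by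
  refine ⟨((k + 2).factorial : ℝ) * Real.exp c / c ^ (k + 2), by positivity, fun ξ => ?_⟩
  have hx : 0 < 1 + |ξ| := by positivity
  have h1 := Real.pow_div_factorial_le_exp (c * (1 + |ξ|)) (by positivity) (k + 2)
  have h2 : (1 + ‖ξ‖) ^ (-2 : ℝ) = ((1 + |ξ|) ^ 2)⁻¹ := by
    rw [Real.norm_eq_abs, Real.rpow_neg hx.le]
    norm_num
  rw [h2, ← div_eq_mul_inv, le_div_iff₀ (by positivity), le_div_iff₀ (by positivity)]
  rw [div_le_iff₀ (by positivity), mul_pow] at h1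
  have h3 : Real.exp (c * (1 + |ξ|)) = Real.exp c * Real.exp (c * |ξ|) := by
    rw [← Real.exp_add]
    ring_nf
  rw [h3] at h1
  have h4 : Real.exp (-(c * |ξ|)) * Real.exp (c * |ξ|) = 1 := by
    rw [← Real.exp_add]
    simp
  have h5 : (1 + |ξ|) ^ k * Real.exp (-(c * |ξ|)) * (1 + |ξ|) ^ 2 * c ^ (k + 2) =
      Real.exp (-(c * |ξ|)) * (c ^ (k + 2) * (1 + |ξ|) ^ (k + 2)) := by
    ring
  rw [h5]
  calc Real.exp (-(c * |ξ|)) * (c ^ (k + 2) * (1 + |ξ|) ^ (k + 2))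
      ≤ Real.exp (-(c * |ξ|)) * (Real.exp c * Real.exp (c * |ξ|) * ((k + 2).factorial : ℝ)) :=
        mul_le_mul_of_nonneg_left h1 (Real.exp_pos _).le
    _ = (Real.exp (-(c * |ξ|)) * Real.exp (c * |ξ|)) * (((k + 2).factorial : ℝ) * Real.exp c) := by
        ring
    _ = ((k + 2).factorial : ℝ) * Real.exp c := by rw [h4, one_mul]

theorem dec_temp (i : ℕ) :
    Function.HasTemperateGrowth (fun ξ : ℝ => (Complex.I * (ξ : ℂ)) ^ i) := by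
  fun_prop

theorem dec_smooth {T : ℝ} {p : ℕ} {w : ℝ → ℝ → ℂ} {Cs : ℕ → ℝ} (hw : Adm T p w Cs) (i : ℕ)
    {τ : ℝ} (hτ : τ ∈ Icc 0 T) (n : ℕ) :
    ContDiff ℝ n (fun ξ : ℝ => (Complex.I * (ξ : ℂ)) ^ i * w ξ τ) :=
  ((dec_temp i).1.of_le (by exact_mod_cast le_top)).mul (hw.1 τ hτ n)

theorem dec_bound {T : ℝ} {p : ℕ} {w : ℝ → ℝ → ℂ} {Cs : ℕ → ℝ} (hw : Adm T p w Cs) (a : ℝ)
    (ha : 0 < a) (i n : ℕ) : ∃ C : ℝ, 0 ≤ C ∧ ∀ τ ∈ Icc a T, ∀ ξ : ℝ,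
      ‖iteratedDeriv n (fun ξ : ℝ => (Complex.I * (ξ : ℂ)) ^ i * w ξ τ) ξ‖ ≤
        C * (1 + ‖ξ‖) ^ (-2 : ℝ) := by
  obtain ⟨k, C1, hC1, h1⟩ := (dec_temp i).norm_iteratedFDeriv_le_uniform n
  obtain ⟨M, hM, hM2⟩ := dec_exp (a / 16) (by positivity) k
  have hCs := hw.2.2.1
  refine ⟨(∑ m ∈ Finset.range (n + 1), (n.choose m : ℝ) * C1 * Cs (n - m)) * M, ?_, ?_⟩
  · refine mul_nonneg (Finset.sum_nonneg fun m _ => ?_) hM
    have := hCs (n - m)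
    positivity
  · intro τ hτ ξ
    have hτ' : τ ∈ Icc 0 T := ⟨ha.le.trans hτ.1, hτ.2⟩
    have h2 := norm_iteratedFDeriv_mul_le (𝕜 := ℝ) (N := (n : WithTop ℕ∞))
      (f := fun ξ : ℝ => (Complex.I * (ξ : ℂ)) ^ i) (g := fun ξ => w ξ τ)
      ((dec_temp i).1.of_le (by exact_mod_cast le_top)) (hw.1 τ hτ' n) ξ le_rfl
    rw [norm_iteratedFDeriv_eq_norm_iteratedDeriv] at h2
    refine h2.trans ?_
    have h3 : ∀ m ∈ Finset.range (n + 1),
        (n.choose m : ℝ) * ‖iteratedFDeriv ℝ m (fun ξ : ℝ => (Complex.I * (ξ : ℂ)) ^ i) ξ‖ *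
          ‖iteratedFDeriv ℝ (n - m) (fun ξ => w ξ τ) ξ‖ ≤
        ((n.choose m : ℝ) * C1 * Cs (n - m)) * ((1 + |ξ|) ^ k * Real.exp (-(a / 16 * |ξ|))) := by
      intro m hm
      have h4 := h1 m (Nat.lt_succ_iff.1 (Finset.mem_range.1 hm)) ξ
      have h5 := hw.2.2.2 (n - m) ξ τ hτ'
      rw [← norm_iteratedFDeriv_eq_norm_iteratedDeriv] at h5
      have h6 : ex ξ τ / (1 + |ξ|) ^ (p + 1) ≤ Real.exp (-(a / 16 * |ξ|)) := by
        have h7 : (1 : ℝ) ≤ (1 + |ξ|) ^ (p + 1) := one_le_pow₀ (by linarith [abs_nonneg ξ])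
        have h8 : ex ξ τ ≤ Real.exp (-(a / 16 * |ξ|)) := by
          unfold ex
          apply Real.exp_le_exp.2
          have : a * |ξ| ≤ τ * |ξ| := mul_le_mul_of_nonneg_right hτ.1 (abs_nonneg ξ)
          linarith
        have h9 : 0 ≤ ex ξ τ := by unfold ex; positivity
        exact (div_le_self h9 h7).trans h8
      have h7 : ‖iteratedFDeriv ℝ (n - m) (fun ξ => w ξ τ) ξ‖ ≤
          Cs (n - m) * Real.exp (-(a / 16 * |ξ|)) :=
        h5.trans (mul_le_mul_of_nonneg_left h6 (hCs _))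
      rw [Real.norm_eq_abs] at h4
      calc (n.choose m : ℝ) * ‖iteratedFDeriv ℝ m (fun ξ : ℝ => (Complex.I * (ξ : ℂ)) ^ i) ξ‖ *
          ‖iteratedFDeriv ℝ (n - m) (fun ξ => w ξ τ) ξ‖
          ≤ (n.choose m : ℝ) * (C1 * (1 + |ξ|) ^ k) *
            (Cs (n - m) * Real.exp (-(a / 16 * |ξ|))) := by
            apply mul_le_mul _ h7 (norm_nonneg _) (by positivity)
            exact mul_le_mul_of_nonneg_left h4 (by positivity)
        _ = _ := by ring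
    refine (Finset.sum_le_sum h3).trans ?_
    rw [← Finset.sum_mul, mul_assoc]
    refine mul_le_mul_of_nonneg_left (hM2 ξ) (Finset.sum_nonneg fun m _ => ?_)
    have := hCs (n - m)
    positivity

theorem dec_int : Integrable (fun ξ : ℝ => (1 + ‖ξ‖) ^ (-2 : ℝ)) :=
  integrable_one_add_norm (by simp)

theorem dec_integrable {T : ℝ} {p : ℕ} {w : ℝ → ℝ → ℂ} {Cs : ℕ → ℝ} (hw : Adm T p w Cs) (a : ℝ)
    (ha : 0 < a) (i n : ℕ) {τ : ℝ} (hτ : τ ∈ Icc a T) :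
    Integrable (iteratedDeriv n (fun ξ : ℝ => (Complex.I * (ξ : ℂ)) ^ i * w ξ τ)) := by
  obtain ⟨C, _, hC⟩ := dec_bound hw a ha i n
  have hτ' : τ ∈ Icc 0 T := ⟨ha.le.trans hτ.1, hτ.2⟩
  refine (dec_int.const_mul C).mono' ?_ (Filter.Eventually.of_forall fun ξ => hC τ hτ ξ)
  exact ((dec_smooth hw i hτ' n).continuous_iteratedDeriv n le_rfl).aestronglyMeasurable

theorem dec_fourier {T : ℝ} {p : ℕ} {w : ℝ → ℝ → ℂ} {Cs : ℕ → ℝ} (hw : Adm T p w Cs) (a : ℝ)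
    (ha : 0 < a) (i n : ℕ) : ∃ C : ℝ, 0 ≤ C ∧ ∀ τ ∈ Icc a T, ∀ x : ℝ,
      |x| ^ n * ‖∫ ξ : ℝ, (Complex.I * ξ) ^ i * w ξ τ * Complex.exp (Complex.I * x * ξ)‖ ≤ C := by
  obtain ⟨C, hC0, hC⟩ := dec_bound hw a ha i n
  refine ⟨C * ∫ ξ : ℝ, (1 + ‖ξ‖) ^ (-2 : ℝ), mul_nonneg hC0 (integral_nonneg fun ξ => by positivity),
    fun τ hτ x => ?_⟩
  have hτ' : τ ∈ Icc 0 T := ⟨ha.le.trans hτ.1, hτ.2⟩
  set h : ℝ → ℂ := fun ξ : ℝ => (Complex.I * (ξ : ℂ)) ^ i * w ξ τ with hh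
  have hJ : (∫ ξ : ℝ, (Complex.I * ξ) ^ i * w ξ τ * Complex.exp (Complex.I * x * ξ)) =
      𝓕 h (-(x / (2 * Real.pi))) := by
    rw [Real.fourier_real_eq_integral_exp_smul]
    congr 1
    funext ξ
    rw [smul_eq_mul, mul_comm]
    congr 2
    have h1 : -2 * Real.pi * ξ * -(x / (2 * Real.pi)) = ξ * x := by
      field_simp
    rw [h1]
    push_cast
    ring
  have hF := Real.fourier_iteratedDeriv (N := (n : ℕ∞)) (n := n)
    (by exact_mod_cast dec_smooth hw i hτ' n : ContDiff ℝ ((n : ℕ∞) : WithTop ℕ∞) h)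
    (fun m _ => dec_integrable hw a ha i m hτ) le_rfl
  have hF2 := congrFun hF (-(x / (2 * Real.pi)))
  have hb : ‖𝓕 (iteratedDeriv n h) (-(x / (2 * Real.pi)))‖ ≤
      C * ∫ ξ : ℝ, (1 + ‖ξ‖) ^ (-2 : ℝ) := by
    rw [Real.fourier_real_eq]
    refine (norm_integral_le_integral_norm _).trans ?_
    rw [← integral_const_mul]
    refine integral_mono_of_nonneg (Filter.Eventually.of_forall fun ξ => norm_nonneg _)
      (dec_int.const_mul C) (Filter.Eventually.of_forall fun ξ => ?_)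
    change ‖_‖ ≤ _
    rw [Circle.norm_smul]
    exact hC τ hτ ξ
  rw [hF2, norm_smul, norm_pow] at hb
  have hn : ‖(2 * (Real.pi : ℂ) * Complex.I * ((-(x / (2 * Real.pi)) : ℝ) : ℂ))‖ = |x| := by
    rw [norm_mul, norm_mul, norm_mul, Complex.norm_I, Complex.norm_real, Complex.norm_real]
    rw [Real.norm_eq_abs, Real.norm_eq_abs, abs_neg, abs_div, abs_mul, abs_of_pos Real.pi_pos]
    simp
    field_simp
  rw [hn] at hb
  rw [hJ]
  exact hb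

theorem dec : S_DEC := by
  intro T p w Cs hT hw a ha i N
  obtain ⟨C0, h00, h0⟩ := dec_fourier hw a ha i 0
  obtain ⟨C1, h10, h1⟩ := dec_fourier hw a ha i N
  refine ⟨2 ^ N * (C0 + C1), fun x τ hτ => ?_⟩
  set J := ∫ ξ : ℝ, (Complex.I * ξ) ^ i * w ξ τ * Complex.exp (Complex.I * x * ξ) with hJ
  have h2 := h0 τ hτ x
  have h3 := h1 τ hτ x
  rw [pow_zero, one_mul] at h2
  have h4 : (1 + |x|) ^ N ≤ 2 ^ N * (1 + |x| ^ N) := by
    rcases le_total |x| 1 with h | h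
    · have h5 : (1 + |x|) ^ N ≤ 2 ^ N := pow_le_pow_left₀ (by positivity) (by linarith) N
      have h6 : (0 : ℝ) ≤ 2 ^ N * |x| ^ N := by positivity
      linarith
    · have h5 : (1 + |x|) ^ N ≤ (2 * |x|) ^ N := pow_le_pow_left₀ (by positivity) (by linarith) N
      rw [mul_pow] at h5
      have h6 : (0 : ℝ) ≤ 2 ^ N := by positivity
      linarith
  have h5 : |J.re| ≤ ‖J‖ := Complex.abs_re_le_norm J
  calc (1 + |x|) ^ N * |J.re| ≤ (2 ^ N * (1 + |x| ^ N)) * ‖J‖ :=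
        mul_le_mul h4 h5 (abs_nonneg _) (by positivity)
    _ = 2 ^ N * (‖J‖ + |x| ^ N * ‖J‖) := by ring
    _ ≤ 2 ^ N * (C0 + C1) := mul_le_mul_of_nonneg_left (add_le_add h2 h3) (by positivity)

end Pool.Agent.Q82.BB
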