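import Mathlib
import Pool.Agent.Q82.BC.Stm

/-!
# Job BC-MAIN3 (project BC of helper82), MP_38bfeb_an

A port of `Pool/Agent/Q40/BB_MAIN.lean` to the critical scaling.
-/

set_option autoImplicit false

open MeasureTheory Filter Topology Set
open Pool.Agent.Q82.BB (chi mu lam IsSh cv Nl Good UU Tower)

namespace Pool.Agent.Q82.BC

/-- derivatives in space, with a shift -/
theorem main3_iterX (T x0 : ℝ) (W : ℕ → ℝ → ℝ → ℂ)
    (hx : ∀ i j : ℕ, ∀ x : ℝ, ∀ τ ∈ Ioo 0 T,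
      HasDerivAt (fun x => UU W i j x τ) (UU W (i + 1) j x τ) x)
    (i j k : ℕ) (τ : ℝ) (hτ : τ ∈ Ioo 0 T) :
    iteratedDeriv i (fun x => UU W k j (x - x0) τ) = fun x => UU W (k + i) j (x - x0) τ := by
  induction i with
  | zero => simp [iteratedDeriv_zero]
  | succ i ih =>
    rw [iteratedDeriv_succ, ih]
    funext x
    exact ((hx (k + i) j (x - x0) τ hτ).comp_sub_const x x0).deriv

/-- derivatives in time -/
theorem main3_iterT (T T1 : ℝ) (hT1 : T1 = T + 1) (W : ℕ → ℝ → ℝ → ℂ)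
    (ht : ∀ i j : ℕ, ∀ x : ℝ, ∀ τ ∈ Ioo 0 T1,
      HasDerivAt (fun τ => UU W i j x τ) (UU W i (j + 1) x τ) τ)
    (j k : ℕ) (x : ℝ) (t : ℝ) (h : t ∈ Ioo (-1) T) :
    iteratedDeriv j (fun t => UU W k 0 x (T - t)) t = (-1) ^ j * UU W k j x (T - t) := by
  induction j generalizing t with
  | zero => simp [iteratedDeriv_zero]
  | succ j ih =>
    rw [iteratedDeriv_succ]
    have he : iteratedDeriv j (fun t => UU W k 0 x (T - t)) =ᶠ[𝓝 t]
        fun t => (-1) ^ j * UU W k j x (T - t) := by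
      filter_upwards [isOpen_Ioo.mem_nhds h] with s hs using ih s hs
    rw [he.deriv_eq]
    have hmem : T - t ∈ Ioo 0 T1 := by
      constructor
      · linarith [h.2]
      · rw [hT1]; linarith [h.1]
    have h1 : HasDerivAt (fun t : ℝ => T - t) (-1) t := by
      simpa using (hasDerivAt_id t).const_sub T
    have h2 := (ht k j x (T - t) hmem).scomp t h1
    have h3 : HasDerivAt (fun t => (-1 : ℝ) ^ j * UU W k j x (T - t))
        ((-1) ^ j * ((-1 : ℝ) • UU W k (j + 1) x (T - t))) t := h2.const_mul _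
    rw [h3.deriv, smul_eq_mul, pow_succ]
    ring

theorem main3 (h1 : Pool.Agent.Q82.BB.S_SH) (h2 : S_KB2) (h3 : S_FIX2) (h4 : S_ODE2) (h5 : S_GD2)
    (h6 : Pool.Agent.Q82.BB.S_TS) (h7 : Pool.Agent.Q82.BB.S_JS) (h8 : Pool.Agent.Q82.BB.S_PDE)
    (h9 : S_DEC2) (h10 : S_RATE) : S_MAIN3 := by
  intro T x0 hT
  obtain ⟨sh, ch, hsh⟩ := h1
  obtain ⟨T1, hT1⟩ : ∃ T1 : ℝ, T1 = T + 1 := ⟨_, rfl⟩
  have hT1p : 0 < T1 := by rw [hT1]; linarith
  have hK := h2 sh ch hsh T1 hT1p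
  obtain ⟨ε0, M, hε0, hM, hF⟩ := h3 T1 (kap2 sh) hT1p hK
  obtain ⟨ε1, hε1, hR⟩ := h10 T1 M hT1p hM
  obtain ⟨ε, hεdef⟩ : ∃ ε : ℝ, ε = min ε0 ε1 := ⟨_, rfl⟩
  have hε : 0 < ε := by rw [hεdef]; exact lt_min hε0 hε1
  have hεa : ε ≤ ε0 := by rw [hεdef]; exact min_le_left _ _
  have hεb : ε ≤ ε1 := by rw [hεdef]; exact min_le_right _ _
  obtain ⟨w, Cs, hA, hfix, hherm, hNl⟩ := hF ε hε hεa
  obtain ⟨w1, hG1, hd0, hd1⟩ := h4 sh ch hsh T1 ε w Cs hT1p hA hfix
  have hG0 : Good T1 w := h5 T1 w Cs hT1p hA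
  obtain ⟨W, hW0, hW1, hTow⟩ := h6 T1 w w1 hT1p hG0 hG1 hd0 hd1
  obtain ⟨hX, hTt, hsm⟩ := h7 T1 W hT1p hTow.1 hTow.2.1
  have hmem : ∀ t ∈ Ioo (-1) T, T - t ∈ Ioo 0 T1 := by
    intro t h
    constructor
    · linarith [h.2]
    · rw [hT1]; linarith [h.1]
  refine ⟨fun x t => UU W 0 0 (x - x0) (T - t), ?_, ?_, ?_, ?_⟩
  · intro n
    have hmap : ContDiffOn ℝ n (fun q : ℝ × ℝ => ((q.1 - x0, T - q.2) : ℝ × ℝ))
        (univ ×ˢ Ioo (-1) T) := by
      apply ContDiff.contDiffOn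
      fun_prop
    exact (hsm 0 0 n).comp hmap (fun q hq => ⟨mem_univ _, hmem q.2 hq.2⟩)
  · intro x t ht
    have hτ := hmem t ht
    have e1 := main3_iterT T T1 hT1 W hTt 2 0 (x - x0) t ht
    have e2 := congrFun (main3_iterX T1 x0 W hX 2 0 0 (T - t) hτ) x
    have e4 := congrFun (main3_iterX T1 x0 W hX 4 0 0 (T - t) hτ) x
    have esq : iteratedDeriv 2 (fun x => UU W 0 0 (x - x0) (T - t) ^ 2) x =
        2 * UU W 0 0 (x - x0) (T - t) * UU W 2 0 (x - x0) (T - t) +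
          2 * UU W 1 0 (x - x0) (T - t) ^ 2 := by
      rw [iteratedDeriv_succ, iteratedDeriv_one]
      have hd : deriv (fun x => UU W 0 0 (x - x0) (T - t) ^ 2) =
          fun x => 2 * UU W 0 0 (x - x0) (T - t) * UU W 1 0 (x - x0) (T - t) := by
        funext y
        have := (((hX 0 0 (y - x0) (T - t) hτ).comp_sub_const y x0).pow 2).deriv
        simp only [zero_add, Nat.add_one_sub_one, pow_one, Nat.cast_ofNat] at this
        exact this
      rw [hd]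
      have hy := (((hX 0 0 (x - x0) (T - t) hτ).comp_sub_const x x0).const_mul 2).mul
        ((hX 1 0 (x - x0) (T - t) hτ).comp_sub_const x x0)
      have := hy.deriv
      simp only [zero_add, Nat.reduceAdd] at this
      refine this.trans ?_
      ring
    simp only [zero_add] at e2 e4
    rw [e1, e2, e4, esq]
    have hp := h8 T1 W hT1p hTow (fun ξ τ hτ' => by
      rw [hW0]; exact hherm ξ τ ⟨hτ'.1, hτ'.2.le⟩) (x - x0) (T - t) hτ
    rw [hp]
    ring
  · intro N τ hτ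
    have hD := fun i : ℕ => h9 T1 w Cs hT1p hA (T - τ) (by linarith) i N
    choose D hD' using hD
    refine ⟨(1 + |x0|) ^ N * ∑ i ∈ Finset.range (N + 1), |D i|, ?_⟩
    intro x t ht i hi
    have ht' : t ∈ Ioo (-1) T := ⟨by linarith [ht.1], by linarith [ht.2]⟩
    have e2 := congrFun (main3_iterX T1 x0 W hX i 0 0 (T - t) (hmem t ht')) x
    simp only [zero_add] at e2
    rw [e2]
    have hb := hD' i (x - x0) (T - t) ⟨by linarith [ht.2], by rw [hT1]; linarith [ht.1]⟩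
    have hUU : UU W i 0 (x - x0) (T - t) = (∫ ξ : ℝ, (Complex.I * ξ) ^ i * w ξ (T - t) *
        Complex.exp (Complex.I * ((x - x0 : ℝ) : ℂ) * ξ)).re := by
      unfold UU
      rw [hW0]
    rw [hUU]
    have hle : (1 + |x|) ^ N ≤ (1 + |x0|) ^ N * (1 + |x - x0|) ^ N := by
      rw [← mul_pow]
      refine pow_le_pow_left₀ (by positivity) ?_ N
      have h11 : |x| ≤ |x - x0| + |x0| := by
        have := abs_add_le (x - x0) x0
        rwa [sub_add_cancel] at this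
      nlinarith [abs_nonneg x0, abs_nonneg (x - x0), mul_nonneg (abs_nonneg x0)
        (abs_nonneg (x - x0))]
    have hsum : |D i| ≤ ∑ i ∈ Finset.range (N + 1), |D i| :=
      Finset.single_le_sum (f := fun i => |D i|) (fun _ _ => abs_nonneg _)
        (Finset.mem_range.2 (Nat.lt_succ_of_le hi))
    calc (1 + |x|) ^ N * |(∫ ξ : ℝ, (Complex.I * ξ) ^ i * w ξ (T - t) *
          Complex.exp (Complex.I * ((x - x0 : ℝ) : ℂ) * ξ)).re|
        ≤ ((1 + |x0|) ^ N * (1 + |x - x0|) ^ N) * |(∫ ξ : ℝ, (Complex.I * ξ) ^ i * w ξ (T - t) *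
          Complex.exp (Complex.I * ((x - x0 : ℝ) : ℂ) * ξ)).re| :=
          mul_le_mul_of_nonneg_right hle (abs_nonneg _)
      _ = (1 + |x0|) ^ N * ((1 + |x - x0|) ^ N * |(∫ ξ : ℝ, (Complex.I * ξ) ^ i * w ξ (T - t) *
          Complex.exp (Complex.I * ((x - x0 : ℝ) : ℂ) * ξ)).re|) := by ring
      _ ≤ (1 + |x0|) ^ N * ∑ i ∈ Finset.range (N + 1), |D i| :=
          mul_le_mul_of_nonneg_left (hb.trans ((le_abs_self _).trans hsum)) (by positivity)
  · have hcont : ContinuousOn (fun q : ℝ × ℝ => w q.1 q.2) (univ ×ˢ Ioc 0 T1) := by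
      have := hA.2.1 0
      simpa only [iteratedDeriv_zero] using this
    obtain ⟨c1, c2, τ0, hc1, hc2, hτ0, hτ0T, hrate⟩ := hR ε hε hεb w (Nl T1 (kap2 sh) w) hcont
      (fun ξ τ hτ => hfix ξ τ ⟨hτ.1, hτ.2.le⟩) (fun ξ τ hτ => hNl ξ τ ⟨hτ.1, hτ.2.le⟩)
    refine ⟨c1, c2, max (T / 2) (T - τ0), hc1, hc2, ?_, ?_, ?_⟩
    · exact lt_of_lt_of_le (by linarith) (le_max_left _ _)
    · exact max_lt (by linarith) (by linarith)
    · intro t ht
      have ht1 : T - τ0 ≤ t := (le_max_right _ _).trans ht.1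
      have h11 := hrate (T - t) (by linarith [ht.2]) (by linarith)
      have hU : UU W 0 0 (x0 - x0) (T - t) = (∫ ξ : ℝ, w ξ (T - t)).re := by
        unfold UU
        rw [hW0, sub_self]
        congr 2
        funext ξ
        simp
      change c1 * (T - t)⁻¹ ≤ UU W 0 0 (x0 - x0) (T - t) ∧
        UU W 0 0 (x0 - x0) (T - t) ≤ c2 * (T - t)⁻¹
      rw [hU, ← div_eq_mul_inv, ← div_eq_mul_inv]
      exact h11

end Pool.Agent.Q82.BC
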