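import Mathlib

/-!
# A dense set avoiding a product-type difference set in the countable group of exponent two
-/

namespace Q154.BohrSingle

open Finset

/-- The countable vector space over the field with two elements. -/
abbrev V2 := ℕ →₀ ZMod 2

/-- Number of nonzero coordinates in `I`. -/
def wt (I : Finset ℕ) (x : V2) : ℕ := (I.filter fun i => x i ≠ 0).card

/-- Majority of the coordinates in `I`. -/
def maj (I : Finset ℕ) (x : V2) : ZMod 2 := if I.card < 2 * wt I x then 1 else 0

/-- The weight on `I` is not close to half of the size of `I`. -/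
def Far (I : Finset ℕ) (k : ℕ) (x : V2) : Prop :=
  2 * (k : ℤ) < |2 * (wt I x : ℤ) - I.card|

theorem wt_congr {I : Finset ℕ} {x y : V2} (h : ∀ i ∈ I, x i = y i) : wt I x = wt I y := by
  unfold wt
  congr 1
  apply Finset.filter_congr
  intro i hi
  rw [h i hi]

theorem maj_congr {I : Finset ℕ} {x y : V2} (h : ∀ i ∈ I, x i = y i) : maj I x = maj I y := by
  unfold maj
  rw [wt_congr h]

theorem far_congr {I : Finset ℕ} {k : ℕ} {x y : V2} (h : ∀ i ∈ I, x i = y i) :
    Far I k x ↔ Far I k y := by
  unfold Far
  rw [wt_congr h]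

theorem zmod2 (a : ZMod 2) : a = 0 ∨ a = 1 := by
  revert a; decide

theorem wt_add (I : Finset ℕ) (x w : V2) :
    wt I (x + w) + wt I x ≤ I.card + (I.filter fun i => w i = 0).card ∧
    I.card ≤ wt I (x + w) + wt I x + (I.filter fun i => w i = 0).card := by
  unfold wt
  rw [Finset.card_filter, Finset.card_filter, Finset.card_filter, Finset.card_eq_sum_ones,
    ← Finset.sum_add_distrib, ← Finset.sum_add_distrib, ← Finset.sum_add_distrib]
  constructor
  · apply Finset.sum_le_sum
    intro i _
    rw [Finsupp.add_apply]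
    generalize x i = a
    generalize w i = b
    revert a b
    decide
  · apply Finset.sum_le_sum
    intro i _
    rw [Finsupp.add_apply]
    generalize x i = a
    generalize w i = b
    revert a b
    decide

/-- Adding a word with few zeros flips the majority away from the boundary. -/
theorem flip {I : Finset ℕ} {k : ℕ} {x w : V2} (hx : Far I k x)
    (hw : (I.filter fun i => w i = 0).card ≤ k) : maj I (x + w) = maj I x + 1 := by
  obtain ⟨h1, h2⟩ := wt_add I x w
  unfold Far at hx
  unfold maj
  rw [lt_abs] at hx
  by_cases h : I.card < 2 * wt I x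
  · rw [if_pos h, if_neg (by omega)]
    decide
  · rw [if_neg h, if_pos (by omega)]
    decide

section Recursion

variable (n : ℕ → ℕ) (c : ℕ → V2)

/-- Block boundaries. -/
def N : ℕ → ℕ
  | 0 => 0
  | k + 1 => N k + n k + n k

/-- First half of block `k`. -/
def I (k : ℕ) : Finset ℕ := Finset.Ico (N n k) (N n k + n k)

/-- Second half of block `k`. -/
def J (k : ℕ) : Finset ℕ := Finset.Ico (N n k + n k) (N n k + n k + n k)

/-- The multiplier at block `k`. -/
def mult (k : ℕ) (x : V2) : ZMod 2 := maj (I n k) x + maj (J n k) x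

/-- The adaptive two-bit colouring. -/
noncomputable def Phi : ℕ → V2 → ZMod 2 × ZMod 2
  | 0, _ => 0
  | k + 1, x => Phi k (x + mult n k x • c k) + (maj (I n k) x, maj (J n k) x)

/-- No block is close to the boundary during the computation of `Phi`. -/
def Good : ℕ → V2 → Prop
  | 0, _ => True
  | k + 1, x => Good k (x + mult n k x • c k) ∧ Far (I n k) k x ∧ Far (J n k) k x

theorem N_mono : Monotone (N n) := monotone_nat_of_le_succ fun k => by
  show N n k ≤ N n k + n k + n k
  omega

variable {n c}

theorem mult_congr {k : ℕ} {x y : V2} (h : ∀ i, N n k ≤ i → i < N n (k + 1) → x i = y i) :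
    mult n k x = mult n k y := by
  have e : N n (k + 1) = N n k + n k + n k := rfl
  unfold mult
  rw [maj_congr (I := I n k) (x := x) (y := y), maj_congr (I := J n k) (x := x) (y := y)]
  · intro i hi
    rw [J, Finset.mem_Ico] at hi
    exact h i (by omega) (by omega)
  · intro i hi
    rw [I, Finset.mem_Ico] at hi
    exact h i (by omega) (by omega)

/-- `Phi k` and `Good k` only depend on the coordinates below `N k`. -/
theorem local_ (k : ℕ) : ∀ x y : V2, (∀ i < N n k, x i = y i) →
    Phi n c k x = Phi n c k y ∧ (Good n c k x ↔ Good n c k y) := by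
  induction k with
  | zero => intro x y _; exact ⟨rfl, Iff.rfl⟩
  | succ k ih =>
    intro x y h
    have e : N n (k + 1) = N n k + n k + n k := rfl
    have hm : mult n k x = mult n k y := mult_congr fun i _ h2 => h i h2
    have hI : ∀ i ∈ I n k, x i = y i := fun i hi => by
      rw [I, Finset.mem_Ico] at hi; exact h i (by omega)
    have hJ : ∀ i ∈ J n k, x i = y i := fun i hi => by
      rw [J, Finset.mem_Ico] at hi; exact h i (by omega)
    have h2 := ih (x + mult n k x • c k) (y + mult n k x • c k) (by
      intro i hi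
      rw [Finsupp.add_apply, Finsupp.add_apply, h i (by omega)])
    constructor
    · show Phi n c k (x + mult n k x • c k) + (maj (I n k) x, maj (J n k) x) =
        Phi n c k (y + mult n k y • c k) + (maj (I n k) y, maj (J n k) y)
      rw [← hm, h2.1, maj_congr hI, maj_congr hJ]
    · show (Good n c k (x + mult n k x • c k) ∧ Far (I n k) k x ∧ Far (J n k) k x) ↔
        (Good n c k (y + mult n k y • c k) ∧ Far (I n k) k y ∧ Far (J n k) k y)
      rw [← hm, h2.2, far_congr hI, far_congr hJ]

/-- Stability for words supported below `N k`. -/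
theorem stable (hn : ∀ k, 2 * k < n k) (k : ℕ) (x : V2) (h : ∀ i, N n k ≤ i → x i = 0) :
    ∀ l, k ≤ l → Phi n c l x = Phi n c k x ∧ (Good n c l x ↔ Good n c k x) := by
  intro l hl
  induction l, hl using Nat.le_induction with
  | base => exact ⟨rfl, Iff.rfl⟩
  | succ l hl ih =>
    have hz : ∀ i, N n l ≤ i → x i = 0 := fun i hi => h i ((N_mono n hl).trans hi)
    have hwI : wt (I n l) x = 0 := by
      unfold wt
      rw [Finset.card_eq_zero, Finset.filter_eq_empty_iff]
      intro i hi
      rw [I, Finset.mem_Ico] at hi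
      simp [hz i (by omega)]
    have hwJ : wt (J n l) x = 0 := by
      unfold wt
      rw [Finset.card_eq_zero, Finset.filter_eq_empty_iff]
      intro i hi
      rw [J, Finset.mem_Ico] at hi
      simp [hz i (by omega)]
    have hmI : maj (I n l) x = 0 := by unfold maj; rw [hwI, if_neg (by omega)]
    have hmJ : maj (J n l) x = 0 := by unfold maj; rw [hwJ, if_neg (by omega)]
    have hm : mult n l x = 0 := by unfold mult; rw [hmI, hmJ]; rfl
    have hFI : Far (I n l) l x := by
      unfold Far
      have : (I n l).card = n l := by rw [I, Nat.card_Ico]; omega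
      rw [hwI, this]
      have := hn l
      push_cast
      rw [zero_sub, abs_neg, Nat.abs_cast]
      exact_mod_cast this
    have hFJ : Far (J n l) l x := by
      unfold Far
      have : (J n l).card = n l := by rw [J, Nat.card_Ico]; omega
      rw [hwJ, this]
      have := hn l
      push_cast
      rw [zero_sub, abs_neg, Nat.abs_cast]
      exact_mod_cast this
    constructor
    · show Phi n c l (x + mult n l x • c l) + (maj (I n l) x, maj (J n l) x) = _
      rw [hm, zero_smul, add_zero, hmI, hmJ, ih.1]
      show Phi n c k x + 0 = _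
      rw [add_zero]
    · show (Good n c l (x + mult n l x • c l) ∧ Far (I n l) l x ∧ Far (J n l) l x) ↔ _
      rw [hm, zero_smul, add_zero, ih.2]
      exact ⟨fun h => h.1, fun h => ⟨h, hFI, hFJ⟩⟩

theorem two_smul' (a : ZMod 2) (x : V2) : a • x + a • x = 0 := by
  ext i
  rw [Finsupp.add_apply, Finsupp.zero_apply]
  generalize (a • x) i = b
  revert b; decide

theorem add_self' (x : V2) : x + x = 0 := by
  have := two_smul' 1 x
  rwa [one_smul] at this

/-- The shift property in the first bit. -/
theorem shift1 (hc : ∀ k i, N n k ≤ i → c k i = 0) (k : ℕ) (w : V2)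
    (hw1 : ∀ i, i ∉ I n k → w i = 0) (hw2 : ((I n k).filter fun i => w i = 0).card ≤ k) :
    ∀ l, k < l → ∀ x, Good n c l x → Phi n c l (x + (c k + w)) = Phi n c l x + (1, 0) := by
  intro l hl
  induction l, hl using Nat.le_induction with
  | base =>
    intro x hx
    obtain ⟨hx1, hx2, hx3⟩ : Good n c k (x + mult n k x • c k) ∧ Far (I n k) k x ∧
      Far (J n k) k x := hx
    have hI : maj (I n k) (x + (c k + w)) = maj (I n k) x + 1 := by
      rw [← flip hx2 hw2]
      apply maj_congr
      intro i hi
      rw [I, Finset.mem_Ico] at hi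
      rw [Finsupp.add_apply, Finsupp.add_apply, Finsupp.add_apply, hc k i hi.1, zero_add]
    have hJ : maj (J n k) (x + (c k + w)) = maj (J n k) x := by
      apply maj_congr
      intro i hi
      rw [J, Finset.mem_Ico] at hi
      rw [Finsupp.add_apply, Finsupp.add_apply, hc k i (by omega), hw1 i (by
        rw [I, Finset.mem_Ico]; omega), add_zero, add_zero]
    have hm : mult n k (x + (c k + w)) = mult n k x + 1 := by
      unfold mult; rw [hI, hJ]; ring
    show Phi n c k (x + (c k + w) + mult n k (x + (c k + w)) • c k) +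
        (maj (I n k) (x + (c k + w)), maj (J n k) (x + (c k + w))) =
      Phi n c k (x + mult n k x • c k) + (maj (I n k) x, maj (J n k) x) + (1, 0)
    rw [hI, hJ, hm]
    have h1 : x + (c k + w) + (mult n k x + 1) • c k = (x + mult n k x • c k) + w := by
      rw [add_smul, one_smul]
      have := add_self' (c k)
      calc x + (c k + w) + (mult n k x • c k + c k)
          = (x + mult n k x • c k) + w + (c k + c k) := by abel
        _ = _ := by rw [this, add_zero]
    rw [h1, (local_ k (x + mult n k x • c k + w) (x + mult n k x • c k) (by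
      intro i hi
      rw [Finsupp.add_apply, hw1 i (by rw [I, Finset.mem_Ico]; omega), add_zero])).1, add_assoc]
    congr 1
    ext <;> simp
  | succ l hl ih =>
    intro x hx
    obtain ⟨hx1, hx2, hx3⟩ : Good n c l (x + mult n l x • c l) ∧ Far (I n l) l x ∧
      Far (J n l) l x := hx
    have hz : ∀ i, N n l ≤ i → (c k + w) i = 0 := by
      intro i hi
      have h1 := N_mono n (Nat.succ_le_of_lt hl)
      have e : N n (k + 1) = N n k + n k + n k := rfl
      rw [Nat.succ_eq_add_one, e] at h1
      rw [Finsupp.add_apply, hc k i (by omega), hw1 i (by rw [I, Finset.mem_Ico]; omega),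
        add_zero]
    have hI : maj (I n l) (x + (c k + w)) = maj (I n l) x := by
      apply maj_congr
      intro i hi
      rw [I, Finset.mem_Ico] at hi
      rw [Finsupp.add_apply, hz i hi.1, add_zero]
    have hJ : maj (J n l) (x + (c k + w)) = maj (J n l) x := by
      apply maj_congr
      intro i hi
      rw [J, Finset.mem_Ico] at hi
      rw [Finsupp.add_apply, hz i (by omega), add_zero]
    have hm : mult n l (x + (c k + w)) = mult n l x := by
      unfold mult; rw [hI, hJ]
    show Phi n c l (x + (c k + w) + mult n l (x + (c k + w)) • c l) +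
        (maj (I n l) (x + (c k + w)), maj (J n l) (x + (c k + w))) =
      Phi n c l (x + mult n l x • c l) + (maj (I n l) x, maj (J n l) x) + (1, 0)
    rw [hI, hJ, hm]
    have h1 : x + (c k + w) + mult n l x • c l = (x + mult n l x • c l) + (c k + w) := by abel
    rw [h1, ih _ hx1]
    abel

/-- The shift property in the second bit. -/
theorem shift2 (hc : ∀ k i, N n k ≤ i → c k i = 0) (k : ℕ) (w : V2)
    (hw1 : ∀ i, i ∉ J n k → w i = 0) (hw2 : ((J n k).filter fun i => w i = 0).card ≤ k) :
    ∀ l, k < l → ∀ x, Good n c l x → Phi n c l (x + (c k + w)) = Phi n c l x + (0, 1) := by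
  intro l hl
  induction l, hl using Nat.le_induction with
  | base =>
    intro x hx
    obtain ⟨hx1, hx2, hx3⟩ : Good n c k (x + mult n k x • c k) ∧ Far (I n k) k x ∧
      Far (J n k) k x := hx
    have hJ : maj (J n k) (x + (c k + w)) = maj (J n k) x + 1 := by
      rw [← flip hx3 hw2]
      apply maj_congr
      intro i hi
      rw [J, Finset.mem_Ico] at hi
      rw [Finsupp.add_apply, Finsupp.add_apply, Finsupp.add_apply, hc k i (by omega), zero_add]
    have hI : maj (I n k) (x + (c k + w)) = maj (I n k) x := by
      apply maj_congr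
      intro i hi
      rw [I, Finset.mem_Ico] at hi
      rw [Finsupp.add_apply, Finsupp.add_apply, hc k i (by omega), hw1 i (by
        rw [J, Finset.mem_Ico]; omega), add_zero, add_zero]
    have hm : mult n k (x + (c k + w)) = mult n k x + 1 := by
      unfold mult; rw [hI, hJ]; ring
    show Phi n c k (x + (c k + w) + mult n k (x + (c k + w)) • c k) +
        (maj (I n k) (x + (c k + w)), maj (J n k) (x + (c k + w))) =
      Phi n c k (x + mult n k x • c k) + (maj (I n k) x, maj (J n k) x) + (0, 1)
    rw [hI, hJ, hm]
    have h1 : x + (c k + w) + (mult n k x + 1) • c k = (x + mult n k x • c k) + w := by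
      rw [add_smul, one_smul]
      have := add_self' (c k)
      calc x + (c k + w) + (mult n k x • c k + c k)
          = (x + mult n k x • c k) + w + (c k + c k) := by abel
        _ = _ := by rw [this, add_zero]
    rw [h1, (local_ k (x + mult n k x • c k + w) (x + mult n k x • c k) (by
      intro i hi
      rw [Finsupp.add_apply, hw1 i (by rw [J, Finset.mem_Ico]; omega), add_zero])).1, add_assoc]
    congr 1
    ext <;> simp
  | succ l hl ih =>
    intro x hx
    obtain ⟨hx1, hx2, hx3⟩ : Good n c l (x + mult n l x • c l) ∧ Far (I n l) l x ∧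
      Far (J n l) l x := hx
    have hz : ∀ i, N n l ≤ i → (c k + w) i = 0 := by
      intro i hi
      have h1 := N_mono n (Nat.succ_le_of_lt hl)
      have e : N n (k + 1) = N n k + n k + n k := rfl
      rw [Nat.succ_eq_add_one, e] at h1
      rw [Finsupp.add_apply, hc k i (by omega), hw1 i (by rw [J, Finset.mem_Ico]; omega),
        add_zero]
    have hI : maj (I n l) (x + (c k + w)) = maj (I n l) x := by
      apply maj_congr
      intro i hi
      rw [I, Finset.mem_Ico] at hi
      rw [Finsupp.add_apply, hz i hi.1, add_zero]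
    have hJ : maj (J n l) (x + (c k + w)) = maj (J n l) x := by
      apply maj_congr
      intro i hi
      rw [J, Finset.mem_Ico] at hi
      rw [Finsupp.add_apply, hz i (by omega), add_zero]
    have hm : mult n l (x + (c k + w)) = mult n l x := by
      unfold mult; rw [hI, hJ]
    show Phi n c l (x + (c k + w) + mult n l (x + (c k + w)) • c l) +
        (maj (I n l) (x + (c k + w)), maj (J n l) (x + (c k + w))) =
      Phi n c l (x + mult n l x • c l) + (maj (I n l) x, maj (J n l) x) + (0, 1)
    rw [hI, hJ, hm]
    have h1 : x + (c k + w) + mult n l x • c l = (x + mult n l x • c l) + (c k + w) := by abel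
    rw [h1, ih _ hx1]
    abel

/-! ### Counting -/

/-- All words supported below `M`. -/
noncomputable def H (M : ℕ) : Finset V2 := (Finset.range M).finsupp fun _ => Finset.univ

theorem mem_H {M : ℕ} {x : V2} : x ∈ H M ↔ ∀ i, M ≤ i → x i = 0 := by
  unfold H
  rw [Finset.mem_finsupp_iff]
  constructor
  · rintro ⟨h, -⟩ i hi
    by_contra h1
    have := h (Finsupp.mem_support_iff.2 h1)
    rw [Finset.mem_range] at this
    omega
  · intro h
    refine ⟨fun i hi => ?_, fun i _ => Finset.mem_univ _⟩
    rw [Finset.mem_range]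
    by_contra h1
    exact Finsupp.mem_support_iff.1 hi (h i (by omega))

theorem card_H (M : ℕ) : (H M).card = 2 ^ M := by
  unfold H
  rw [Finset.card_finsupp, Finset.prod_const, Finset.card_range]
  rfl

theorem centralBinom_bound (t : ℕ) : (2 * t + 1) * Nat.centralBinom t ^ 2 ≤ 16 ^ t := by
  induction t with
  | zero => simp
  | succ t ih =>
    have h := Nat.succ_mul_centralBinom_succ t
    have h1 : (t + 1) ^ 2 * ((2 * (t + 1) + 1) * Nat.centralBinom (t + 1) ^ 2) ≤
        (t + 1) ^ 2 * 16 ^ (t + 1) := by
      calc (t + 1) ^ 2 * ((2 * (t + 1) + 1) * Nat.centralBinom (t + 1) ^ 2)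
          = (2 * t + 3) * ((t + 1) * Nat.centralBinom (t + 1)) ^ 2 := by ring
        _ = (2 * t + 3) * (2 * (2 * t + 1) * Nat.centralBinom t) ^ 2 := by rw [h]
        _ = 4 * (2 * t + 3) * (2 * t + 1) * ((2 * t + 1) * Nat.centralBinom t ^ 2) := by ring
        _ ≤ 4 * (2 * t + 3) * (2 * t + 1) * 16 ^ t := by gcongr
        _ ≤ (4 * (t + 1)) ^ 2 * 16 ^ t := by
            gcongr
            nlinarith
        _ = (t + 1) ^ 2 * 16 ^ (t + 1) := by ring
    exact Nat.le_of_mul_le_mul_left h1 (by positivity)

/-- The half block sizes. -/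
def tt (k : ℕ) : ℕ := ((2 * k + 1) * 2 ^ (k + 3)) ^ 2

/-- The block sizes. -/
def nn (k : ℕ) : ℕ := 2 * tt k

theorem nn_large (k : ℕ) : 2 * k < nn k := by
  unfold nn tt
  have h1 : 1 ≤ 2 ^ (k + 3) := Nat.one_le_two_pow
  have h2 : 2 * k + 1 ≤ (2 * k + 1) * 2 ^ (k + 3) := Nat.le_mul_of_pos_right _ (by positivity)
  nlinarith

theorem middle_bound (k : ℕ) :
    (2 * k + 1) * Nat.centralBinom (tt k) * 2 ^ (k + 3) ≤ 4 ^ tt k := by
  have h := centralBinom_bound (tt k)
  have h1 : ((2 * k + 1) * Nat.centralBinom (tt k) * 2 ^ (k + 3)) ^ 2 ≤ (4 ^ tt k) ^ 2 := by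
    calc ((2 * k + 1) * Nat.centralBinom (tt k) * 2 ^ (k + 3)) ^ 2
        = ((2 * k + 1) * 2 ^ (k + 3)) ^ 2 * Nat.centralBinom (tt k) ^ 2 := by ring
      _ = tt k * Nat.centralBinom (tt k) ^ 2 := rfl
      _ ≤ (2 * tt k + 1) * Nat.centralBinom (tt k) ^ 2 := by gcongr; omega
      _ ≤ 16 ^ tt k := h
      _ = (4 ^ tt k) ^ 2 := by rw [← pow_mul, mul_comm, pow_mul]; norm_num
  exact (Nat.pow_le_pow_iff_left (by norm_num)).1 h1

open Classical in
/-- Few words are close to the boundary on a given block. -/
theorem nonfar_count (k M a : ℕ) (hM : a + nn k ≤ M) :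
    ((H M).filter fun x => ¬ Far (Finset.Ico a (a + nn k)) k x).card * 2 ^ (k + 3) ≤ 2 ^ M := by
  classical
  set B : Finset ℕ := Finset.Ico a (a + nn k) with hB
  have hBcard : B.card = nn k := by rw [hB, Nat.card_Ico]; omega
  have hBM : B ⊆ Finset.range M := by
    intro i hi
    rw [hB, Finset.mem_Ico] at hi
    rw [Finset.mem_range]; omega
  -- near-middle subsets of the block
  set T : Finset (Finset ℕ) := B.powerset.filter
    (fun U => tt k - k ≤ U.card ∧ U.card ≤ tt k + k) with hT
  have hTcard : T.card ≤ (2 * k + 1) * Nat.centralBinom (tt k) := by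
    have h1 : T ⊆ (Finset.Icc (tt k - k) (tt k + k)).biUnion fun j => B.powersetCard j := by
      intro U hU
      rw [hT, Finset.mem_filter, Finset.mem_powerset] at hU
      rw [Finset.mem_biUnion]
      exact ⟨U.card, Finset.mem_Icc.2 hU.2, Finset.mem_powersetCard.2 ⟨hU.1, rfl⟩⟩
    calc T.card ≤ _ := Finset.card_le_card h1
      _ ≤ ∑ j ∈ Finset.Icc (tt k - k) (tt k + k), (B.powersetCard j).card :=
          Finset.card_biUnion_le
      _ ≤ ∑ j ∈ Finset.Icc (tt k - k) (tt k + k), Nat.centralBinom (tt k) := by
          apply Finset.sum_le_sum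
          intro j _
          rw [Finset.card_powersetCard, hBcard]
          exact Nat.choose_le_centralBinom j (tt k)
      _ = (tt k + k + 1 - (tt k - k)) * Nat.centralBinom (tt k) := by
          rw [Finset.sum_const, Nat.card_Icc, smul_eq_mul]
      _ ≤ (2 * k + 1) * Nat.centralBinom (tt k) := by
          gcongr
          have := nn_large k
          unfold nn at this
          omega
  -- the splitting map
  have hinj : ((H M).filter fun x => ¬ Far B k x).card ≤
      (((Finset.range M \ B).powerset) ×ˢ T).card := by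
    apply Finset.card_le_card_of_injOn
      (fun x => ((Finset.range M \ B).filter fun i => x i ≠ 0, B.filter fun i => x i ≠ 0))
    · intro x hx
      rw [Finset.mem_coe, Finset.mem_filter] at hx
      rw [Finset.mem_coe, Finset.mem_product, Finset.mem_powerset, hT, Finset.mem_filter,
        Finset.mem_powerset]
      refine ⟨Finset.filter_subset _ _, Finset.filter_subset _ _, ?_⟩
      have h1 := hx.2
      unfold Far wt at h1
      rw [hBcard, not_lt, abs_le] at h1
      unfold nn at h1
      push_cast at h1
      simp only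
      omega
    · intro x hx y hy hxy
      rw [Finset.mem_coe, Finset.mem_filter, mem_H] at hx hy
      rw [Prod.mk.injEq] at hxy
      ext i
      have key : x i ≠ 0 ↔ y i ≠ 0 := by
        by_cases hi : i ∈ B
        · have := Finset.ext_iff.1 hxy.2 i
          simpa only [Finset.mem_filter, hi, true_and] using this
        · by_cases hi2 : i < M
          · have := Finset.ext_iff.1 hxy.1 i
            simpa only [Finset.mem_filter, Finset.mem_sdiff, Finset.mem_range, hi, hi2,
              not_false_eq_true, true_and] using this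
          · rw [hx.1 i (by omega), hy.1 i (by omega)]
      rcases zmod2 (x i) with h1 | h1 <;> rcases zmod2 (y i) with h2 | h2 <;>
        simp [h1, h2] at key ⊢
  have hcard : (((Finset.range M \ B).powerset) ×ˢ T).card =
      2 ^ (M - nn k) * T.card := by
    rw [Finset.card_product, Finset.card_powerset, Finset.card_sdiff_of_subset hBM,
      Finset.card_range, hBcard]
  calc ((H M).filter fun x => ¬ Far B k x).card * 2 ^ (k + 3)
      ≤ 2 ^ (M - nn k) * T.card * 2 ^ (k + 3) := by
        rw [← hcard]; gcongr
    _ ≤ 2 ^ (M - nn k) * ((2 * k + 1) * Nat.centralBinom (tt k)) * 2 ^ (k + 3) := by gcongr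
    _ = 2 ^ (M - nn k) * ((2 * k + 1) * Nat.centralBinom (tt k) * 2 ^ (k + 3)) := by ring
    _ ≤ 2 ^ (M - nn k) * 4 ^ tt k := by gcongr; exact middle_bound k
    _ = 2 ^ (M - nn k) * 2 ^ nn k := by
        unfold nn; rw [pow_mul 2 2 (tt k)]; norm_num
    _ = 2 ^ M := by rw [← pow_add]; congr 1; omega

open Classical in
/-- Most words are good. -/
theorem bad_count (hc : ∀ k i, N nn k ≤ i → c k i = 0) (k : ℕ) : ∀ M, N nn k ≤ M →
    (((H M).filter fun x => ¬ Good nn c k x).card : ℝ) ≤ (1 / 2 - 1 / 2 ^ (k + 1)) * 2 ^ M := by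
  classical
  induction k with
  | zero =>
    intro M _
    have : ((H M).filter fun x => ¬ Good nn c 0 x) = ∅ := by
      rw [Finset.filter_eq_empty_iff]
      intro x _ h
      exact h trivial
    rw [this]
    norm_num
  | succ k ih =>
    intro M hM
    have e : N nn (k + 1) = N nn k + nn k + nn k := rfl
    set θ : V2 → V2 := fun x => x + mult nn k x • c k with hθ
    have hθH : ∀ x ∈ H M, θ x ∈ H M := by
      intro x hx
      rw [mem_H] at hx ⊢
      intro i hi
      simp only [hθ]
      rw [Finsupp.add_apply, hx i hi, Finsupp.smul_apply, hc k i (by omega), smul_zero, add_zero]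
    have hθθ : ∀ x, θ (θ x) = x := by
      intro x
      have h1 : mult nn k (θ x) = mult nn k x := by
        apply mult_congr
        intro i hi _
        simp only [hθ]
        rw [Finsupp.add_apply, Finsupp.smul_apply, hc k i hi, smul_zero, add_zero]
      show θ x + mult nn k (θ x) • c k = x
      rw [h1]
      simp only [hθ]
      rw [add_assoc, two_smul', add_zero]
    have hsub : ((H M).filter fun x => ¬ Good nn c (k + 1) x) ⊆
        ((H M).filter fun x => ¬ Good nn c k (θ x)) ∪
        (((H M).filter fun x => ¬ Far (I nn k) k x) ∪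
          ((H M).filter fun x => ¬ Far (J nn k) k x)) := by
      intro x hx
      rw [Finset.mem_filter] at hx
      simp only [Finset.mem_union, Finset.mem_filter, hx.1, true_and]
      have h1 : ¬ (Good nn c k (θ x) ∧ Far (I nn k) k x ∧ Far (J nn k) k x) := hx.2
      by_cases g1 : Good nn c k (θ x)
      · by_cases g2 : Far (I nn k) k x
        · exact Or.inr (Or.inr fun g3 => h1 ⟨g1, g2, g3⟩)
        · exact Or.inr (Or.inl g2)
      · exact Or.inl g1
    have hθcard : ((H M).filter fun x => ¬ Good nn c k (θ x)).card ≤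
        ((H M).filter fun x => ¬ Good nn c k x).card := by
      apply Finset.card_le_card_of_injOn θ
      · intro x hx
        rw [Finset.mem_coe, Finset.mem_filter] at hx ⊢
        exact ⟨hθH x hx.1, hx.2⟩
      · intro x _ y _ hxy
        rw [← hθθ x, ← hθθ y, hxy]
    have hI : ((H M).filter fun x => ¬ Far (I nn k) k x).card * 2 ^ (k + 3) ≤ 2 ^ M :=
      nonfar_count k M (N nn k) (by omega)
    have hJ : ((H M).filter fun x => ¬ Far (J nn k) k x).card * 2 ^ (k + 3) ≤ 2 ^ M :=
      nonfar_count k M (N nn k + nn k) (by omega)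
    have hcard : ((H M).filter fun x => ¬ Good nn c (k + 1) x).card ≤
        ((H M).filter fun x => ¬ Good nn c k x).card +
        (((H M).filter fun x => ¬ Far (I nn k) k x).card +
          ((H M).filter fun x => ¬ Far (J nn k) k x).card) :=
      (Finset.card_le_card hsub).trans ((Finset.card_union_le _ _).trans
        (Nat.add_le_add hθcard (Finset.card_union_le _ _)))
    have hprev := ih M (by omega)
    have hpow : (0 : ℝ) < 2 ^ (k + 3) := by positivity
    generalize ((H M).filter fun x => ¬ Good nn c (k + 1) x).card = a0 at hcard ⊢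
    generalize ((H M).filter fun x => ¬ Good nn c k x).card = a1 at hcard hprev
    generalize ((H M).filter fun x => ¬ Far (I nn k) k x).card = a2 at hcard hI
    generalize ((H M).filter fun x => ¬ Far (J nn k) k x).card = a3 at hcard hJ
    have hI2 : (a2 : ℝ) ≤ 1 / 2 ^ (k + 3) * 2 ^ M := by
      rw [div_mul_eq_mul_div, one_mul, le_div_iff₀ hpow]; exact_mod_cast hI
    have hJ2 : (a3 : ℝ) ≤ 1 / 2 ^ (k + 3) * 2 ^ M := by
      rw [div_mul_eq_mul_div, one_mul, le_div_iff₀ hpow]; exact_mod_cast hJ
    have hcard' : (a0 : ℝ) ≤ a1 + (a2 + a3) := by exact_mod_cast hcard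
    have hM0 : (0 : ℝ) < 2 ^ M := by positivity
    have hfin : (1 / 2 - 1 / 2 ^ (k + 1 + 1) : ℝ) =
        (1 / 2 - 1 / 2 ^ (k + 1)) + (1 / 2 ^ (k + 3) + 1 / 2 ^ (k + 3)) := by
      have : (2 : ℝ) ^ k ≠ 0 := by positivity
      rw [pow_succ (2 : ℝ) (k + 1), pow_succ (2 : ℝ) k, pow_add (2 : ℝ) k 3]
      field_simp
      ring
    rw [hfin]
    nlinarith

end Recursion

end Q154.BohrSingle
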