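import Mathlib
open Finset Polynomial

namespace Q154.Crown

def rp : List ℕ → ℕ → List ℕ → List ℕ
  | acc, _, [] => acc
  | acc, s, x :: l => rp ((s + x) :: acc) (s + x) l

def step (l : List ℕ) : List ℕ := rp [] 0 l

def unit (N s : ℕ) : List ℕ := (List.range N).map (fun i => if i = s then 1 else 0)

def iter : ℕ → List ℕ → List ℕ
  | 0, l => l
  | n + 1, l => iter n (step l)

def closed (L N : ℕ) : ℕ := ((List.range N).map (fun s => (iter L (unit N s)).getD s 0)).sum

theorem rp_eq (l : List ℕ) : ∀ acc s,
    rp acc s l = ((List.range l.length).map (fun i => s + (l.take (i + 1)).sum)).reverse ++ acc := by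
  induction l with
  | nil => intro acc s; simp [rp]
  | cons x l ih =>
    intro acc s
    rw [rp, ih]
    simp only [List.length_cons, List.range_succ_eq_map, List.map_cons, List.map_map,
      List.reverse_cons, List.append_assoc, List.take_succ_cons, List.sum_cons]
    simp [Function.comp_def, add_assoc]

theorem length_step (l : List ℕ) : (step l).length = l.length := by
  simp [step, rp_eq]

/-- the antitriangular matrix -/
def B (N : ℕ) : Matrix (Fin N) (Fin N) ℕ := fun a b => if (a : ℕ) + b < N then 1 else 0

theorem sum_take_ofFn {N : ℕ} (w : Fin N → ℕ) (k : ℕ) :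
    ((List.ofFn w).take k).sum = ∑ j : Fin N, if (j : ℕ) < k then w j else 0 := by
  rw [List.sum_take_ofFn]
  rw [sum_filter]

theorem step_ofFn {N : ℕ} (w : Fin N → ℕ) :
    step (List.ofFn w) = List.ofFn ((B N).mulVec w) := by
  apply List.ext_getElem
  · rw [length_step]; simp
  · intro i h1 h2
    have hi : i < N := by simpa using h2
    simp only [step, rp_eq, List.length_ofFn, List.append_nil, zero_add, List.getElem_reverse,
      List.getElem_map, List.getElem_range, List.getElem_ofFn, List.length_map, List.length_range]
    rw [sum_take_ofFn]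
    simp only [Matrix.mulVec, dotProduct, B]
    refine sum_congr rfl fun j _ => ?_
    have hj := j.isLt
    by_cases h : (j : ℕ) < N - 1 - i + 1
    · have h' : i + (j : ℕ) < N := by omega
      simp [h, h']
    · have h' : ¬ i + (j : ℕ) < N := by omega
      simp [h, h']

theorem iter_ofFn {N : ℕ} (L : ℕ) : ∀ w : Fin N → ℕ,
    iter L (List.ofFn w) = List.ofFn (((B N) ^ L).mulVec w) := by
  induction L with
  | zero => intro w; simp [iter]
  | succ L ih =>
    intro w
    rw [iter, step_ofFn, ih, Matrix.mulVec_mulVec, ← pow_succ]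

theorem unit_eq (N : ℕ) (s : Fin N) : unit N s = List.ofFn (Pi.single s 1 : Fin N → ℕ) := by
  apply List.ext_getElem
  · simp [unit]
  · intro i h1 h2
    have hi : i < N := by simpa using h2
    simp only [unit, List.getElem_map, List.getElem_range, List.getElem_ofFn, Pi.single_apply,
      Fin.ext_iff]

theorem closed_eq (L N : ℕ) : closed L N = Matrix.trace ((B N) ^ L) := by
  unfold closed
  have h1 : ((List.range N).map (fun s => (iter L (unit N s)).getD s 0)).sum =
      ∑ s ∈ range N, (iter L (unit N s)).getD s 0 := by
    rw [Finset.sum_range, ← List.sum_ofFn]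
    congr 1
    apply List.ext_getElem
    · simp
    · intro i h1 h2
      simp
  rw [h1, Finset.sum_range, Matrix.trace]
  refine sum_congr rfl fun s _ => ?_
  rw [unit_eq, iter_ofFn, List.getD_eq_getElem _ _ (by simp), List.getElem_ofFn]
  simp

/-- Closed-walk weights: path weights are entries of matrix powers. -/
theorem walk_sum {ι : Type} [Fintype ι] [DecidableEq ι] (F : Matrix ι ι ℕ) (m : ℕ) :
    ∀ h : ι → ι → ℕ,
      ∑ v : Fin (m + 1) → ι, (∏ i : Fin m, F (v i.castSucc) (v i.succ)) * h (v 0) (v (Fin.last m)) =
        ∑ a, ∑ b, (F ^ m) a b * h a b := by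
  induction m with
  | zero =>
    intro h
    simp only [univ_eq_empty, prod_empty, one_mul, pow_zero]
    rw [← (Equiv.funUnique (Fin 1) ι).symm.sum_comp]
    simp [Matrix.one_apply, Fin.last]
  | succ m ih =>
    intro h
    rw [← (Fin.snocEquiv (fun _ : Fin (m + 2) => ι)).sum_comp, Fintype.sum_prod_type, sum_comm]
    have key : ∀ (v : Fin (m + 1) → ι), ∑ x : ι,
        (∏ i : Fin (m + 1), F ((Fin.snocEquiv (fun _ : Fin (m + 2) => ι)) (x, v) i.castSucc)
          ((Fin.snocEquiv (fun _ : Fin (m + 2) => ι)) (x, v) i.succ)) *
          h ((Fin.snocEquiv (fun _ : Fin (m + 2) => ι)) (x, v) 0)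
            ((Fin.snocEquiv (fun _ : Fin (m + 2) => ι)) (x, v) (Fin.last (m + 1))) =
        (∏ i : Fin m, F (v i.castSucc) (v i.succ)) *
          (∑ x, F (v (Fin.last m)) x * h (v 0) x) := by
      intro v
      rw [mul_sum]
      refine sum_congr rfl fun x _ => ?_
      rw [Fin.prod_univ_castSucc]
      simp only [Fin.snocEquiv, Equiv.coe_fn_mk]
      have h0 : (Fin.snoc v x : Fin (m + 2) → ι) 0 = v 0 := by
        have := Fin.snoc_castSucc (α := fun _ : Fin (m + 2) => ι) x v 0
        simpa using this
      have h1 : ∀ i : Fin m, (Fin.snoc v x : Fin (m + 2) → ι) i.castSucc.succ = v i.succ := by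
        intro i
        rw [← Fin.castSucc_succ]
        exact Fin.snoc_castSucc (α := fun _ : Fin (m + 2) => ι) x v i.succ
      have h2 : ∀ i : Fin (m + 1), (Fin.snoc v x : Fin (m + 2) → ι) i.castSucc = v i := by
        intro i
        exact Fin.snoc_castSucc (α := fun _ : Fin (m + 2) => ι) x v i
      have h3 : (Fin.snoc v x : Fin (m + 2) → ι) (Fin.last (m + 1)) = x :=
        Fin.snoc_last (α := fun _ : Fin (m + 2) => ι) x v
      simp only [h0, h1, h2, h3, Fin.succ_last]
      ring
    rw [sum_congr rfl fun v _ => key v]
    rw [ih (fun a b => ∑ x, F b x * h a x)]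
    refine sum_congr rfl fun a _ => ?_
    rw [pow_succ]
    simp only [Matrix.mul_apply, mul_sum, sum_mul]
    rw [sum_comm]
    refine sum_congr rfl fun x _ => sum_congr rfl fun b _ => ?_
    ring

/-- the symmetric zigzag matrix -/
def M (N : ℕ) : Matrix (Fin N) (Fin N) ℕ := fun a b =>
  Fintype.card {c : Fin N // a ≤ c ∧ b ≤ c}

theorem M_eq (N : ℕ) : M N = (B N) ^ 2 := by
  ext a b
  rw [pow_two, Matrix.mul_apply, M, Fintype.card_subtype, card_filter]
  rw [← Equiv.sum_comp Fin.revPerm (fun c : Fin N => if a ≤ c ∧ b ≤ c then 1 else 0)]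
  refine sum_congr rfl fun c _ => ?_
  simp only [B, Fin.revPerm_apply]
  have h1 : a ≤ Fin.rev c ↔ (a : ℕ) + c < N := by
    rw [Fin.le_def, Fin.val_rev]; omega
  have h2 : b ≤ Fin.rev c ↔ (c : ℕ) + b < N := by
    rw [Fin.le_def, Fin.val_rev]; omega
  by_cases h3 : (a : ℕ) + c < N <;> by_cases h4 : (c : ℕ) + b < N <;> simp [h1, h2, h3, h4]

/-- maps from the crown with `2 n` elements to a chain with `N` elements -/
def CrownMap (n N : ℕ) : Type :=
  {ve : (ZMod n → Fin N) × (ZMod n → Fin N) // ∀ i, ve.1 i ≤ ve.2 i ∧ ve.1 (i + 1) ≤ ve.2 i}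

theorem card_crown (m N : ℕ) :
    Nat.card (CrownMap (m + 1) N) = closed (2 * (m + 1)) N := by
  rw [closed_eq, pow_mul, ← M_eq]
  have e1 : CrownMap (m + 1) N ≃ Σ v : Fin (m + 1) → Fin N,
      {e : Fin (m + 1) → Fin N // ∀ i, v i ≤ e i ∧ v (i + 1) ≤ e i} :=
    { toFun := fun x => ⟨x.1.1, x.1.2, x.2⟩
      invFun := fun y => ⟨(y.1, y.2.1), y.2.2⟩
      left_inv := fun x => rfl
      right_inv := fun y => rfl }
  rw [Nat.card_congr e1, Nat.card_sigma]
  have e2 : ∀ v : Fin (m + 1) → Fin N,
      Nat.card {e : Fin (m + 1) → Fin N // ∀ i, v i ≤ e i ∧ v (i + 1) ≤ e i} =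
        (∏ i : Fin m, M N (v i.castSucc) (v i.succ)) * M N (v (Fin.last m)) (v 0) := by
    intro v
    rw [Nat.card_congr (Equiv.subtypePiEquivPi (p := fun i c => v i ≤ c ∧ v (i + 1) ≤ c)),
      Nat.card_pi, Fin.prod_univ_castSucc]
    simp only [M, Nat.card_eq_fintype_card, Fin.coeSucc_eq_succ, Fin.last_add_one]
  rw [sum_congr rfl fun v _ => e2 v]
  rw [walk_sum (M N) m (fun a b => M N b a)]
  rw [pow_succ, Matrix.trace]
  refine sum_congr rfl fun a _ => ?_
  rw [Matrix.diag_apply, Matrix.mul_apply]

/-- number of surjective order maps onto a chain with k elements -/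
noncomputable def surj (P : Type) [PartialOrder P] (k : ℕ) : ℕ :=
  Nat.card {f : P →o Fin k // Function.Surjective f}

theorem card_hom_eq (P : Type) [PartialOrder P] [Finite P] (m : ℕ) :
    Nat.card (P →o Fin m) = ∑ S : Finset (Fin m), surj P S.card := by
  classical
  have : Finite (P →o Fin m) := Finite.of_injective (fun f => (f : P → Fin m)) DFunLike.coe_injective
  have := Fintype.ofFinite P
  let rg : (P →o Fin m) → Finset (Fin m) := fun f => univ.image f
  have e : (P →o Fin m) ≃ Σ S : Finset (Fin m), {f : P →o Fin m // rg f = S} :=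
    (Equiv.sigmaFiberEquiv rg).symm
  rw [Nat.card_congr e, Nat.card_sigma]
  refine sum_congr rfl fun S _ => ?_
  refine Nat.card_congr ?_
  let iso := S.orderIsoOfFin rfl
  refine
    { toFun := fun f => ⟨⟨fun a => iso.symm ⟨f.1 a, ?_⟩, ?_⟩, ?_⟩
      invFun := fun g => ⟨⟨fun a => (iso (g.1 a) : Fin m), ?_⟩, ?_⟩
      left_inv := ?_
      right_inv := ?_ }
  · exact (Finset.ext_iff.1 f.2 _).1 (mem_image_of_mem f.1 (mem_univ a))
  · intro a b hab
    apply iso.symm.monotone
    exact f.1.monotone hab
  · intro c
    have hc : (iso c : Fin m) ∈ rg f.1 := by rw [f.2]; exact (iso c).2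
    obtain ⟨a, _, ha⟩ := mem_image.1 hc
    refine ⟨a, ?_⟩
    show iso.symm ⟨f.1 a, _⟩ = c
    rw [OrderIso.symm_apply_eq]
    exact Subtype.ext ha
  · intro a b hab
    exact iso.monotone (g.1.monotone hab)
  · ext x
    simp only [rg, mem_image, mem_univ, true_and]
    constructor
    · rintro ⟨a, rfl⟩
      exact (iso (g.1 a)).2
    · intro hx
      obtain ⟨a, ha⟩ := g.2 (iso.symm ⟨x, hx⟩)
      refine ⟨a, ?_⟩
      show ((iso (g.1 a) : S) : Fin m) = x
      rw [ha]
      simp
  · intro f
    apply Subtype.ext
    apply OrderHom.ext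
    funext a
    show ((iso (iso.symm ⟨f.1 a, _⟩) : S) : Fin m) = f.1 a
    simp
  · intro g
    apply Subtype.ext
    apply OrderHom.ext
    funext a
    show iso.symm ⟨((iso (g.1 a) : S) : Fin m), _⟩ = g.1 a
    simp

theorem surj_zero (P : Type) [PartialOrder P] [Finite P] {k : ℕ} (h : Nat.card P < k) :
    surj P k = 0 := by
  unfold surj
  have : IsEmpty {f : P →o Fin k // Function.Surjective f} := by
    constructor
    rintro ⟨f, hf⟩
    have := Nat.card_le_card_of_surjective f hf
    simp at this
    omega
  exact Nat.card_of_isEmpty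

theorem card_hom_poly (P : Type) [PartialOrder P] [Finite P] (m : ℕ) :
    Nat.card (P →o Fin m) = ∑ k ∈ range (Nat.card P + 1), m.choose k * surj P k := by
  rw [card_hom_eq]
  have h1 : ∑ S : Finset (Fin m), surj P S.card = ∑ k ∈ range (m + 1), m.choose k * surj P k := by
    have := Finset.sum_powerset_apply_card (x := (univ : Finset (Fin m))) (fun k => surj P k)
    simpa using this
  rw [h1]
  set c := Nat.card P
  have h2 : ∑ k ∈ range (m + 1), m.choose k * surj P k =
      ∑ k ∈ range (max m c + 1), m.choose k * surj P k := by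
    refine sum_subset (range_subset_range.2 (by omega)) fun k _ hk => ?_
    rw [Nat.choose_eq_zero_of_lt (by simpa using hk), zero_mul]
  have h3 : ∑ k ∈ range (c + 1), m.choose k * surj P k =
      ∑ k ∈ range (max m c + 1), m.choose k * surj P k := by
    refine sum_subset (range_subset_range.2 (by omega)) fun k _ hk => ?_
    rw [surj_zero P (by simpa using hk), mul_zero]
  rw [h2, h3]

theorem exists_poly (P : Type) [PartialOrder P] [Finite P] :
    ∃ p : ℚ[X], p.natDegree ≤ Nat.card P ∧ ∀ t : ℕ, p.eval (t : ℚ) = Nat.card (P →o Fin (t + 1)) := by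
  refine ⟨(∑ k ∈ range (Nat.card P + 1), C ((surj P k : ℚ) / (k.factorial : ℚ)) *
    descPochhammer ℚ k).comp (X + C 1), ?_, ?_⟩
  · refine (natDegree_comp_le).trans ?_
    rw [natDegree_X_add_C, mul_one]
    refine natDegree_sum_le_of_forall_le _ _ fun k hk => ?_
    refine (natDegree_C_mul_le _ _).trans ?_
    rw [descPochhammer_natDegree]
    have := mem_range.1 hk
    omega
  · intro t
    rw [card_hom_poly]
    rw [eval_comp]
    simp only [eval_add, eval_X, eval_C, Polynomial.eval_finsetSum, eval_mul]
    push_cast
    refine sum_congr rfl fun k _ => ?_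
    have h : ((t : ℚ) + 1) = ((t + 1 : ℕ) : ℚ) := by push_cast; rfl
    rw [h, descPochhammer_eval_eq_descFactorial, Nat.descFactorial_eq_factorial_mul_choose]
    have := Nat.factorial_ne_zero k
    push_cast
    field_simp


/-- numbers of maps from the crown with 26 elements to chains -/
def cv : List ℕ :=
  [1, 271443, 1385407029, 874569107071, 154424192534978, 11590981980134136, 471109005712845073,
  12073893516637797647, 216054227528911051598, 2899588931289770319928, 30747252105854418602807,
  267900870986039891665533, 1976658261038065237688965, 12646583259151935165028659,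
  71505544338055517905383002, 362852466483982941465664294, 1673644967862052696066138463,
  7091534775916075003484209649, 27850704697432295249191815709, 102151810477267331847970867095,
  352204279293140920190902505756, 1147947037059968833062938517298,
  3554264799119307289506871036659, 10498698066409011044245276217901,
  29697044023575712453995735900724, 80710316446302004065351530568318,
  211382155607852560741336416052863, 534907644994676627454203692327477,
  1310960487246736777485104974336647]

set_option maxRecDepth 100000 in
theorem cv_eq : (List.range 29).map (fun k => closed 26 (k + 1)) = cv := by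
  decide +kernel

theorem cv_get (k : ℕ) (hk : k < 29) : closed 26 (k + 1) = cv.getD k 0 := by
  rw [← cv_eq]
  rw [List.getD_eq_getElem _ _ (by simpa using hk)]
  simp

/-- numerators of the coefficients -/
def num : List ℤ :=
  [22903271079605908992000000, -193655046254166360864000000, 5538164229477402901489440000,
  17003847111356689089733584000, 38640528544457571935292212400, 120626190972553059397803850560,
  287137053559460504041772306904, 498589600868502291064999129320, 722589820154798132800102112091,
  910175559026999213557926317000, 980043216904728583759937393180, 899321041831723525253793153600,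
  710964252495489207549589352370, 487354321260776552444015918400, 289365582365488774861349443740,
  148390775761467757199289749400, 65588755744399188187113158235, 24910346735638729938169342200,
  8077740585772903614175403160, 2214091259178613774111152000, 506507612847433611605231040,
  95323013842176169739289600, 14519098597064981797662720, 1754884805651741878732800,
  163979737580072320058880, 11404343491836246282240, 555237894683185975296, 16879398059877498880,
  241134257998249984]

/-- common denominator -/
def den : ℕ := 22903271079605908992000000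

/-- the values of the Ehrhart polynomial -/
def tot (t : ℕ) : ℕ :=
  ∑ b ∈ range (t + 1), ∑ T ∈ range (t + 1), if b ≤ T then cv.getD (T - b) 0 else 0

set_option maxRecDepth 100000 in
theorem tot_eq : ∀ t : ℕ, t < 29 → ∑ i ∈ range 29, num.getD i 0 * (t : ℤ) ^ i = (den : ℤ) * tot t := by
  decide +kernel

end Q154.Crown
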