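import Pool.Agent.Q127.DJ.Stm

/-!
# LAG of the DJ project: remove the lag and refine to points
-/

set_option autoImplicit false

namespace Pool.Agent.Q154.DJ_LAG

open MeasureTheory Filter Topology Pool.Agent.Q127.DJ

lemma meas_S : Measurable S := measurable_pi_lambda _ fun n => measurable_pi_apply (n + 1)

lemma iter_S (j : ℕ) : ∀ (y : ℕ → ℕ) (n : ℕ), (S^[j] y) n = y (n + j) := by
  induction j with
  | zero => intro y n; rfl
  | succ j ih =>
    intro y n
    rw [Function.iterate_succ_apply, ih]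
    show y (n + j + 1) = y (n + (j + 1))
    rfl

theorem lag : S_lag := by
  intro μ ν _ _ hμ hν m k f h a b j ξ _ hξ h1 h2 hne
  let G : (ℕ → ℕ) × (ℕ → ℕ) → (ℕ → ℕ) × (ℕ → ℕ) := fun p => (p.1, S^[j] p.2)
  have mSj : Measurable (S^[j]) := meas_S.iterate j
  have hG : Measurable G := measurable_fst.prodMk (mSj.comp measurable_snd)
  have hP : Measurable (Prod.map S S) := meas_S.prodMap meas_S
  have hcomm : Prod.map S S ∘ G = G ∘ Prod.map S S := by
    funext p
    refine Prod.ext rfl ?_
    show S (S^[j] p.2) = S^[j] (S p.2)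
    exact (Function.iterate_succ_apply' S j p.2).symm.trans (Function.iterate_succ_apply S j p.2)
  have hpr : IsProbabilityMeasure (ξ.map G) := Measure.isProbabilityMeasure_map hG.aemeasurable
  have hf1 : (ξ.map G).map Prod.fst = μ := by
    rw [Measure.map_map measurable_fst hG, ← h1]
    rfl
  have hf2 : (ξ.map G).map Prod.snd = ν := by
    rw [Measure.map_map measurable_snd hG]
    have e : Prod.snd ∘ G = S^[j] ∘ Prod.snd := rfl
    rw [e, ← Measure.map_map mSj measurable_snd, h2]
    exact (hν.iterate j).map_eq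
  refine ⟨ξ.map G, hpr, ⟨hP, ?_⟩, hf1, hf2, ?_⟩
  · rw [Measure.map_map hP hG, hcomm, ← Measure.map_map hG hP, hξ.map_eq]
  by_contra hcon
  push Not at hcon
  have m0 : Measurable fun x : ℕ → ℕ => x 0 := measurable_pi_apply 0
  let π : (ℕ → ℕ) × (ℕ → ℕ) → ℕ × ℕ := fun p => (p.1 0, p.2 0)
  have hπ : Measurable π := (m0.comp measurable_fst).prodMk (m0.comp measurable_snd)
  have : IsProbabilityMeasure (μ.map fun x : ℕ → ℕ => x 0) :=
    Measure.isProbabilityMeasure_map m0.aemeasurable
  have : IsProbabilityMeasure (ν.map fun x : ℕ → ℕ => x 0) :=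
    Measure.isProbabilityMeasure_map m0.aemeasurable
  have key : (ξ.map G).map π = (μ.map fun x : ℕ → ℕ => x 0).prod (ν.map fun x : ℕ → ℕ => x 0) := by
    refine Measure.ext_of_singleton fun q => ?_
    obtain ⟨a', b'⟩ := q
    have e1 : ({(a', b')} : Set (ℕ × ℕ)) = {a'} ×ˢ {b'} := Set.singleton_prod_singleton.symm
    rw [Measure.map_apply hπ (measurableSet_singleton _), e1, Measure.prod_prod,
      Measure.map_apply m0 (measurableSet_singleton _),
      Measure.map_apply m0 (measurableSet_singleton _)]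
    have := hcon a' b'
    exact this
  have e2 : {p : (ℕ → ℕ) × (ℕ → ℕ) | f (p.1 0) = a ∧ h (p.2 j) = b} =
      G ⁻¹' (π ⁻¹' ({i | f i = a} ×ˢ {i | h i = b})) := by
    ext p
    show (f (p.1 0) = a ∧ h (p.2 j) = b) ↔ (f (p.1 0) = a ∧ h ((S^[j] p.2) 0) = b)
    rw [iter_S, Nat.zero_add]
  have m1 : MeasurableSet ({i | f i = a} ×ˢ {i | h i = b} : Set (ℕ × ℕ)) := MeasurableSet.of_discrete
  apply hne
  have e3 : ξ {p : (ℕ → ℕ) × (ℕ → ℕ) | f (p.1 0) = a ∧ h (p.2 j) = b} =
      μ {x | f (x 0) = a} * ν {y | h (y 0) = b} := by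
    rw [e2, ← Measure.map_apply hG (hπ m1), ← Measure.map_apply hπ m1, key, Measure.prod_prod,
      Measure.map_apply m0 MeasurableSet.of_discrete,
      Measure.map_apply m0 MeasurableSet.of_discrete]
    rfl
  rw [Measure.real, Measure.real, Measure.real, e3, ENNReal.toReal_mul]

end Pool.Agent.Q154.DJ_LAG
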