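import Pool.Agent.Q256.EC.Stm

/-!
# Job EC-FLD: a finite extension in which a polynomial splits
-/

set_option autoImplicit false

namespace Pool.Agent.Q154.EC

open Pool.Agent.Q256.EC Polynomial

theorem fld : S_FLD := by
  intro p _ χ hχ
  have hs : (χ.map (algebraMap ℚ_[p] (PadicAlgCl p))).Splits := IsAlgClosed.splits _
  have h1 : χ.IsSplittingField ℚ_[p]
      (IntermediateField.adjoin ℚ_[p] (χ.rootSet (PadicAlgCl p))) :=
    IntermediateField.adjoin_rootSet_isSplittingField hs
  refine ⟨IntermediateField.adjoin ℚ_[p] (χ.rootSet (PadicAlgCl p)), ?_, ?_⟩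
  · exact Polynomial.IsSplittingField.finiteDimensional _ χ
  · exact h1.splits

end Pool.Agent.Q154.EC
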