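import Pool.Agent.Q256.EC.Stm

/-!
# Job EC-GGC: sets of numbers with the alternatives on classes
-/

set_option autoImplicit false

namespace Pool.Agent.Q154.EC

open Pool.Agent.Q256.EC
open Pool.Agent.Q170.GP (GapP)

theorem ggc : S_GSB → S_GGC := by
  intro hB p hp
  obtain ⟨_, hsub, hfin⟩ := hB p hp
  have h1 : ∀ (μ : ℕ) (S : Set ℕ), GapP p μ S → GG p S := by
    intro μ S hS
    refine ⟨1, one_pos, fun K hK _ => ⟨0, fun j _ => Or.inr ?_⟩⟩
    exact hsub μ S j K hK hS
  refine ⟨h1, ?_, ?_, ?_⟩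
  · intro S hS
    obtain ⟨μ, hμ⟩ := hfin S hS
    exact h1 μ S hμ
  · intro S a hS
    refine ⟨1, one_pos, fun K _ _ => ⟨a, fun j hj => Or.inl fun n => ?_⟩⟩
    exact hS _ (by omega)
  · intro S a0 k0 hk0 h
    choose! K0 hK0 hK using h
    refine ⟨k0 * ∏ j ∈ Finset.range k0, K0 j, Nat.mul_pos hk0
      (Finset.prod_pos fun j hj => hK0 j (Finset.mem_range.1 hj)), ?_⟩
    intro K hKpos hdvd
    obtain ⟨t, ht⟩ := hdvd
    obtain ⟨K', hK'⟩ : ∃ K' : ℕ, K' = (∏ j ∈ Finset.range k0, K0 j) * t := ⟨_, rfl⟩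
    have hKK : K = k0 * K' := by
      rw [ht, hK', mul_assoc]
    have hK'pos : 0 < K' := by
      rcases Nat.eq_zero_or_pos K' with h0 | h0
      · rw [hKK, h0] at hKpos
        simp at hKpos
      · exact h0
    have hdj : ∀ j, j < k0 → K0 j ∣ K' := by
      intro j hj
      rw [hK']
      exact (Finset.dvd_prod_of_mem K0 (Finset.mem_range.2 hj)).mul_right t
    have hex : ∀ j, j < k0 → ∃ a : ℕ, ∀ s, a ≤ s →
        (∀ n, s + K' * n ∈ {n | a0 + j + k0 * n ∈ S}) ∨
          ∃ μ, GapP p μ {n | s + K' * n ∈ {n | a0 + j + k0 * n ∈ S}} :=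
      fun j hj => hK j hj K' hK'pos (hdj j hj)
    choose! a ha using hex
    refine ⟨a0 + k0 * (1 + ∑ j ∈ Finset.range k0, a j), fun i hi => ?_⟩
    obtain ⟨j, hj⟩ : ∃ j, j = (i - a0) % k0 := ⟨_, rfl⟩
    obtain ⟨s, hs⟩ : ∃ s, s = (i - a0) / k0 := ⟨_, rfl⟩
    have hjk : j < k0 := by
      rw [hj]
      exact Nat.mod_lt _ hk0
    have hia : i = a0 + j + k0 * s := by
      have := Nat.mod_add_div (i - a0) k0
      rw [← hj, ← hs] at this
      omega
    have hsa : a j ≤ s := by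
      have h2 : a j ≤ ∑ j ∈ Finset.range k0, a j :=
        Finset.single_le_sum (fun _ _ => Nat.zero_le _) (Finset.mem_range.2 hjk)
      have h3 : 1 + ∑ j ∈ Finset.range k0, a j ≤ s := by
        rw [hs, Nat.le_div_iff_mul_le hk0, mul_comm]
        omega
      omega
    have hset : ∀ n, i + K * n ∈ S ↔ a0 + j + k0 * (s + K' * n) ∈ S := by
      intro n
      have : i + K * n = a0 + j + k0 * (s + K' * n) := by
        rw [hia, hKK]
        ring
      rw [this]
    rcases ha j hjk s hsa with h4 | ⟨μ, h4⟩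
    · left
      intro n
      rw [hset n]
      exact h4 n
    · right
      refine ⟨μ, ?_⟩
      have h5 : {n | i + K * n ∈ S} = {n | s + K' * n ∈ {n | a0 + j + k0 * n ∈ S}} := by
        ext n
        exact hset n
      rw [h5]
      exact h4

end Pool.Agent.Q154.EC
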