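import Pool.Agent.Q256.EC.Stm

/-!
# Job EC-ITF: the polynomials of the iterates
-/

set_option autoImplicit false

namespace Pool.Agent.Q154.EC

open Pool.Agent.Q256.EC MvPolynomial
open Pool.Agent.H936R2 (pt jac)

theorem itf : S_ITF := by
  refine ⟨?_, ?_, ?_⟩
  · intro R ι _ F k
    funext x i
    have h := Pool.Agent.Q170.GP.eval_bind_iter F k x (X i)
    rw [eval_X] at h
    exact h
  · intro R ι _ F d k hF
    have key : ∀ (e : ℕ) (G : MvPolynomial ι R), G.IsHomogeneous e →
        ((bind₁ F)^[k] G).IsHomogeneous (e * d ^ k) := by
      intro e G hG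
      induction k with
      | zero =>
        simpa using hG
      | succ k ih =>
        rw [Function.iterate_succ_apply']
        have h1 := ih.aeval F hF
        have h2 : e * d ^ (k + 1) = d * (e * d ^ k) := by ring
        rw [h2]
        exact h1
    refine ⟨fun i => ?_, key⟩
    have h := key 1 (X i) (isHomogeneous_X R i)
    rw [one_mul] at h
    exact h
  · intro R R' ι _ _ Θ F k
    have key : ∀ G : MvPolynomial ι R, map Θ ((bind₁ F)^[k] G) =
        (bind₁ (fun i => map Θ (F i)))^[k] (map Θ G) := by
      intro G
      induction k with
      | zero => rfl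
      | succ k ih =>
        rw [Function.iterate_succ_apply', Function.iterate_succ_apply', map_bind₁, ih]
    funext i
    have h := key (X i)
    rw [map_X] at h
    exact h

end Pool.Agent.Q154.EC
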