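import Pool.Agent.Q256.EC.Stm

/-!
# Job EC-TES: Taylor expansions of shifted sequences
-/

set_option autoImplicit false

namespace Pool.Agent.Q154.EC

open Pool.Agent.Q256.EC Polynomial

theorem tes : S_TEM → S_TES := by
  intro hT K _ t ht D k hD hk hstep h1 a ha
  obtain ⟨hadd, hmul, hconst, _, hsmall, hprod⟩ := hT K t ht
  have hpow : ∀ j : ℕ, Te t (k + 1) (fun n => t (n + 1) ^ j) := by
    intro j
    induction j with
    | zero =>
      simp only [pow_zero]
      exact hconst (k + 1) 1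
    | succ j ih =>
      have h2 := hprod 0 0 (k + 1) (k + 1) (k + 1) 1 1 (fun n => t (n + 1) ^ j)
        (fun n => t (n + 1)) (by omega) (by omega) (by omega)
        (fun n => by
          rw [norm_pow, pow_zero, mul_one]
          exact pow_le_one₀ (norm_nonneg _) (ht (n + 1)))
        (fun n => by
          rw [pow_zero, mul_one]
          exact ht (n + 1)) ih h1
      simpa only [pow_succ] using h2
  have hpoly : ∀ φ : Polynomial K, Te t (k + 1) (fun n => φ.eval (t (n + 1))) := by
    intro φ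
    induction φ using Polynomial.induction_on' with
    | add p q hp hq =>
      have := hadd _ _ _ hp hq
      simpa only [eval_add] using this
    | monomial j c =>
      have := hmul _ c _ (hpow j)
      simpa only [eval_monomial] using this
  obtain ⟨φ, C, hφ⟩ := ha
  have hr : Te t (k + 1) (fun n => a (n + 1) - φ.eval (t (n + 1))) := by
    refine hsmall (k + 1) (|C| * D ^ k) _ ?_
    intro n
    have e1 : ‖t (n + 1)‖ ^ k ≤ D ^ k * ‖t n‖ ^ (k + 1) := by
      have e2 : ‖t (n + 1)‖ ^ k ≤ (D * ‖t n‖ ^ 2) ^ k :=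
        pow_le_pow_left₀ (norm_nonneg _) (hstep n) k
      have e3 : (D * ‖t n‖ ^ 2) ^ k = D ^ k * ‖t n‖ ^ (2 * k) := by
        rw [mul_pow, ← pow_mul]
      have e4 : ‖t n‖ ^ (2 * k) ≤ ‖t n‖ ^ (k + 1) :=
        pow_le_pow_of_le_one (norm_nonneg _) (ht n) (by omega)
      rw [e3] at e2
      exact e2.trans (mul_le_mul_of_nonneg_left e4 (pow_nonneg hD k))
    calc ‖a (n + 1) - φ.eval (t (n + 1))‖ ≤ C * ‖t (n + 1)‖ ^ k := hφ (n + 1)
      _ ≤ |C| * ‖t (n + 1)‖ ^ k :=
          mul_le_mul_of_nonneg_right (le_abs_self C) (pow_nonneg (norm_nonneg _) k)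
      _ ≤ |C| * (D ^ k * ‖t n‖ ^ (k + 1)) := mul_le_mul_of_nonneg_left e1 (abs_nonneg C)
      _ = |C| * D ^ k * ‖t n‖ ^ (k + 1) := by ring
  have := hadd _ _ _ hr (hpoly φ)
  simpa using this

end Pool.Agent.Q154.EC
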