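import Mathlib

/-!
# Krawtchouk coefficients: recursion, decay and smoothness
-/

namespace Q154.Krawt

open Finset Polynomial

/-- Coefficients of `(1 - X) ^ m * (1 + X) ^ m'`. -/
noncomputable def KK (m m' d : ℕ) : ℤ := (((1 - X) ^ m * (1 + X) ^ m' : ℤ[X])).coeff d

/-- The character attached to `M` evaluated at `z`. -/
def chi (M z : Finset ℕ) : ℤ := ∏ i ∈ M, if i ∈ z then -1 else 1

theorem chi_sq (M z : Finset ℕ) : chi M z * chi M z = 1 := by
  unfold chi
  rw [← Finset.prod_mul_distrib]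
  apply Finset.prod_eq_one
  intro i _
  split_ifs <;> norm_num

theorem chi_symmDiff (M x y : Finset ℕ) : chi M (symmDiff x y) = chi M x * chi M y := by
  unfold chi
  rw [← Finset.prod_mul_distrib]
  apply Finset.prod_congr rfl
  intro i _
  by_cases h1 : i ∈ x <;> by_cases h2 : i ∈ y <;> simp [Finset.mem_symmDiff, h1, h2]

theorem abs_chi (M z : Finset ℕ) : |chi M z| = 1 := by
  have := chi_sq M z
  rcases mul_self_eq_one_iff.1 this with h | h <;> rw [h] <;> simp

theorem chi_comm (M z : Finset ℕ) : chi M z = chi z M := by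
  unfold chi
  rw [← Finset.prod_filter_mul_prod_filter_not M (fun i => i ∈ z),
    ← Finset.prod_filter_mul_prod_filter_not z (fun i => i ∈ M)]
  have h1 : ∏ i ∈ M with ¬ i ∈ z, (if i ∈ z then (-1 : ℤ) else 1) = 1 := by
    apply Finset.prod_eq_one
    intro i hi
    rw [if_neg (Finset.mem_filter.1 hi).2]
  have h2 : ∏ i ∈ z with ¬ i ∈ M, (if i ∈ M then (-1 : ℤ) else 1) = 1 := by
    apply Finset.prod_eq_one
    intro i hi
    rw [if_neg (Finset.mem_filter.1 hi).2]
  rw [h1, h2, mul_one, mul_one]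
  have h3 : (M.filter fun i => i ∈ z) = z.filter fun i => i ∈ M := by
    ext i; rw [Finset.mem_filter, Finset.mem_filter]; tauto
  rw [h3]
  apply Finset.prod_congr rfl
  intro i hi
  rw [Finset.mem_filter] at hi
  rw [if_pos hi.1, if_pos hi.2]

/-- Orthogonality of characters. -/
theorem orth (I z : Finset ℕ) (hz : z ⊆ I) :
    ∑ M ∈ I.powerset, chi M z = if z = ∅ then 2 ^ I.card else 0 := by
  unfold chi
  rw [← Finset.prod_one_add]
  split_ifs with h
  · subst h
    simp
  · obtain ⟨i, hi⟩ := Finset.nonempty_iff_ne_empty.2 h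
    apply Finset.prod_eq_zero (hz hi)
    rw [if_pos hi]; norm_num

/-- The Krawtchouk coefficient as a character sum. -/
theorem sum_chi (I M : Finset ℕ) (hM : M ⊆ I) (d : ℕ) :
    ∑ D ∈ I.powersetCard d, chi M D = KK M.card (I \ M).card d := by
  classical
  have h1 : ((1 - X) ^ M.card * (1 + X) ^ (I \ M).card : ℤ[X]) =
      ∏ i ∈ I, (1 + C (if i ∈ M then (-1 : ℤ) else 1) * X) := by
    rw [← Finset.prod_sdiff hM, mul_comm]
    congr 1
    · rw [Finset.prod_congr rfl (g := fun _ => (1 + X : ℤ[X])), Finset.prod_const]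
      intro i hi
      rw [if_neg (Finset.mem_sdiff.1 hi).2]
      simp
    · rw [Finset.prod_congr rfl (g := fun _ => (1 - X : ℤ[X])), Finset.prod_const]
      intro i hi
      rw [if_pos hi]
      simp
      ring
  unfold KK
  rw [h1, Finset.prod_one_add, Polynomial.finsetSum_coeff]
  have h2 : ∀ t : Finset ℕ, (∏ i ∈ t, (C (if i ∈ M then (-1 : ℤ) else 1) * X : ℤ[X])).coeff d =
      if t.card = d then chi M t else 0 := by
    intro t
    rw [Finset.prod_mul_distrib, Finset.prod_const, ← map_prod, Polynomial.coeff_C_mul,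
      Polynomial.coeff_X_pow, chi_comm]
    unfold chi
    by_cases h : t.card = d
    · rw [if_pos h, if_pos h.symm, mul_one]
    · rw [if_neg h, if_neg (Ne.symm h), mul_zero]
  rw [Finset.sum_congr rfl fun t _ => h2 t, ← Finset.sum_filter, Finset.powersetCard_eq_filter]

theorem KK_abs_le (m m' d : ℕ) : |KK m m' d| ≤ (m + m').choose d := by
  have h := sum_chi (Finset.range (m + m')) (Finset.range m)
    (Finset.range_subset_range.2 (by omega)) d
  have h1 : (Finset.range (m + m') \ Finset.range m).card = m' := by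
    rw [Finset.card_sdiff_of_subset (Finset.range_subset_range.2 (by omega)), Finset.card_range,
      Finset.card_range]
    omega
  rw [Finset.card_range, h1] at h
  rw [← h]
  calc |∑ D ∈ (Finset.range (m + m')).powersetCard d, chi (Finset.range m) D|
      ≤ ∑ D ∈ (Finset.range (m + m')).powersetCard d, |chi (Finset.range m) D| :=
        Finset.abs_sum_le_sum_abs _ _
    _ = _ := by
        rw [Finset.sum_congr rfl fun D _ => abs_chi _ D, Finset.sum_const,
          Finset.card_powersetCard, Finset.card_range]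
        simp

theorem KK_rec (m m' d : ℕ) : KK (m + 1) (m' + 1) (d + 2) = KK m m' (d + 2) - KK m m' d := by
  unfold KK
  have h : ((1 - X) ^ (m + 1) * (1 + X) ^ (m' + 1) : ℤ[X]) =
      (1 - X) ^ m * (1 + X) ^ m' - X ^ 2 * ((1 - X) ^ m * (1 + X) ^ m') := by ring
  rw [h, Polynomial.coeff_sub, Polynomial.coeff_X_pow_mul]

theorem choose_split (n d : ℕ) :
    (n + 2).choose (d + 2) = n.choose (d + 2) + 2 * n.choose (d + 1) + n.choose d := by
  rw [Nat.choose_succ_succ, Nat.choose_succ_succ n d, Nat.choose_succ_succ n (d + 1)]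
  ring

theorem choose_mid (n d : ℕ) (hd : d ≤ n) : (n + 2) * (n + 1) * n.choose (d + 1) =
    (d + 2) * (n - d) * (n + 2).choose (d + 2) := by
  -- (n+2)(n+1) C(n, d+1) = (d+2)(n-d) C(n+2, d+2)
  have h1 : (n + 2).choose (d + 2) * (d + 2) = (n + 2) * (n + 1).choose (d + 1) :=
    (Nat.add_one_mul_choose_eq (n + 1) (d + 1)).symm
  have h2 : (n + 1).choose (d + 1) * (n - d) = (n + 1) * n.choose (d + 1) := by
    have h3 := Nat.choose_mul_succ_eq n (d + 1)
    have h4 : n + 1 - (d + 1) = n - d := by omega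
    rw [h4] at h3
    rw [← h3]; ring
  calc (n + 2) * (n + 1) * n.choose (d + 1) = (n + 2) * ((n + 1) * n.choose (d + 1)) := by ring
    _ = (n + 2) * ((n + 1).choose (d + 1) * (n - d)) := by rw [h2]
    _ = ((n + 2) * (n + 1).choose (d + 1)) * (n - d) := by ring
    _ = _ := by rw [← h1]; ring

/-- Exponential decay of the normalised coefficients. -/
theorem decay (L : ℕ) : ∀ m m' d : ℕ, L ≤ m → L ≤ m' → m + m' + 8 * L ≤ 4 * d →
    m + m' + 16 * L + 8 * d ≤ 8 * (m + m') →
    |KK m m' d| * 8 ^ L ≤ 7 ^ L * ((m + m').choose d : ℤ) := by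
  induction L with
  | zero =>
    intro m m' d _ _ _ _
    simpa using KK_abs_le m m' d
  | succ L ih =>
    intro m m' d hm hm' h1 h2
    obtain ⟨m, rfl⟩ : ∃ a, m = a + 1 := ⟨m - 1, by omega⟩
    obtain ⟨m', rfl⟩ : ∃ a, m' = a + 1 := ⟨m' - 1, by omega⟩
    obtain ⟨d, rfl⟩ : ∃ a, d = a + 2 := ⟨d - 2, by omega⟩
    have e1 := ih m m' (d + 2) (by omega) (by omega) (by omega) (by omega)
    have e2 := ih m m' d (by omega) (by omega) (by omega) (by omega)
    rw [KK_rec]
    have e3 : m + 1 + (m' + 1) = m + m' + 2 := by ring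
    rw [e3]
    set n := m + m' with hn
    have hs := choose_split n d
    have hmid := choose_mid n d (by omega)
    -- 16 C(n, d+1) ≥ C(n+2, d+2)
    have hkey : (n + 2).choose (d + 2) ≤ 16 * n.choose (d + 1) := by
      have h3 : (n + 2) * (n + 1) ≤ 16 * ((d + 2) * (n - d)) := by
        obtain ⟨k, hk⟩ : ∃ k, n = d + k := ⟨n - d, by omega⟩
        have : n - d = k := by omega
        rw [this, hk]
        rcases le_total (2 * (d + 2)) (d + k + 2) with h | h
        · nlinarith
        · nlinarith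
      have h4 : 0 < (n + 2) * (n + 1) := by positivity
      have h5 : (n + 2) * (n + 1) * (n + 2).choose (d + 2) ≤
          (n + 2) * (n + 1) * (16 * n.choose (d + 1)) := by
        calc (n + 2) * (n + 1) * (n + 2).choose (d + 2)
            ≤ 16 * ((d + 2) * (n - d)) * (n + 2).choose (d + 2) := by gcongr
          _ = 16 * ((d + 2) * (n - d) * (n + 2).choose (d + 2)) := by ring
          _ = (n + 2) * (n + 1) * (16 * n.choose (d + 1)) := by rw [← hmid]; ring
      exact Nat.le_of_mul_le_mul_left h5 h4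
    have h6 : |KK m m' (d + 2) - KK m m' d| ≤ |KK m m' (d + 2)| + |KK m m' d| := abs_sub _ _
    have h7 : ((n.choose (d + 2) : ℕ) : ℤ) + n.choose d ≤ (n + 2).choose (d + 2) * 7 / 8 := by
      have : 8 * (n.choose (d + 2) + n.choose d) ≤ 7 * (n + 2).choose (d + 2) := by omega
      omega
    have h8 : 8 * (((n.choose (d + 2) : ℕ) : ℤ) + n.choose d) ≤ 7 * (n + 2).choose (d + 2) := by
      omega
    have h9 : (0 : ℤ) < 8 ^ L := by positivity
    have h10 : (0 : ℤ) < 7 ^ L := by positivity
    calc |KK m m' (d + 2) - KK m m' d| * 8 ^ (L + 1)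
        ≤ (|KK m m' (d + 2)| + |KK m m' d|) * 8 ^ (L + 1) := by gcongr
      _ = 8 * (|KK m m' (d + 2)| * 8 ^ L + |KK m m' d| * 8 ^ L) := by ring
      _ ≤ 8 * (7 ^ L * (n.choose (d + 2) : ℤ) + 7 ^ L * (n.choose d : ℤ)) := by gcongr
      _ = 7 ^ L * (8 * (((n.choose (d + 2) : ℕ) : ℤ) + n.choose d)) := by ring
      _ ≤ 7 ^ L * (7 * (n + 2).choose (d + 2)) := by gcongr
      _ = 7 ^ (L + 1) * ((n + 2).choose (d + 2) : ℤ) := by ring

/-- The difference equation in the distance variable. -/
theorem diff_eq (m m' e : ℕ) :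
    ((e : ℤ) + 2) * (e + 1) * KK (m + 1) (m' + 1) (e + 2) -
      ((m : ℤ) + m' + 2 - e) * (m + m' + 1 - e) * KK (m + 1) (m' + 1) e =
      -4 * (m + 1) * (m' + 1) * KK m m' e := by
  obtain ⟨A, hA⟩ : ∃ A : ℤ[X], A = (1 - X) ^ m := ⟨_, rfl⟩
  obtain ⟨B, hB⟩ : ∃ B : ℤ[X], B = (1 + X) ^ m' := ⟨_, rfl⟩
  obtain ⟨P, hP⟩ : ∃ P : ℤ[X], P = (1 - X) ^ (m + 1) * (1 + X) ^ (m' + 1) := ⟨_, rfl⟩
  have hPAB : P = (1 - X) * (1 + X) * A * B := by rw [hP, hA, hB]; ring
  have hA' : (1 - X) * derivative A = -(m : ℤ[X]) * A := by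
    rw [hA]
    rcases Nat.eq_zero_or_pos m with h | h
    · subst h; simp
    · rw [derivative_pow]
      simp only [derivative_sub, derivative_one, derivative_X]
      obtain ⟨k, rfl⟩ : ∃ k, m = k + 1 := ⟨m - 1, by omega⟩
      simp only [Nat.add_sub_cancel]
      rw [pow_succ (1 - X) k]
      push_cast
      simp only [map_add, map_natCast, map_one]
      ring
  have hB' : (1 + X) * derivative B = (m' : ℤ[X]) * B := by
    rw [hB]
    rcases Nat.eq_zero_or_pos m' with h | h
    · subst h; simp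
    · rw [derivative_pow]
      simp only [derivative_add, derivative_one, derivative_X]
      obtain ⟨k, rfl⟩ : ∃ k, m' = k + 1 := ⟨m' - 1, by omega⟩
      simp only [Nat.add_sub_cancel]
      rw [pow_succ (1 + X) k]
      push_cast
      simp only [map_add, map_natCast, map_one]
      ring
  have hP' : derivative P = A * B * (((m' : ℤ[X]) + 1) * (1 - X) - ((m : ℤ[X]) + 1) * (1 + X)) := by
    rw [hPAB]
    simp only [derivative_mul, derivative_sub, derivative_add, derivative_one, derivative_X]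
    linear_combination (1 + X) * B * hA' + (1 - X) * A * hB'
  have hP'' : (1 - X) * (1 + X) * derivative (derivative P) =
      A * B * ((-(m : ℤ[X]) * (1 + X) + (m' : ℤ[X]) * (1 - X)) *
        (((m' : ℤ[X]) + 1) * (1 - X) - ((m : ℤ[X]) + 1) * (1 + X)) -
        ((m : ℤ[X]) + (m' : ℤ[X]) + 2) * ((1 - X) * (1 + X))) := by
    rw [hP']
    simp only [derivative_mul, derivative_sub, derivative_add, derivative_one, derivative_X,
      derivative_natCast]
    linear_combination ((1 + X) * B * (((m' : ℤ[X]) + 1) * (1 - X) - ((m : ℤ[X]) + 1) * (1 + X))) *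
      hA' + ((1 - X) * A * (((m' : ℤ[X]) + 1) * (1 - X) - ((m : ℤ[X]) + 1) * (1 + X))) * hB'
  have hmain : derivative (derivative P) -
      (X * derivative (X * derivative P) - X * derivative P) +
      2 * ((m : ℤ[X]) + (m' : ℤ[X]) + 1) * (X * derivative P) -
      ((m : ℤ[X]) + (m' : ℤ[X]) + 2) * ((m : ℤ[X]) + (m' : ℤ[X]) + 1) * P =
      -4 * ((m : ℤ[X]) + 1) * ((m' : ℤ[X]) + 1) * (A * B) := by
    have h1 : derivative (derivative P) - (X * derivative (X * derivative P) - X * derivative P) =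
        (1 - X) * (1 + X) * derivative (derivative P) := by
      rw [derivative_mul, derivative_X]; ring
    rw [h1, hP'', hP', hPAB]
    ring
  have hcoef := congrArg (fun p : ℤ[X] => p.coeff e) hmain
  have hX : ∀ p : ℤ[X], (X * derivative p).coeff e = e * p.coeff e := by
    intro p
    rcases Nat.eq_zero_or_pos e with h | h
    · subst h; simp
    · obtain ⟨k, rfl⟩ : ∃ k, e = k + 1 := ⟨e - 1, by omega⟩
      rw [Polynomial.coeff_X_mul, Polynomial.coeff_derivative]
      push_cast; ring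
  have e1 : (-4 * ((m : ℤ[X]) + 1) * ((m' : ℤ[X]) + 1) * (A * B)).coeff e =
      -4 * (m + 1) * (m' + 1) * KK m m' e := by
    have : (-4 * ((m : ℤ[X]) + 1) * ((m' : ℤ[X]) + 1) * (A * B)) =
        C (-4 * ((m : ℤ) + 1) * (m' + 1)) * (A * B) := by
      simp
    rw [this, Polynomial.coeff_C_mul, hA, hB]
    rfl
  have e2 : (2 * ((m : ℤ[X]) + (m' : ℤ[X]) + 1) * (X * derivative P)).coeff e =
      2 * ((m : ℤ) + m' + 1) * (e * P.coeff e) := by
    have : (2 * ((m : ℤ[X]) + (m' : ℤ[X]) + 1) * (X * derivative P)) =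
        C (2 * ((m : ℤ) + m' + 1)) * (X * derivative P) := by
      simp
    rw [this, Polynomial.coeff_C_mul, hX]
  have e3 : (((m : ℤ[X]) + (m' : ℤ[X]) + 2) * ((m : ℤ[X]) + (m' : ℤ[X]) + 1) * P).coeff e =
      ((m : ℤ) + m' + 2) * (m + m' + 1) * P.coeff e := by
    have : (((m : ℤ[X]) + (m' : ℤ[X]) + 2) * ((m : ℤ[X]) + (m' : ℤ[X]) + 1) * P) =
        C (((m : ℤ) + m' + 2) * (m + m' + 1)) * P := by
      simp
    rw [this, Polynomial.coeff_C_mul]
  have e4 : (derivative (derivative P)).coeff e = (e + 2) * (e + 1) * P.coeff (e + 2) := by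
    rw [Polynomial.coeff_derivative, Polynomial.coeff_derivative]
    push_cast; ring
  rw [Polynomial.coeff_sub, Polynomial.coeff_add, Polynomial.coeff_sub, Polynomial.coeff_sub, e1,
    e2, e3, e4, hX, hX] at hcoef
  have e5 : KK (m + 1) (m' + 1) (e + 2) = P.coeff (e + 2) := by rw [hP]; rfl
  have e6 : KK (m + 1) (m' + 1) e = P.coeff e := by rw [hP]; rfl
  rw [e5, e6]
  linear_combination hcoef

end Q154.Krawt
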