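import Mathlib

/-!
# Reverse hypercontractivity for families of sets, and Krawtchouk coefficients
-/

namespace Q154.RevHyp

open Finset Polynomial

/-- The weighted number of pairs. -/
def Q (I : Finset ℕ) (𝒜 ℬ : Finset (Finset ℕ)) : ℕ :=
  ∑ x ∈ 𝒜, ∑ y ∈ ℬ, 3 ^ (I \ symmDiff x y).card

theorem two_point (a b c d : ℕ) :
    (a + b) ^ 2 * (c + d) ^ 2 ≤
      2 * (3 * (a ^ 2 * c ^ 2) + a ^ 2 * d ^ 2 + (b ^ 2 * c ^ 2 + 3 * (b ^ 2 * d ^ 2))) := by
  zify
  nlinarith [sq_nonneg ((a : ℤ) * c + b * d - a * d - b * c), sq_nonneg ((a : ℤ) * c - b * d)]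

theorem Q_split (I : Finset ℕ) (a : ℕ) (ha : a ∉ I) (𝒜 ℬ : Finset (Finset ℕ))
    (hA : 𝒜 ⊆ (insert a I).powerset) (hB : ℬ ⊆ (insert a I).powerset) :
    Q (insert a I) 𝒜 ℬ =
      3 * Q I (𝒜.nonMemberSubfamily a) (ℬ.nonMemberSubfamily a) +
      Q I (𝒜.nonMemberSubfamily a) (ℬ.memberSubfamily a) +
      (Q I (𝒜.memberSubfamily a) (ℬ.nonMemberSubfamily a) +
      3 * Q I (𝒜.memberSubfamily a) (ℬ.memberSubfamily a)) := by
  classical
  have hsplit : ∀ (𝒞 : Finset (Finset ℕ)) (f : Finset ℕ → ℕ),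
      ∑ x ∈ 𝒞, f x = ∑ x ∈ 𝒞.nonMemberSubfamily a, f x +
        ∑ x ∈ 𝒞.memberSubfamily a, f (insert a x) := by
    intro 𝒞 f
    rw [← Finset.sum_filter_add_sum_filter_not 𝒞 (fun x => a ∉ x)]
    congr 1
    have h1 : (𝒞.filter fun x => ¬ a ∉ x) = (𝒞.memberSubfamily a).image (insert a) := by
      ext x
      rw [Finset.mem_filter, Finset.mem_image]
      constructor
      · rintro ⟨hx, hax⟩
        rw [not_not] at hax
        refine ⟨x.erase a, ?_, Finset.insert_erase hax⟩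
        rw [Finset.mem_memberSubfamily, Finset.insert_erase hax]
        exact ⟨hx, Finset.notMem_erase a x⟩
      · rintro ⟨y, hy, rfl⟩
        rw [Finset.mem_memberSubfamily] at hy
        exact ⟨hy.1, by simp⟩
    rw [h1, Finset.sum_image]
    intro x hx y hy hxy
    rw [Finset.mem_coe, Finset.mem_memberSubfamily] at hx hy
    rw [← Finset.erase_insert hx.2, ← Finset.erase_insert hy.2, hxy]
  have hsub0 : ∀ 𝒞 : Finset (Finset ℕ), ∀ x ∈ 𝒞.nonMemberSubfamily a, a ∉ x :=
    fun 𝒞 x hx => (Finset.mem_nonMemberSubfamily.1 hx).2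
  have hsub1 : ∀ 𝒞 : Finset (Finset ℕ), ∀ x ∈ 𝒞.memberSubfamily a, a ∉ x :=
    fun 𝒞 x hx => (Finset.mem_memberSubfamily.1 hx).2
  have e1 : ∀ x y : Finset ℕ, a ∉ x → a ∉ y →
      ((insert a I) \ symmDiff x y).card = (I \ symmDiff x y).card + 1 := by
    intro x y hx hy
    have h2 : a ∉ symmDiff x y := by
      rw [Finset.mem_symmDiff]; tauto
    rw [Finset.insert_sdiff_of_notMem _ h2, Finset.card_insert_of_notMem]
    exact fun h => ha (Finset.mem_sdiff.1 h).1
  have e2 : ∀ x y : Finset ℕ, a ∉ x → a ∉ y →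
      (insert a I) \ symmDiff x (insert a y) = I \ symmDiff x y := by
    intro x y hx hy
    ext i
    simp only [Finset.mem_sdiff, Finset.mem_insert, Finset.mem_symmDiff]
    by_cases hi : i = a
    · subst hi; simp [hx, ha]
    · simp [hi]
  have e3 : ∀ x y : Finset ℕ, a ∉ x → a ∉ y →
      (insert a I) \ symmDiff (insert a x) y = I \ symmDiff x y := by
    intro x y hx hy
    rw [symmDiff_comm, e2 y x hy hx, symmDiff_comm]
  have e4 : ∀ x y : Finset ℕ, a ∉ x → a ∉ y →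
      symmDiff (insert a x) (insert a y) = symmDiff x y := by
    intro x y hx hy
    ext i
    simp only [Finset.mem_insert, Finset.mem_symmDiff]
    by_cases hi : i = a
    · subst hi; simp [hx, hy]
    · simp [hi]
  unfold Q
  rw [hsplit 𝒜]
  simp_rw [hsplit ℬ]
  rw [Finset.sum_add_distrib, Finset.sum_add_distrib]
  congr 1
  · congr 1
    · rw [Finset.mul_sum]
      apply Finset.sum_congr rfl
      intro x hx
      rw [Finset.mul_sum]
      apply Finset.sum_congr rfl
      intro y hy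
      rw [e1 x y (hsub0 _ x hx) (hsub0 _ y hy), pow_succ]
      ring
    · apply Finset.sum_congr rfl
      intro x hx
      apply Finset.sum_congr rfl
      intro y hy
      rw [e2 x y (hsub0 _ x hx) (hsub1 _ y hy)]
  · congr 1
    · apply Finset.sum_congr rfl
      intro x hx
      apply Finset.sum_congr rfl
      intro y hy
      rw [e3 x y (hsub1 _ x hx) (hsub0 _ y hy)]
    · rw [Finset.mul_sum]
      apply Finset.sum_congr rfl
      intro x hx
      rw [Finset.mul_sum]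
      apply Finset.sum_congr rfl
      intro y hy
      rw [e4 x y (hsub1 _ x hx) (hsub1 _ y hy), e1 x y (hsub1 _ x hx) (hsub1 _ y hy), pow_succ]
      ring

/-- Reverse hypercontractivity for set families. -/
theorem rev_hyp (I : Finset ℕ) : ∀ 𝒜 ℬ : Finset (Finset ℕ), 𝒜 ⊆ I.powerset → ℬ ⊆ I.powerset →
    𝒜.card ^ 2 * ℬ.card ^ 2 ≤ 2 ^ I.card * Q I 𝒜 ℬ := by
  classical
  induction I using Finset.induction_on with
  | empty =>
    intro 𝒜 ℬ hA hB
    unfold Q
    have h1 : 𝒜.card ≤ 1 := (Finset.card_le_card hA).trans (by simp)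
    have h2 : ℬ.card ≤ 1 := (Finset.card_le_card hB).trans (by simp)
    have h3 : ∑ x ∈ 𝒜, ∑ y ∈ ℬ, 3 ^ ((∅ : Finset ℕ) \ symmDiff x y).card = 𝒜.card * ℬ.card := by
      simp
    rw [h3, Finset.card_empty, pow_zero, one_mul]
    nlinarith [Nat.zero_le 𝒜.card, Nat.zero_le ℬ.card, Nat.mul_le_mul h1 h2,
      Nat.zero_le (𝒜.card * ℬ.card)]
  | insert a I ha ih =>
    intro 𝒜 ℬ hA hB
    have hsub : ∀ 𝒞 : Finset (Finset ℕ), 𝒞 ⊆ (insert a I).powerset →
        𝒞.nonMemberSubfamily a ⊆ I.powerset ∧ 𝒞.memberSubfamily a ⊆ I.powerset := by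
      intro 𝒞 hC
      constructor
      · intro x hx
        rw [Finset.mem_nonMemberSubfamily] at hx
        have := Finset.mem_powerset.1 (hC hx.1)
        rw [Finset.mem_powerset]
        exact (Finset.subset_insert_iff_of_notMem hx.2).1 this
      · intro x hx
        rw [Finset.mem_memberSubfamily] at hx
        have := Finset.mem_powerset.1 (hC hx.1)
        rw [Finset.mem_powerset]
        exact (Finset.subset_insert_iff_of_notMem hx.2).1 ((Finset.subset_insert a x).trans this)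
    obtain ⟨hA0, hA1⟩ := hsub 𝒜 hA
    obtain ⟨hB0, hB1⟩ := hsub ℬ hB
    rw [Q_split I a ha 𝒜 ℬ hA hB, Finset.card_insert_of_notMem ha]
    have hcA := Finset.card_memberSubfamily_add_card_nonMemberSubfamily a 𝒜
    have hcB := Finset.card_memberSubfamily_add_card_nonMemberSubfamily a ℬ
    have h1 := ih _ _ hA0 hB0
    have h2 := ih _ _ hA0 hB1
    have h3 := ih _ _ hA1 hB0
    have h4 := ih _ _ hA1 hB1
    have h5 := two_point (𝒜.nonMemberSubfamily a).card (𝒜.memberSubfamily a).card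
      (ℬ.nonMemberSubfamily a).card (ℬ.memberSubfamily a).card
    rw [← hcA, ← hcB, add_comm (𝒜.memberSubfamily a).card, add_comm (ℬ.memberSubfamily a).card]
    refine h5.trans ?_
    generalize Q I (𝒜.nonMemberSubfamily a) (ℬ.nonMemberSubfamily a) = q1 at h1 ⊢
    generalize Q I (𝒜.nonMemberSubfamily a) (ℬ.memberSubfamily a) = q2 at h2 ⊢
    generalize Q I (𝒜.memberSubfamily a) (ℬ.nonMemberSubfamily a) = q3 at h3 ⊢
    generalize Q I (𝒜.memberSubfamily a) (ℬ.memberSubfamily a) = q4 at h4 ⊢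
    calc _ ≤ 2 * (3 * (2 ^ I.card * q1) + 2 ^ I.card * q2 +
          (2 ^ I.card * q3 + 3 * (2 ^ I.card * q4))) := by gcongr
      _ = 2 ^ (I.card + 1) * (3 * q1 + q2 + (q3 + 3 * q4)) := by ring

/-- Reverse hypercontractivity for pairs within one family, at large distance. -/
theorem rev_hyp_far (I : Finset ℕ) (𝒜 : Finset (Finset ℕ)) (hA : 𝒜 ⊆ I.powerset) :
    𝒜.card ^ 4 ≤ 2 ^ I.card * ∑ x ∈ 𝒜, ∑ y ∈ 𝒜, 3 ^ (symmDiff x y).card := by
  classical
  set ℬ := 𝒜.image fun y => I \ y with hℬ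
  have hinj : Set.InjOn (fun y => I \ y) (𝒜 : Set (Finset ℕ)) := by
    intro x hx y hy hxy
    have hx' := Finset.mem_powerset.1 (hA hx)
    have hy' := Finset.mem_powerset.1 (hA hy)
    simp only at hxy
    rw [← Finset.sdiff_sdiff_eq_self hx', ← Finset.sdiff_sdiff_eq_self hy', hxy]
  have hBcard : ℬ.card = 𝒜.card := Finset.card_image_of_injOn hinj
  have hB : ℬ ⊆ I.powerset := by
    intro z hz
    rw [hℬ, Finset.mem_image] at hz
    obtain ⟨y, -, rfl⟩ := hz
    rw [Finset.mem_powerset]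
    exact Finset.sdiff_subset
  have h1 := rev_hyp I 𝒜 ℬ hA hB
  rw [hBcard] at h1
  have h2 : Q I 𝒜 ℬ = ∑ x ∈ 𝒜, ∑ y ∈ 𝒜, 3 ^ (symmDiff x y).card := by
    unfold Q
    apply Finset.sum_congr rfl
    intro x hx
    rw [hℬ, Finset.sum_image hinj]
    apply Finset.sum_congr rfl
    intro y hy
    have hx' := Finset.mem_powerset.1 (hA hx)
    have hy' := Finset.mem_powerset.1 (hA hy)
    congr 2
    ext i
    simp only [Finset.mem_sdiff, Finset.mem_symmDiff]
    have h3 : i ∈ x → i ∈ I := fun h => hx' h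
    have h4 : i ∈ y → i ∈ I := fun h => hy' h
    tauto
  rw [h2] at h1
  calc 𝒜.card ^ 4 = 𝒜.card ^ 2 * 𝒜.card ^ 2 := by ring
    _ ≤ _ := h1

end Q154.RevHyp
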