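import Mathlib
import Pool.Agent.Q154.RevHyp
import Pool.Agent.Q154.Krawt

/-!
# Dense families of sets contain two members at an exact large distance
-/

namespace Q154.ExactDist

open Finset Q154.RevHyp Q154.Krawt

/-- Normalised coefficient. -/
noncomputable def kap (m m' d : ℕ) : ℝ := (KK m m' d : ℝ) / ((m + m').choose d : ℝ)

/-- Number of ordered pairs at distance `d`. -/
def Nd (𝒜 : Finset (Finset ℕ)) (d : ℕ) : ℕ :=
  ((𝒜 ×ˢ 𝒜).filter fun p => (symmDiff p.1 p.2).card = d).card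

/-- Unnormalised Fourier coefficient. -/
def four (𝒜 : Finset (Finset ℕ)) (M : Finset ℕ) : ℤ := ∑ x ∈ 𝒜, chi M x

theorem parseval (I : Finset ℕ) (𝒜 : Finset (Finset ℕ)) (hA : 𝒜 ⊆ I.powerset) :
    ∑ M ∈ I.powerset, four 𝒜 M ^ 2 = 2 ^ I.card * (𝒜.card : ℤ) := by
  classical
  have h1 : ∀ M ∈ I.powerset, four 𝒜 M ^ 2 = ∑ x ∈ 𝒜, ∑ y ∈ 𝒜, chi M (symmDiff x y) := by
    intro M _
    unfold four
    rw [sq, Finset.sum_mul_sum]
    apply Finset.sum_congr rfl
    intro x _
    apply Finset.sum_congr rfl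
    intro y _
    rw [chi_symmDiff]
  rw [Finset.sum_congr rfl h1, Finset.sum_comm]
  have h2 : ∀ x ∈ 𝒜, ∑ M ∈ I.powerset, ∑ y ∈ 𝒜, chi M (symmDiff x y) = 2 ^ I.card := by
    intro x hx
    rw [Finset.sum_comm]
    have h3 : ∀ y ∈ 𝒜, ∑ M ∈ I.powerset, chi M (symmDiff x y) =
        if x = y then 2 ^ I.card else 0 := by
      intro y hy
      have hx' := Finset.mem_powerset.1 (hA hx)
      have hy' := Finset.mem_powerset.1 (hA hy)
      rw [orth I _ (by
        intro i hi
        rw [Finset.mem_symmDiff] at hi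
        rcases hi with hi | hi
        · exact hx' hi.1
        · exact hy' hi.1)]
      have : symmDiff x y = ∅ ↔ x = y := symmDiff_eq_bot
      simp only [this]
    rw [Finset.sum_congr rfl h3, Finset.sum_ite_eq, if_pos hx]
  rw [Finset.sum_congr rfl h2, Finset.sum_const, nsmul_eq_mul]
  ring

theorem Nd_four (I : Finset ℕ) (𝒜 : Finset (Finset ℕ)) (hA : 𝒜 ⊆ I.powerset) (d : ℕ) :
    2 ^ I.card * (Nd 𝒜 d : ℤ) =
      ∑ M ∈ I.powerset, KK M.card (I \ M).card d * four 𝒜 M ^ 2 := by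
  classical
  have h1 : ∀ M ∈ I.powerset, KK M.card (I \ M).card d * four 𝒜 M ^ 2 =
      ∑ p ∈ 𝒜 ×ˢ 𝒜, ∑ D ∈ I.powersetCard d, chi M (symmDiff D (symmDiff p.1 p.2)) := by
    intro M hM
    rw [← sum_chi I M (Finset.mem_powerset.1 hM)]
    have h2 : four 𝒜 M ^ 2 = ∑ p ∈ 𝒜 ×ˢ 𝒜, chi M (symmDiff p.1 p.2) := by
      unfold four
      rw [sq, Finset.sum_mul_sum, Finset.sum_product]
      apply Finset.sum_congr rfl
      intro x _
      apply Finset.sum_congr rfl
      intro y _
      rw [chi_symmDiff]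
    rw [h2, Finset.sum_mul_sum, Finset.sum_comm]
    apply Finset.sum_congr rfl
    intro p _
    apply Finset.sum_congr rfl
    intro D _
    rw [chi_symmDiff M D]
  rw [Finset.sum_congr rfl h1, Finset.sum_comm]
  have h3 : ∀ p ∈ 𝒜 ×ˢ 𝒜, ∑ M ∈ I.powerset, ∑ D ∈ I.powersetCard d,
      chi M (symmDiff D (symmDiff p.1 p.2)) =
      if (symmDiff p.1 p.2).card = d then 2 ^ I.card else 0 := by
    intro p hp
    rw [Finset.mem_product] at hp
    have hz : symmDiff p.1 p.2 ⊆ I := by
      have hx' := Finset.mem_powerset.1 (hA hp.1)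
      have hy' := Finset.mem_powerset.1 (hA hp.2)
      intro i hi
      rw [Finset.mem_symmDiff] at hi
      rcases hi with hi | hi
      · exact hx' hi.1
      · exact hy' hi.1
    rw [Finset.sum_comm]
    have h4 : ∀ D ∈ I.powersetCard d, ∑ M ∈ I.powerset,
        chi M (symmDiff D (symmDiff p.1 p.2)) =
        if D = symmDiff p.1 p.2 then 2 ^ I.card else 0 := by
      intro D hD
      have hD' := (Finset.mem_powersetCard.1 hD).1
      rw [orth I _ (by
        intro i hi
        rw [Finset.mem_symmDiff] at hi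
        rcases hi with hi | hi
        · exact hD' hi.1
        · exact hz hi.1)]
      have : symmDiff D (symmDiff p.1 p.2) = ∅ ↔ D = symmDiff p.1 p.2 := symmDiff_eq_bot
      simp only [this]
    rw [Finset.sum_congr rfl h4, Finset.sum_ite_eq']
    simp only [Finset.mem_powersetCard, hz, true_and]
  rw [Finset.sum_congr rfl h3, ← Finset.sum_filter, Finset.sum_const, nsmul_eq_mul]
  unfold Nd
  ring

theorem kap_abs_le (m m' d : ℕ) : |kap m m' d| ≤ 1 := by
  unfold kap
  rw [abs_div, Nat.abs_cast]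
  apply div_le_one_of_le₀ _ (Nat.cast_nonneg _)
  have := KK_abs_le m m' d
  have h2 : ((|KK m m' d| : ℤ) : ℝ) ≤ (((m + m').choose d : ℕ) : ℝ) := by exact_mod_cast this
  rwa [Int.cast_abs] at h2

/-- Decay of the normalised coefficient. -/
theorem kap_decay (L m m' d : ℕ) (h1 : L ≤ m) (h2 : L ≤ m') (h3 : m + m' + 8 * L ≤ 4 * d)
    (h4 : m + m' + 16 * L + 8 * d ≤ 8 * (m + m')) : |kap m m' d| ≤ (7 / 8) ^ L := by
  unfold kap
  have h5 := decay L m m' d h1 h2 h3 h4
  have hc : (0 : ℝ) < ((m + m').choose d : ℝ) := by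
    exact_mod_cast Nat.choose_pos (by omega)
  rw [abs_div, Nat.abs_cast, div_le_iff₀ hc, div_pow, div_mul_eq_mul_div,
    le_div_iff₀ (by positivity)]
  have h6 : ((|KK m m' d| * 8 ^ L : ℤ) : ℝ) ≤ ((7 ^ L * ((m + m').choose d : ℤ) : ℤ) : ℝ) := by
    exact_mod_cast h5
  push_cast at h6
  exact h6

/-- One step of smoothness. -/
theorem kap_step (m m' e : ℕ) (he : e + 2 ≤ m + m') :
    |kap m m' (e + 2) - kap m m' e| ≤
      4 * ((m : ℝ) * m') / (((m : ℝ) + m') * ((m : ℝ) + m' - 1)) := by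
  -- identities between binomial coefficients
  have hid1 : ∀ n e : ℕ, e + 2 ≤ n + 2 → (e + 2) * (e + 1) * (n + 2).choose (e + 2) =
      (n + 2) * (n + 1) * n.choose e := by
    intro n e _
    have h1 : (n + 2).choose (e + 2) * (e + 2) = (n + 2) * (n + 1).choose (e + 1) :=
      (Nat.add_one_mul_choose_eq (n + 1) (e + 1)).symm
    have h2 : (n + 1).choose (e + 1) * (e + 1) = (n + 1) * n.choose e :=
      (Nat.add_one_mul_choose_eq n e).symm
    calc (e + 2) * (e + 1) * (n + 2).choose (e + 2)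
        = (e + 1) * ((n + 2).choose (e + 2) * (e + 2)) := by ring
      _ = (n + 2) * ((n + 1).choose (e + 1) * (e + 1)) := by rw [h1]; ring
      _ = _ := by rw [h2]; ring
  have hid2 : ∀ n e : ℕ, e ≤ n → ((n : ℝ) + 2 - e) * (n + 1 - e) * ((n + 2).choose e : ℝ) =
      (n + 2) * (n + 1) * (n.choose e : ℝ) := by
    intro n e hen
    have h1 := Nat.choose_mul_succ_eq (n + 1) e
    have h2 := Nat.choose_mul_succ_eq n e
    have h1' : (((n + 1).choose e : ℕ) : ℝ) * (n + 2) = ((n + 2).choose e : ℝ) * (n + 2 - e) := by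
      have : ((((n + 1).choose e * (n + 1 + 1) : ℕ)) : ℝ) =
          (((n + 1 + 1).choose e * (n + 1 + 1 - e) : ℕ) : ℝ) := by exact_mod_cast h1
      push_cast [Nat.cast_sub (show e ≤ n + 1 + 1 by omega)] at this
      have e1 : n + 1 + 1 = n + 2 := rfl
      rw [e1] at this
      linarith
    have h2' : ((n.choose e : ℕ) : ℝ) * (n + 1) = ((n + 1).choose e : ℝ) * (n + 1 - e) := by
      have : (((n.choose e * (n + 1) : ℕ)) : ℝ) =
          (((n + 1).choose e * (n + 1 - e) : ℕ) : ℝ) := by exact_mod_cast h2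
      push_cast [Nat.cast_sub (show e ≤ n + 1 by omega)] at this
      linarith
    calc ((n : ℝ) + 2 - e) * (n + 1 - e) * ((n + 2).choose e : ℝ)
        = (n + 1 - e) * (((n + 2).choose e : ℝ) * (n + 2 - e)) := by ring
      _ = (n + 2) * (((n + 1).choose e : ℝ) * (n + 1 - e)) := by rw [← h1']; ring
      _ = _ := by rw [← h2']; ring
  rcases Nat.eq_zero_or_pos m with hm | hm
  · -- no sign changes
    subst hm
    have h0 : ∀ d, d ≤ 0 + m' → kap 0 m' d = 1 := by
      intro d hd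
      unfold kap KK
      rw [pow_zero, one_mul, Polynomial.coeff_one_add_X_pow]
      have : (0 : ℝ) < ((0 + m').choose d : ℝ) := by exact_mod_cast Nat.choose_pos hd
      rw [zero_add] at this ⊢
      push_cast
      field_simp
    rw [h0 _ he, h0 _ (by omega)]
    simp
  rcases Nat.eq_zero_or_pos m' with hm' | hm'
  · subst hm'
    have h0 : ∀ d, d ≤ m + 0 → kap m 0 d = (-1) ^ d := by
      intro d hd
      have h1 : KK m 0 d = (-1) ^ d * (m.choose d : ℤ) := by
        have h2 := sum_chi (Finset.range m) (Finset.range m) (Finset.Subset.refl _) d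
        rw [Finset.sdiff_self, Finset.card_empty, Finset.card_range] at h2
        rw [← h2]
        have h3 : ∀ D ∈ (Finset.range m).powersetCard d, chi (Finset.range m) D = (-1) ^ d := by
          intro D hD
          rw [Finset.mem_powersetCard] at hD
          rw [chi_comm]
          unfold chi
          rw [Finset.prod_congr rfl (g := fun _ => (-1 : ℤ)), Finset.prod_const, hD.2]
          intro i hi
          rw [if_pos (hD.1 hi)]
        rw [Finset.sum_congr rfl h3, Finset.sum_const, Finset.card_powersetCard,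
          Finset.card_range, nsmul_eq_mul]
        ring
      unfold kap
      rw [h1]
      have : (0 : ℝ) < ((m + 0).choose d : ℝ) := by exact_mod_cast Nat.choose_pos hd
      rw [add_zero] at this ⊢
      push_cast
      field_simp
    rw [h0 _ he, h0 _ (by omega), pow_add]
    simp
  obtain ⟨m, rfl⟩ : ∃ a, m = a + 1 := ⟨m - 1, by omega⟩
  obtain ⟨m', rfl⟩ : ∃ a, m' = a + 1 := ⟨m' - 1, by omega⟩
  have hde := diff_eq m m' e
  set n := m + m' with hn
  have hnn : m + 1 + (m' + 1) = n + 2 := by omega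
  have hen : e ≤ n := by omega
  have hc0 : (0 : ℝ) < (n.choose e : ℝ) := by exact_mod_cast Nat.choose_pos hen
  have hc1 : (0 : ℝ) < ((n + 2).choose (e + 2) : ℝ) := by
    exact_mod_cast Nat.choose_pos (by omega)
  have hc2 : (0 : ℝ) < ((n + 2).choose e : ℝ) := by exact_mod_cast Nat.choose_pos (by omega)
  have hA := hid1 n e (by omega)
  have hA' : ((e : ℝ) + 2) * (e + 1) * ((n + 2).choose (e + 2) : ℝ) =
      (n + 2) * (n + 1) * (n.choose e : ℝ) := by exact_mod_cast hA
  have hB' := hid2 n e hen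
  have hde' : ((e : ℝ) + 2) * (e + 1) * KK (m + 1) (m' + 1) (e + 2) -
      ((n : ℝ) + 2 - e) * (n + 1 - e) * KK (m + 1) (m' + 1) e =
      -4 * (m + 1) * (m' + 1) * KK m m' e := by
    have : ((n : ℕ) : ℝ) = (m : ℝ) + m' := by rw [hn]; push_cast; ring
    rw [this]
    exact_mod_cast hde
  have hkey : kap (m + 1) (m' + 1) (e + 2) - kap (m + 1) (m' + 1) e =
      -(4 * (((m : ℝ) + 1) * (m' + 1)) / ((n + 2) * (n + 1))) * kap m m' e := by
    unfold kap
    rw [hnn, ← hn]
    have h1 : (KK (m + 1) (m' + 1) (e + 2) : ℝ) / ((n + 2).choose (e + 2) : ℝ) =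
        ((e : ℝ) + 2) * (e + 1) * KK (m + 1) (m' + 1) (e + 2) /
          ((n + 2) * (n + 1) * (n.choose e : ℝ)) := by
      rw [← hA']
      field_simp
    have h2 : (KK (m + 1) (m' + 1) e : ℝ) / ((n + 2).choose e : ℝ) =
        ((n : ℝ) + 2 - e) * (n + 1 - e) * KK (m + 1) (m' + 1) e /
          ((n + 2) * (n + 1) * (n.choose e : ℝ)) := by
      rw [← hB']
      have h3 : (0 : ℝ) < (n : ℝ) + 2 - e := by
        have : (e : ℝ) ≤ n := by exact_mod_cast hen
        linarith
      have h4 : (0 : ℝ) < (n : ℝ) + 1 - e := by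
        have : (e : ℝ) ≤ n := by exact_mod_cast hen
        linarith
      field_simp
    rw [h1, h2, ← sub_div, hde']
    field_simp
  rw [hkey, abs_mul, abs_neg, abs_of_nonneg (by positivity)]
  have h5 := kap_abs_le m m' e
  have h6 : (0 : ℝ) ≤ 4 * (((m : ℝ) + 1) * (m' + 1)) / ((n + 2) * (n + 1)) := by positivity
  have h7 : 4 * ((((m + 1 : ℕ) : ℝ)) * ((m' + 1 : ℕ) : ℝ)) /
      ((((m + 1 : ℕ) : ℝ) + ((m' + 1 : ℕ) : ℝ)) * (((m + 1 : ℕ) : ℝ) + ((m' + 1 : ℕ) : ℝ) - 1)) =
      4 * (((m : ℝ) + 1) * (m' + 1)) / ((n + 2) * (n + 1)) := by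
    have : ((n : ℕ) : ℝ) = (m : ℝ) + m' := by rw [hn]; push_cast; ring
    rw [this]
    push_cast
    congr 1
    ring
  rw [h7]
  nlinarith [abs_nonneg (kap m m' e)]

end Q154.ExactDist
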