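import Mathlib
import Pool.Agent.Q154.ExactDist

/-!
# The exact distance theorem
-/

namespace Q154.ExactDist

open Finset Q154.RevHyp Q154.Krawt

theorem variance (n : ℕ) :
    ∑ d ∈ range (n + 1), (3 : ℝ) ^ d * (n.choose d : ℝ) * (4 * (d : ℝ) - 3 * (n : ℝ)) ^ 2 =
      3 * (n : ℝ) * 4 ^ n := by
  have h := congrArg (fun p : Polynomial ℝ => p.eval (3 / 4)) (bernsteinPolynomial.variance ℝ n)
  simp only [Polynomial.eval_finsetSum, Polynomial.eval_mul, Polynomial.eval_pow,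
    Polynomial.eval_sub, Polynomial.eval_smul, Polynomial.eval_X, Polynomial.eval_natCast,
    bernsteinPolynomial, Polynomial.eval_one, nsmul_eq_mul] at h
  have h2 : ∀ d ∈ range (n + 1), (3 : ℝ) ^ d * (n.choose d : ℝ) * (4 * (d : ℝ) - 3 * (n : ℝ)) ^ 2 =
      16 * 4 ^ n * (((n : ℝ) * (3 / 4) - d) ^ 2 * ((n.choose d : ℝ) * (3 / 4) ^ d *
        (1 - 3 / 4) ^ (n - d))) := by
    intro d hd
    have hd' : d ≤ n := by rw [Finset.mem_range] at hd; omega
    have h3 : (4 : ℝ) ^ n = 4 ^ d * 4 ^ (n - d) := by rw [← pow_add]; congr 1; omega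
    have h4 : (1 - 3 / 4 : ℝ) = 1 / 4 := by norm_num
    rw [h4, h3, div_pow, div_pow, one_pow]
    have h5 : (4 : ℝ) ^ d ≠ 0 := by positivity
    have h6 : (4 : ℝ) ^ (n - d) ≠ 0 := by positivity
    field_simp
    ring
  rw [Finset.sum_congr rfl h2, ← Finset.mul_sum]
  rw [h]
  ring

/-- Several steps of smoothness. -/
theorem kap_steps (m m' e j : ℕ) (he : e + 2 * j ≤ m + m') :
    |kap m m' (e + 2 * j) - kap m m' e| ≤
      j * (4 * ((m : ℝ) * m') / (((m : ℝ) + m') * ((m : ℝ) + m' - 1))) := by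
  induction j with
  | zero => simp
  | succ j ih =>
    have h1 := ih (by omega)
    have h2 := kap_step m m' (e + 2 * j) (by omega)
    have e1 : e + 2 * (j + 1) = e + 2 * j + 2 := by ring
    rw [e1]
    have h3 : |kap m m' (e + 2 * j + 2) - kap m m' e| ≤
        |kap m m' (e + 2 * j + 2) - kap m m' (e + 2 * j)| +
        |kap m m' (e + 2 * j) - kap m m' e| := abs_sub_le _ _ _
    push_cast
    linarith

/-- Smoothness in a window around `6 r`. -/
theorem window (r L T j m m' d : ℕ) (hL : 1 ≤ L) (hr : 2 * (L + T) ≤ r) (hj : j ≤ T)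
    (hm : m + m' = 8 * r)
    (hd : d = 6 * r + 2 * j ∨ d + 2 * j = 6 * r) (η : ℝ) (hη1 : (T : ℝ) * (4 * L) ≤ η * (8 * r - 1))
    (hη2 : 2 * (7 / 8 : ℝ) ^ L ≤ η) :
    |kap m m' d - kap m m' (6 * r)| ≤ η := by
  by_cases hLm : L ≤ m ∧ L ≤ m'
  · have h1 := kap_decay L m m' d hLm.1 hLm.2 (by omega) (by omega)
    have h2 := kap_decay L m m' (6 * r) hLm.1 hLm.2 (by omega) (by omega)
    have h3 := abs_sub (kap m m' d) (kap m m' (6 * r))
    linarith
  · have hr1 : 1 ≤ r := by omega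
    have hrR : (1 : ℝ) ≤ r := by exact_mod_cast hr1
    have hstep : |kap m m' d - kap m m' (6 * r)| ≤
        j * (4 * ((m : ℝ) * m') / (((m : ℝ) + m') * ((m : ℝ) + m' - 1))) := by
      rcases hd with rfl | hd
      · exact kap_steps m m' (6 * r) j (by omega)
      · rw [abs_sub_comm, ← hd]
        exact kap_steps m m' d j (by omega)
    have hmR : (m : ℝ) + m' = 8 * r := by exact_mod_cast hm
    rw [hmR] at hstep
    have hmm : (m : ℝ) * m' ≤ L * (8 * r) := by
      have h4 : m * m' ≤ L * (8 * r) := by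
        by_cases h5 : L ≤ m
        · have h6 : m' ≤ L := by
            by_contra h7
            exact hLm ⟨h5, by omega⟩
          calc m * m' ≤ (8 * r) * L := Nat.mul_le_mul (by omega) h6
            _ = L * (8 * r) := by ring
        · exact Nat.mul_le_mul (by omega) (by omega)
      exact_mod_cast h4
    have h8 : (0 : ℝ) < 8 * r - 1 := by linarith
    have h9 : (0 : ℝ) < 8 * r * (8 * r - 1) := by positivity
    refine hstep.trans ?_
    rw [mul_div_assoc', div_le_iff₀ h9]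
    have hjT : (j : ℝ) ≤ T := by exact_mod_cast hj
    have hm0 : (0 : ℝ) ≤ (m : ℝ) * m' := by positivity
    calc (j : ℝ) * (4 * ((m : ℝ) * m')) ≤ T * (4 * (L * (8 * r))) := by gcongr
      _ = (T * (4 * L)) * (8 * r) := by ring
      _ ≤ (η * (8 * r - 1)) * (8 * r) := by gcongr
      _ = η * (8 * r * (8 * r - 1)) := by ring

theorem card_symmDiff_parity (x y : Finset ℕ) :
    (symmDiff x y).card % 2 = (x.card + y.card) % 2 := by
  have h1 : (symmDiff x y).card = (x \ y).card + (y \ x).card := by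
    have : symmDiff x y = (x \ y) ∪ (y \ x) := rfl
    rw [this, Finset.card_union_of_disjoint]
    exact disjoint_sdiff_sdiff
  have h2 := Finset.card_sdiff_add_card_inter x y
  have h3 := Finset.card_sdiff_add_card_inter y x
  rw [Finset.inter_comm] at h3
  omega

/-- The main estimate for families of constant parity. -/
theorem main_estimate (r L T : ℕ) (hL : 1 ≤ L) (hT : 1 ≤ T) (hr : 2 * (L + T) ≤ r) (η : ℝ)
    (hη1 : (T : ℝ) * (4 * L) ≤ η * (8 * r - 1)) (hη2 : 2 * (7 / 8 : ℝ) ^ L ≤ η)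
    (hη3 : 3 * (8 * (r : ℝ)) ≤ η * (64 * (T : ℝ) ^ 2))
    (I : Finset ℕ) (hI : I.card = 8 * r) (𝒜 : Finset (Finset ℕ)) (hA : 𝒜 ⊆ I.powerset)
    (hpar : ∀ x ∈ 𝒜, ∀ y ∈ 𝒜, (x.card + y.card) % 2 = 0)
    (hno : ∀ x ∈ 𝒜, ∀ y ∈ 𝒜, (symmDiff x y).card ≠ 6 * r) :
    ((𝒜.card : ℝ) / 2 ^ (8 * r)) ^ 3 ≤ 2 * η := by
  classical
  have hη0 : 0 ≤ η := le_trans (by positivity) hη2
  rcases 𝒜.eq_empty_or_nonempty with rfl | hne
  · simp; exact hη0
  have hcpos : (0 : ℝ) < 𝒜.card := by exact_mod_cast hne.card_pos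
  set n := 8 * r with hn
  have hrev := rev_hyp_far I 𝒜 hA
  rw [hI] at hrev
  -- rewrite the double sum by distances
  have hsum : ∑ x ∈ 𝒜, ∑ y ∈ 𝒜, 3 ^ (symmDiff x y).card =
      ∑ d ∈ range (n + 1), 3 ^ d * Nd 𝒜 d := by
    rw [← Finset.sum_product']
    rw [← Finset.sum_fiberwise_of_maps_to (s := 𝒜 ×ˢ 𝒜) (t := range (n + 1))
      (g := fun p => (symmDiff p.1 p.2).card)]
    · apply Finset.sum_congr rfl
      intro d _
      unfold Nd
      rw [Finset.sum_congr rfl (g := fun _ => 3 ^ d)]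
      · rw [Finset.sum_const, smul_eq_mul, mul_comm]
      · intro p hp
        rw [(Finset.mem_filter.1 hp).2]
    · intro p hp
      rw [Finset.mem_product] at hp
      rw [Finset.mem_range]
      have hx' := Finset.mem_powerset.1 (hA hp.1)
      have hy' := Finset.mem_powerset.1 (hA hp.2)
      have : (symmDiff p.1 p.2).card ≤ I.card := by
        apply Finset.card_le_card
        intro i hi
        rw [Finset.mem_symmDiff] at hi
        rcases hi with hi | hi
        · exact hx' hi.1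
        · exact hy' hi.1
      rw [hI] at this
      show (symmDiff p.1 p.2).card < n + 1
      omega
  rw [hsum] at hrev
  have hrev' : (𝒜.card : ℝ) ^ 4 ≤ 2 ^ n * ∑ d ∈ range (n + 1), (3 : ℝ) ^ d * Nd 𝒜 d := by
    exact_mod_cast hrev
  -- normalised pair counts in terms of Fourier coefficients
  have hP : ∀ d ≤ n, 2 ^ n * ((Nd 𝒜 d : ℝ) / (n.choose d : ℝ)) =
      ∑ M ∈ I.powerset, kap M.card (I \ M).card d * (four 𝒜 M : ℝ) ^ 2 := by
    intro d hd
    have h1 := Nd_four I 𝒜 hA d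
    rw [hI] at h1
    have h2 : (2 : ℝ) ^ n * (Nd 𝒜 d : ℝ) =
        ∑ M ∈ I.powerset, (KK M.card (I \ M).card d : ℝ) * (four 𝒜 M : ℝ) ^ 2 := by
      exact_mod_cast h1
    rw [mul_div_assoc', h2, Finset.sum_div]
    apply Finset.sum_congr rfl
    intro M hM
    unfold kap
    have : M.card + (I \ M).card = n := by
      rw [← hI, add_comm]
      exact Finset.card_sdiff_add_card_eq_card (Finset.mem_powerset.1 hM)
    rw [this]
    ring
  have hpars : ∑ M ∈ I.powerset, (four 𝒜 M : ℝ) ^ 2 = 2 ^ n * (𝒜.card : ℝ) := by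
    have := parseval I 𝒜 hA
    rw [hI] at this
    exact_mod_cast this
  have h2n : (0 : ℝ) < 2 ^ n := by positivity
  have hMcard : ∀ M ∈ I.powerset, M.card + (I \ M).card = n := by
    intro M hM
    rw [← hI, add_comm]
    exact Finset.card_sdiff_add_card_eq_card (Finset.mem_powerset.1 hM)
  -- no pairs at the exact distance
  have hN0 : Nd 𝒜 (6 * r) = 0 := by
    unfold Nd
    rw [Finset.card_eq_zero, Finset.filter_eq_empty_iff]
    rintro ⟨x, y⟩ hp
    rw [Finset.mem_product] at hp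
    exact hno x hp.1 y hp.2
  -- window estimate
  have hwin : ∀ d ≤ n, ∀ j ≤ T, (d = 6 * r + 2 * j ∨ d + 2 * j = 6 * r) →
      (Nd 𝒜 d : ℝ) / (n.choose d : ℝ) ≤ η * 𝒜.card := by
    intro d hd j hj hdj
    have h1 := hP d hd
    have h2 := hP (6 * r) (by omega)
    rw [hN0] at h2
    simp only [Nat.cast_zero, zero_div, mul_zero] at h2
    have h3 : 2 ^ n * ((Nd 𝒜 d : ℝ) / (n.choose d : ℝ)) ≤ 2 ^ n * (η * 𝒜.card) := by
      calc 2 ^ n * ((Nd 𝒜 d : ℝ) / (n.choose d : ℝ))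
          = ∑ M ∈ I.powerset, (kap M.card (I \ M).card d - kap M.card (I \ M).card (6 * r)) *
              (four 𝒜 M : ℝ) ^ 2 := by
            rw [h1]
            simp only [sub_mul]
            rw [Finset.sum_sub_distrib, ← h2, sub_zero]
        _ ≤ ∑ M ∈ I.powerset, η * (four 𝒜 M : ℝ) ^ 2 := by
            apply Finset.sum_le_sum
            intro M hM
            apply mul_le_mul_of_nonneg_right _ (sq_nonneg _)
            exact (le_abs_self _).trans
              (window r L T j _ _ d hL hr hj (hMcard M hM) hdj η hη1 hη2)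
        _ = 2 ^ n * (η * 𝒜.card) := by rw [← Finset.mul_sum, hpars]; ring
    exact le_of_mul_le_mul_left h3 h2n
  -- trivial estimate
  have htriv : ∀ d ≤ n, (Nd 𝒜 d : ℝ) / (n.choose d : ℝ) ≤ 𝒜.card := by
    intro d hd
    have h3 : 2 ^ n * ((Nd 𝒜 d : ℝ) / (n.choose d : ℝ)) ≤ 2 ^ n * (𝒜.card : ℝ) := by
      rw [hP d hd, ← hpars]
      apply Finset.sum_le_sum
      intro M _
      have := (le_abs_self _).trans (kap_abs_le M.card (I \ M).card d)
      nlinarith [sq_nonneg (four 𝒜 M : ℝ)]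
    exact le_of_mul_le_mul_left h3 h2n
  have hTpos : (0 : ℝ) < 64 * (T : ℝ) ^ 2 := by positivity
  have hall : ∀ d ∈ range (n + 1), (3 : ℝ) ^ d * Nd 𝒜 d ≤
      𝒜.card * (η * (3 ^ d * (n.choose d)) +
        (3 ^ d * (n.choose d) * (4 * d - 3 * n) ^ 2) / (64 * (T : ℝ) ^ 2)) := by
    intro d hd
    have hdn : d ≤ n := by rw [Finset.mem_range] at hd; omega
    have hch : (0 : ℝ) < (n.choose d : ℝ) := by exact_mod_cast Nat.choose_pos hdn
    have hkey : (Nd 𝒜 d : ℝ) / (n.choose d : ℝ) ≤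
        𝒜.card * (η + (4 * d - 3 * n) ^ 2 / (64 * (T : ℝ) ^ 2)) := by
      by_cases hodd : d % 2 = 1
      · have h0 : Nd 𝒜 d = 0 := by
          unfold Nd
          rw [Finset.card_eq_zero, Finset.filter_eq_empty_iff]
          rintro ⟨x, y⟩ hp heq
          rw [Finset.mem_product] at hp
          have h4 := card_symmDiff_parity x y
          have h5 := hpar x hp.1 y hp.2
          simp only at heq
          omega
        rw [h0]
        simp only [Nat.cast_zero, zero_div]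
        positivity
      · by_cases hw : (6 * r ≤ d ∧ d ≤ 6 * r + 2 * T) ∨ (d ≤ 6 * r ∧ 6 * r ≤ d + 2 * T)
        · have h6 : (Nd 𝒜 d : ℝ) / (n.choose d : ℝ) ≤ η * 𝒜.card := by
            rcases hw with hw | hw
            · exact hwin d hdn ((d - 6 * r) / 2) (by omega) (Or.inl (by omega))
            · exact hwin d hdn ((6 * r - d) / 2) (by omega) (Or.inr (by omega))
          refine h6.trans ?_
          have : 0 ≤ (4 * (d : ℝ) - 3 * n) ^ 2 / (64 * (T : ℝ) ^ 2) := by positivity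
          nlinarith
        · refine (htriv d hdn).trans ?_
          have h7 : (64 * (T : ℝ) ^ 2) ≤ (4 * (d : ℝ) - 3 * n) ^ 2 := by
            have hnr : (n : ℝ) = 8 * r := by rw [hn]; push_cast; ring
            rw [hnr]
            have h8 : (8 * (T : ℝ)) ≤ |4 * (d : ℝ) - 3 * (8 * r)| := by
              rw [le_abs]
              push Not at hw
              rcases le_total (6 * r) d with h9 | h9
              · left
                have h10 : 6 * r + 2 * T ≤ d := (hw.1 h9).le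
                have h11 : (6 * (r : ℝ) + 2 * T) ≤ d := by exact_mod_cast h10
                linarith
              · right
                have h10 : d + 2 * T ≤ 6 * r := (hw.2 h9).le
                have h11 : ((d : ℝ) + 2 * T) ≤ 6 * r := by exact_mod_cast h10
                linarith
            have h12 := mul_self_le_mul_self (by positivity) h8
            rw [abs_mul_abs_self] at h12
            nlinarith
          have h13 : 1 ≤ (4 * (d : ℝ) - 3 * n) ^ 2 / (64 * (T : ℝ) ^ 2) := by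
            rw [le_div_iff₀ hTpos]; linarith
          nlinarith
    rw [div_le_iff₀ hch] at hkey
    calc (3 : ℝ) ^ d * Nd 𝒜 d ≤ 3 ^ d * (𝒜.card * (η + (4 * d - 3 * n) ^ 2 /
          (64 * (T : ℝ) ^ 2)) * (n.choose d)) := by gcongr
      _ = _ := by ring
  have hbin : ∑ d ∈ range (n + 1), (3 : ℝ) ^ d * (n.choose d) = 4 ^ n := by
    have := (add_pow (3 : ℝ) 1 n).symm
    simp only [one_pow, mul_one] at this
    rw [this]; norm_num
  have htotal : ∑ d ∈ range (n + 1), (3 : ℝ) ^ d * Nd 𝒜 d ≤ 𝒜.card * (2 * η * 4 ^ n) := by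
    refine (Finset.sum_le_sum hall).trans ?_
    rw [← Finset.mul_sum, Finset.sum_add_distrib, ← Finset.mul_sum, hbin, ← Finset.sum_div,
      variance]
    apply mul_le_mul_of_nonneg_left _ hcpos.le
    have h14 : 3 * (n : ℝ) * 4 ^ n / (64 * (T : ℝ) ^ 2) ≤ η * 4 ^ n := by
      rw [div_le_iff₀ hTpos]
      have hnr : (n : ℝ) = 8 * r := by rw [hn]; push_cast; ring
      rw [hnr]
      have h4n : (0 : ℝ) < 4 ^ n := by positivity
      nlinarith
    linarith
  have hfin : (𝒜.card : ℝ) ^ 4 ≤ 2 ^ n * (𝒜.card * (2 * η * 4 ^ n)) :=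
    hrev'.trans (by gcongr)
  have h15 : (𝒜.card : ℝ) ^ 3 ≤ 2 * η * (2 ^ n) ^ 3 := by
    have h16 : (2 : ℝ) ^ n * 4 ^ n = (2 ^ n) ^ 3 := by
      have h18 : (4 : ℝ) ^ n = 2 ^ n * 2 ^ n := by rw [← mul_pow]; norm_num
      rw [h18]; ring
    have h17 : (𝒜.card : ℝ) * (𝒜.card : ℝ) ^ 3 ≤ 𝒜.card * (2 * η * (2 ^ n) ^ 3) := by
      calc (𝒜.card : ℝ) * (𝒜.card : ℝ) ^ 3 = (𝒜.card : ℝ) ^ 4 := by ring
        _ ≤ _ := hfin
        _ = 𝒜.card * (2 * η * (2 ^ n * 4 ^ n)) := by ring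
        _ = _ := by rw [h16]
    exact le_of_mul_le_mul_left h17 hcpos
  rw [div_pow, div_le_iff₀ (by positivity)]
  exact h15

/-- Exact distance theorem: dense families contain two sets at distance three quarters. -/
theorem exact_distance (δ : ℝ) (hδ : 0 < δ) : ∃ r₀ : ℕ, ∀ r ≥ r₀, ∀ I : Finset ℕ,
    I.card = 8 * r → ∀ 𝒜 : Finset (Finset ℕ), 𝒜 ⊆ I.powerset → δ * 2 ^ (8 * r) ≤ 𝒜.card →
    ∃ x ∈ 𝒜, ∃ y ∈ 𝒜, (symmDiff x y).card = 6 * r := by
  classical
  obtain ⟨η, hη, hηδ⟩ : ∃ η : ℝ, 0 < η ∧ 2 * η < (δ / 2) ^ 3 :=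
    ⟨(δ / 2) ^ 3 / 4, by positivity, by
      have : 0 < (δ / 2) ^ 3 := by positivity
      linarith⟩
  obtain ⟨L0, hL0⟩ := exists_pow_lt_of_lt_one (half_pos hη) (by norm_num : (7 / 8 : ℝ) < 1)
  set L := L0 + 1 with hLdef
  have hL : 2 * (7 / 8 : ℝ) ^ L ≤ η := by
    have : (7 / 8 : ℝ) ^ L ≤ (7 / 8 : ℝ) ^ L0 := by
      apply pow_le_pow_of_le_one (by norm_num) (by norm_num) (by omega)
    linarith
  obtain ⟨K, hK⟩ := exists_nat_gt (1 / η)
  have hK0 : (0 : ℝ) < K := lt_trans (by positivity) hK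
  obtain ⟨c, hc⟩ := exists_nat_gt (max (4 * (L : ℝ) / η) (4 * L + 4))
  have hc1 : 4 * (L : ℝ) / η < c := lt_of_le_of_lt (le_max_left _ _) hc
  have hc2 : 4 * (L : ℝ) + 4 < c := lt_of_le_of_lt (le_max_right _ _) hc
  have hc2' : 4 * L + 4 < c := by exact_mod_cast hc2
  refine ⟨4 * c ^ 2 * K + 2 * c, ?_⟩
  intro r hr I hI 𝒜 hA hcard
  set T := Nat.sqrt (K * r) + 1 with hT
  have hrc : 2 * c ≤ r := by nlinarith [Nat.zero_le (4 * c ^ 2 * K)]
  have hr4 : 4 * c ^ 2 * K ≤ r := by omega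
  -- c * T ≤ r
  have hcT : c * T ≤ r := by
    have h1 := Nat.sqrt_le' (K * r)
    set s := Nat.sqrt (K * r) with hs
    have h2 : (2 * c * s) ^ 2 ≤ r ^ 2 := by
      calc (2 * c * s) ^ 2 = 4 * c ^ 2 * s ^ 2 := by ring
        _ ≤ 4 * c ^ 2 * (K * r) := by gcongr
        _ = (4 * c ^ 2 * K) * r := by ring
        _ ≤ r * r := by gcongr
        _ = r ^ 2 := by ring
    have h3 : 2 * c * s ≤ r := (Nat.pow_le_pow_iff_left (by norm_num)).1 h2
    rw [hT]
    nlinarith
  have hTsq : K * r ≤ T ^ 2 := by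
    have := Nat.lt_succ_sqrt' (K * r)
    rw [hT]
    exact this.le
  have hT1 : 1 ≤ T := by omega
  have hrLT : 2 * (L + T) ≤ r := by nlinarith
  have hr1 : 1 ≤ r := by omega
  have hrR : (1 : ℝ) ≤ r := by exact_mod_cast hr1
  have hη1 : (T : ℝ) * (4 * L) ≤ η * (8 * r - 1) := by
    rw [div_lt_iff₀ hη] at hc1
    have h1 : (c : ℝ) * T ≤ r := by exact_mod_cast hcT
    have hTR : (0 : ℝ) ≤ T := Nat.cast_nonneg _
    calc (T : ℝ) * (4 * L) ≤ T * (c * η) := by gcongr
      _ = η * (c * T) := by ring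
      _ ≤ η * r := by gcongr
      _ ≤ η * (8 * r - 1) := by gcongr; linarith
  have hη3 : 3 * (8 * (r : ℝ)) ≤ η * (64 * (T : ℝ) ^ 2) := by
    have h1 : (K : ℝ) * r ≤ (T : ℝ) ^ 2 := by exact_mod_cast hTsq
    have h2 : 1 ≤ η * K := by
      rw [div_lt_iff₀ hη] at hK
      linarith
    calc 3 * (8 * (r : ℝ)) ≤ 64 * r * 1 := by linarith
      _ ≤ 64 * r * (η * K) := by gcongr
      _ = η * (64 * (K * r)) := by ring
      _ ≤ η * (64 * (T : ℝ) ^ 2) := by gcongr
  by_contra hcon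
  push Not at hcon
  -- the two parity classes
  have hsplit : ((𝒜.filter fun x => x.card % 2 = 0).card : ℝ) +
      (𝒜.filter fun x => ¬ x.card % 2 = 0).card = 𝒜.card := by
    exact_mod_cast Finset.card_filter_add_card_filter_not (s := 𝒜) (fun x => x.card % 2 = 0)
  have hbound : ∀ ℬ : Finset (Finset ℕ), ℬ ⊆ 𝒜 →
      (∀ x ∈ ℬ, ∀ y ∈ ℬ, (x.card + y.card) % 2 = 0) → (ℬ.card : ℝ) < δ / 2 * 2 ^ (8 * r) := by
    intro ℬ hB hpar
    have h1 := main_estimate r L T (by omega) hT1 hrLT η hη1 hL hη3 I hI ℬ (hB.trans hA) hpar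
      (fun x hx y hy => hcon x (hB hx) y (hB hy))
    have h2 : ((ℬ.card : ℝ) / 2 ^ (8 * r)) ^ 3 < (δ / 2) ^ 3 := lt_of_le_of_lt h1 hηδ
    have h3 : (ℬ.card : ℝ) / 2 ^ (8 * r) < δ / 2 := lt_of_pow_lt_pow_left₀ 3 (by positivity) h2
    rwa [div_lt_iff₀ (by positivity)] at h3
  have h1 := hbound (𝒜.filter fun x => x.card % 2 = 0) (Finset.filter_subset _ _) (by
    intro x hx y hy
    have := (Finset.mem_filter.1 hx).2
    have := (Finset.mem_filter.1 hy).2
    omega)
  have h2 := hbound (𝒜.filter fun x => ¬ x.card % 2 = 0) (Finset.filter_subset _ _) (by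
    intro x hx y hy
    have := (Finset.mem_filter.1 hx).2
    have := (Finset.mem_filter.1 hy).2
    omega)
  linarith

end Q154.ExactDist
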