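import Pool.Agent.Q37.GU.Stm
import Pool.Agent.H920R2.Sr1

/-!
Job P4 of project GU (helper37): the local rings of a smooth complex algebra are domains.
-/

set_option autoImplicit false

namespace Q154.GU_P4

open Pool.Agent.Q37.GU Pool.Agent.W481

theorem p4 : S_P4 := by
  intro C _ _ _ q _
  have h : IsRegularLocalRing (Localization.AtPrime q) :=
    Pool.Agent.H920R2.regular_of_smooth (k := ℂ) q
  exact Pool.Agent.H918R2.Quad.regular_isDomain _

end Q154.GU_P4
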