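import Mathlib
import Pool.Agent.Q49.MR.Stm

/-!
# Project MR (helper49), job H: the case `N = -1`
-/

set_option autoImplicit false

namespace Q154.MR_H

open Q49.MR

variable {K L : Type} [Field K] [Field L] [Algebra K L]

/-- there is no solution for `κ = 0` -/
theorem key (σ : L ≃ₐ[K] L) (h2 : (2 : L) ≠ 0) (a b c a1 b1 c1 a2 b2 c2 a3 b3 c3 : L)
    (ha1 : σ a = a1) (hb1 : σ b = b1) (hc1 : σ c = c1) (ha2 : σ a1 = a2) (hb2 : σ b1 = b2) (hc2 : σ c1 = c2)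
    (ha3 : σ a2 = a3) (hb3 : σ b2 = b3) (hc3 : σ c2 = c3) (ha4 : σ a3 = -a) (hb4 : σ b3 = -b) (hc4 : σ c3 = -c)
    (E0 : b ^ 2 - 4 * a * c = 1) (F0 : b * b1 - 2 * a * c1 - 2 * a1 * c = 0) : False := by
  have h4 : σ (4 : L) = 4 := map_ofNat σ 4
  have h2' : σ (2 : L) = 2 := map_ofNat σ 2
  have E1 : b1 ^ 2 - 4 * a1 * c1 = 1 := by
    have := congrArg σ E0
    simpa only [map_sub, map_mul, map_pow, map_one, h4, ha1, hb1, hc1] using this
  have E2 : b2 ^ 2 - 4 * a2 * c2 = 1 := by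
    have := congrArg σ E1
    simpa only [map_sub, map_mul, map_pow, map_one, h4, ha2, hb2, hc2] using this
  have E3 : b3 ^ 2 - 4 * a3 * c3 = 1 := by
    have := congrArg σ E2
    simpa only [map_sub, map_mul, map_pow, map_one, h4, ha3, hb3, hc3] using this
  have F1 : b1 * b2 - 2 * a1 * c2 - 2 * a2 * c1 = 0 := by
    have := congrArg σ F0
    simpa only [map_sub, map_mul, map_zero, h2', ha1, hb1, hc1, ha2, hb2, hc2] using this
  have F2 : b2 * b3 - 2 * a2 * c3 - 2 * a3 * c2 = 0 := by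
    have := congrArg σ F1
    simpa only [map_sub, map_mul, map_zero, h2', ha2, hb2, hc2, ha3, hb3, hc3] using this
  have F3 : b3 * (-b) - 2 * a3 * (-c) - 2 * (-a) * c3 = 0 := by
    have := congrArg σ F2
    simpa only [map_sub, map_mul, map_zero, h2', ha3, hb3, hc3, ha4, hb4, hc4] using this
  obtain ⟨X, hX⟩ : ∃ X : L, X = b * b2 - 2 * a * c2 - 2 * a2 * c := ⟨_, rfl⟩
  obtain ⟨Y, hY⟩ : ∃ Y : L, Y = b1 * b3 - 2 * a1 * c3 - 2 * a3 * c1 := ⟨_, rfl⟩
  have hXY : σ X = Y := by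
    rw [hX, hY]
    simp only [map_sub, map_mul, h2', ha1, hb1, hc1, ha3, hb3, hc3]
  have hYX : σ Y = -X := by
    rw [hX, hY]
    simp only [map_sub, map_mul, h2', ha2, hb2, hc2, ha4, hb4, hc4]
    ring
  -- a linear relation
  have hdet : (!![a, a1, a2, a3; b, b1, b2, b3; c, c1, c2, c3; 0, 0, 0, 0] : Matrix (Fin 4) (Fin 4) L).det = 0 := by
    apply Matrix.det_eq_zero_of_row_eq_zero 3
    intro j
    fin_cases j <;> rfl
  obtain ⟨t, ht, hrel⟩ := Matrix.exists_mulVec_eq_zero_iff.2 hdet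
  have r0 : a * t 0 + a1 * t 1 + a2 * t 2 + a3 * t 3 = 0 := by
    have := congrFun hrel 0
    simpa [Matrix.mulVec, dotProduct, Fin.sum_univ_four] using this
  have r1 : b * t 0 + b1 * t 1 + b2 * t 2 + b3 * t 3 = 0 := by
    have := congrFun hrel 1
    simpa [Matrix.mulVec, dotProduct, Fin.sum_univ_four] using this
  have r2 : c * t 0 + c1 * t 1 + c2 * t 2 + c3 * t 3 = 0 := by
    have := congrFun hrel 2
    simpa [Matrix.mulVec, dotProduct, Fin.sum_univ_four] using this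
  have s0 : t 0 + X * t 2 = 0 := by
    rw [hX]
    linear_combination b * r1 - 2 * a * r2 - 2 * c * r0 - t 0 * E0 - t 1 * F0 + t 3 * F3
  have s2 : X * t 0 + t 2 = 0 := by
    rw [hX]
    linear_combination b2 * r1 - 2 * a2 * r2 - 2 * c2 * r0 - t 2 * E2 - t 1 * F1 - t 3 * F2
  have s1 : t 1 + Y * t 3 = 0 := by
    rw [hY]
    linear_combination b1 * r1 - 2 * a1 * r2 - 2 * c1 * r0 - t 1 * E1 - t 0 * F0 - t 2 * F1
  have s3 : Y * t 1 + t 3 = 0 := by
    rw [hY]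
    linear_combination b3 * r1 - 2 * a3 * r2 - 2 * c3 * r0 - t 3 * E3 - t 2 * F2 + t 0 * F3
  have hor : X ^ 2 = 1 ∨ Y ^ 2 = 1 := by
    by_contra hcon
    push Not at hcon
    obtain ⟨hx, hy⟩ := hcon
    have hx' : 1 - X ^ 2 ≠ 0 := fun h => hx (by linear_combination -h)
    have hy' : 1 - Y ^ 2 ≠ 0 := fun h => hy (by linear_combination -h)
    have z0 : t 0 = 0 := by
      have : (1 - X ^ 2) * t 0 = 0 := by linear_combination s0 - X * s2
      exact (mul_eq_zero.1 this).resolve_left hx'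
    have z2 : t 2 = 0 := by
      have : (1 - X ^ 2) * t 2 = 0 := by linear_combination s2 - X * s0
      exact (mul_eq_zero.1 this).resolve_left hx'
    have z1 : t 1 = 0 := by
      have : (1 - Y ^ 2) * t 1 = 0 := by linear_combination s1 - Y * s3
      exact (mul_eq_zero.1 this).resolve_left hy'
    have z3 : t 3 = 0 := by
      have : (1 - Y ^ 2) * t 3 = 0 := by linear_combination s3 - Y * s1
      exact (mul_eq_zero.1 this).resolve_left hy'
    apply ht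
    funext j
    fin_cases j
    · exact z0
    · exact z1
    · exact z2
    · exact z3
  have hX2 : X ^ 2 = 1 := by
    rcases hor with h | h
    · exact h
    · have h5 : σ (X ^ 2) = σ 1 := by rw [map_pow, hXY, h, map_one]
      exact σ.injective h5
  have hXX : σ (σ X) = -X := by rw [hXY, hYX]
  have hfix : σ (σ X) = X := by
    rcases eq_or_eq_neg_of_sq_eq_sq X 1 (by rw [hX2, one_pow]) with h | h
    · rw [h, map_one, map_one]
    · rw [h, map_neg, map_neg, map_one, map_one]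
  have h6 : 2 * X = 0 := by
    rw [hfix] at hXX
    linear_combination hXX
  have h7 : X = 0 := (mul_eq_zero.1 h6).resolve_left h2
  rw [h7] at hX2
  norm_num at hX2

theorem hhh (h1 : S_B8) : S_H := by
  intro K L _ _ _ _ _ σ hσ x hrel
  have h8 := h1 K L σ hσ
  have h2 : (2 : L) ≠ 0 := by
    intro h
    apply hσ.two
    apply (algebraMap K L).injective
    rw [map_ofNat, map_zero]
    exact h
  obtain ⟨x1, hx1⟩ : ∃ y, y = σ x := ⟨_, rfl⟩
  obtain ⟨x2, hx2⟩ : ∃ y, y = σ x1 := ⟨_, rfl⟩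
  obtain ⟨x3, hx3⟩ : ∃ y, y = σ x2 := ⟨_, rfl⟩
  obtain ⟨x4, hx4⟩ : ∃ y, y = σ x3 := ⟨_, rfl⟩
  obtain ⟨x5, hx5⟩ : ∃ y, y = σ x4 := ⟨_, rfl⟩
  obtain ⟨x6, hx6⟩ : ∃ y, y = σ x5 := ⟨_, rfl⟩
  obtain ⟨x7, hx7⟩ : ∃ y, y = σ x6 := ⟨_, rfl⟩
  have hx8 : σ x7 = x := by
    rw [hx7, hx6, hx5, hx4, hx3, hx2, hx1]
    exact h8 x
  unfold Q49.MR.Rel at hrel
  rw [← hx1, ← hx2, ← hx3, ← hx4, ← hx5] at hrel
  rw [← hx1]
  by_cases hxx : x = x4
  · have h5 : x1 = x5 := by rw [hx1, hx5, ← hxx]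
    rw [← h5, ← hxx] at hrel
    have h6 : 2 * (x1 - x) ^ 2 = 0 := by linear_combination hrel
    have h7 := (mul_eq_zero.1 h6).resolve_left h2
    exact sub_eq_zero.1 (pow_eq_zero_iff two_ne_zero |>.1 h7)
  · exfalso
    have hd0 : x - x4 ≠ 0 := sub_ne_zero.2 hxx
    have hd1 : x1 - x5 ≠ 0 := by
      intro h
      apply hxx
      apply σ.injective
      rw [← hx1, ← hx5]
      exact sub_eq_zero.1 h
    refine key σ h2 (x - x4)⁻¹ (-((x - x4)⁻¹ * (x + x4))) ((x - x4)⁻¹ * (x * x4))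
      (x1 - x5)⁻¹ (-((x1 - x5)⁻¹ * (x1 + x5))) ((x1 - x5)⁻¹ * (x1 * x5))
      (x2 - x6)⁻¹ (-((x2 - x6)⁻¹ * (x2 + x6))) ((x2 - x6)⁻¹ * (x2 * x6))
      (x3 - x7)⁻¹ (-((x3 - x7)⁻¹ * (x3 + x7))) ((x3 - x7)⁻¹ * (x3 * x7))
      ?_ ?_ ?_ ?_ ?_ ?_ ?_ ?_ ?_ ?_ ?_ ?_ ?_ ?_
    · rw [map_inv₀, map_sub, ← hx1, ← hx5]
    · rw [map_neg, map_mul, map_inv₀, map_sub, map_add, ← hx1, ← hx5]
    · rw [map_mul, map_mul, map_inv₀, map_sub, ← hx1, ← hx5]
    · rw [map_inv₀, map_sub, ← hx2, ← hx6]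
    · rw [map_neg, map_mul, map_inv₀, map_sub, map_add, ← hx2, ← hx6]
    · rw [map_mul, map_mul, map_inv₀, map_sub, ← hx2, ← hx6]
    · rw [map_inv₀, map_sub, ← hx3, ← hx7]
    · rw [map_neg, map_mul, map_inv₀, map_sub, map_add, ← hx3, ← hx7]
    · rw [map_mul, map_mul, map_inv₀, map_sub, ← hx3, ← hx7]
    · rw [map_inv₀, map_sub, ← hx4, hx8, ← neg_sub x x4, inv_neg]
    · rw [map_neg, map_mul, map_inv₀, map_sub, map_add, ← hx4, hx8, ← neg_sub x x4, inv_neg]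
      ring
    · rw [map_mul, map_mul, map_inv₀, map_sub, ← hx4, hx8, ← neg_sub x x4, inv_neg]
      ring
    · field_simp
      ring
    · field_simp
      linear_combination -hrel

end Q154.MR_H
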