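import Mathlib
import Pool.Agent.Q49.MR.Stm

/-!
# Project MR (helper49), job P2B: the case `Δ = 0`
-/

set_option autoImplicit false

namespace Q154.MR_P2B

open Q49.MR Module

/-- the identity behind the case `β = -2 y y₁ y₂ y₃` -/
theorem ident {L : Type} [Field L] (h2 : (2 : L) ≠ 0) (s s1 s2 s3 : L) (h0 : s ≠ 0) (h1 : s1 ≠ 0) (h2' : s2 ≠ 0)
    (h3 : s3 ≠ 0) :
    4 * ((((s + s⁻¹) / 2) ^ 2 + ((s1 + s1⁻¹) / 2) ^ 2 + ((s2 + s2⁻¹) / 2) ^ 2 + ((s3 + s3⁻¹) / 2) ^ 2 - 2 +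
      2 * ((s + s⁻¹) / 2 * ((s1 + s1⁻¹) / 2) * ((s2 + s2⁻¹) / 2) * ((s3 + s3⁻¹) / 2))) +
      2 * ((s - s⁻¹) / 2 * ((s1 - s1⁻¹) / 2) * ((s2 - s2⁻¹) / 2) * ((s3 - s3⁻¹) / 2))) *
      (s * s1 * s2 * s3) ^ 2 =
    (s3 + s * s1 * s2) * (s2 + s * s1 * s3) * (s1 + s * s2 * s3) * (s + s1 * s2 * s3) := by
  field_simp
  ring

theorem half {L : Type} [Field L] (h2 : (2 : L) ≠ 0) (k y : L) (h : y ^ 2 = k ^ 2 - 1) :
    k + y ≠ 0 ∧ k = ((k + y) + (k + y)⁻¹) / 2 ∧ y = ((k + y) - (k + y)⁻¹) / 2 := by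
  have h1 : (k + y) * (k - y) = 1 := by linear_combination -h
  have h3 : k + y ≠ 0 := left_ne_zero_of_mul_eq_one h1
  have h4 : (k + y)⁻¹ = k - y := inv_eq_of_mul_eq_one_right h1
  refine ⟨h3, ?_, ?_⟩
  · rw [h4]
    field_simp
    ring
  · rw [h4]
    field_simp
    ring

theorem p2b (h1 : S_SQ) (h2 : S_FX) (h3 : S_DIM) : S_P2B := by
  intro K L _ _ _ _ _ σ hσ κ hκ4 hκ0 hκ1 hΔ
  have two : (2 : L) ≠ 0 := by
    intro h
    apply hσ.two
    apply (algebraMap K L).injective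
    rw [map_ofNat, map_zero]
    exact h
  obtain ⟨k1, hk1⟩ : ∃ y, y = σ κ := ⟨_, rfl⟩
  obtain ⟨k2, hk2⟩ : ∃ y, y = σ k1 := ⟨_, rfl⟩
  obtain ⟨k3, hk3⟩ : ∃ y, y = σ k2 := ⟨_, rfl⟩
  have hk4 : σ k3 = κ := by rw [hk3, hk2, hk1]; exact hκ4
  have hc : σ (σ (σ (σ (κ ^ 2 - 1)))) = κ ^ 2 - 1 := by
    simp only [map_sub, map_pow, map_one, hκ4]
  obtain ⟨y, hy⟩ := h1 K L σ hσ (κ ^ 2 - 1) hc
  obtain ⟨y1, hy1⟩ : ∃ z, z = σ y := ⟨_, rfl⟩
  obtain ⟨y2, hy2⟩ : ∃ z, z = σ y1 := ⟨_, rfl⟩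
  obtain ⟨y3, hy3⟩ : ∃ z, z = σ y2 := ⟨_, rfl⟩
  have e1 : y1 ^ 2 = k1 ^ 2 - 1 := by
    have := congrArg σ hy
    simpa only [map_sub, map_pow, map_one, ← hk1, ← hy1] using this
  have e2 : y2 ^ 2 = k2 ^ 2 - 1 := by
    have := congrArg σ e1
    simpa only [map_sub, map_pow, map_one, ← hk2, ← hy2] using this
  have e3 : y3 ^ 2 = k3 ^ 2 - 1 := by
    have := congrArg σ e2
    simpa only [map_sub, map_pow, map_one, ← hk3, ← hy3] using this
  have e4 : (σ y3) ^ 2 = κ ^ 2 - 1 := by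
    have := congrArg σ e3
    simpa only [map_sub, map_pow, map_one, hk4] using this
  have hal : al σ κ = (1 - κ ^ 2) * (1 - k2 ^ 2) := by
    unfold al
    rw [← hk1, ← hk2]
  have hal1 : σ (al σ κ) = (1 - k1 ^ 2) * (1 - k3 ^ 2) := by
    rw [hal]
    simp only [map_mul, map_sub, map_pow, map_one, ← hk1, ← hk3]
  have hbe : be σ κ = κ ^ 2 + k1 ^ 2 + k2 ^ 2 + k3 ^ 2 - 2 + 2 * (κ * k1 * k2 * k3) := by
    unfold be
    rw [← hk1, ← hk2, ← hk3]
  have hbe1 : σ (be σ κ) = be σ κ := by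
    rw [hbe]
    simp only [map_mul, map_sub, map_add, map_pow, map_ofNat, ← hk1, ← hk2, ← hk3, hk4]
    ring
  have hYY : (be σ κ) ^ 2 = (2 * (y * y1 * y2 * y3)) ^ 2 := by
    have h5 : (be σ κ) ^ 2 = 4 * al σ κ * σ (al σ κ) := sub_eq_zero.1 hΔ
    rw [h5, hal1, hal]
    have : (2 * (y * y1 * y2 * y3)) ^ 2 = 4 * (y ^ 2 * y1 ^ 2 * y2 ^ 2 * y3 ^ 2) := by ring
    rw [this, hy, e1, e2, e3]
    ring
  have hy0 : y ≠ 0 := by
    intro h
    rw [h] at hy
    exact hκ1 (by linear_combination -hy)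
  have inj0 : ∀ z : L, z ≠ 0 → σ z ≠ 0 := fun z hz => (map_ne_zero σ).2 hz
  have hy10 : y1 ≠ 0 := hy1 ▸ inj0 y hy0
  have hy20 : y2 ≠ 0 := hy2 ▸ inj0 y1 hy10
  have hy30 : y3 ≠ 0 := hy3 ▸ inj0 y2 hy20
  have hYfix : σ (y * y1 * y2 * y3) = y * y1 * y2 * y3 := by
    rcases eq_or_eq_neg_of_sq_eq_sq _ _ hYY with h | h
    · have h5 := hbe1
      rw [h] at h5
      rw [map_mul, map_ofNat] at h5
      exact mul_left_cancel₀ two h5
    · have h5 := hbe1
      rw [h] at h5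
      rw [map_neg, map_mul, map_ofNat] at h5
      exact mul_left_cancel₀ two (neg_injective h5)
  have hy4 : σ y3 = y := by
    rcases eq_or_eq_neg_of_sq_eq_sq (σ y3) y (by rw [e4, hy]) with h | h
    · exact h
    · exfalso
      rw [map_mul, map_mul, map_mul, ← hy1, ← hy2, ← hy3, h] at hYfix
      have h5 : 2 * (y * y1 * y2 * y3) = 0 := by linear_combination -hYfix
      have h6 := (mul_eq_zero.1 h5).resolve_left two
      exact (mul_ne_zero (mul_ne_zero (mul_ne_zero hy0 hy10) hy20) hy30) h6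
  have hala : al σ κ = (y * y2) ^ 2 := by
    rw [hal, mul_pow, hy, e2]
    ring
  have hala1 : σ (al σ κ) = (y1 * y3) ^ 2 := by
    rw [hal1, mul_pow, e1, e3]
    ring
  rcases eq_or_eq_neg_of_sq_eq_sq _ _ hYY with hb | hb
  · -- the case `β = 2 a₀ a₁`
    obtain ⟨-, hEm⟩ := h3 K L σ hσ
    have hpos : 0 < finrank K (Em σ) := by rw [hEm]; norm_num
    have := FiniteDimensional.of_finrank_pos hpos
    have := (Module.finrank_pos_iff (R := K) (M := Em σ)).1 hpos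
    obtain ⟨⟨p, hpE⟩, hp0⟩ := exists_ne (0 : Em σ)
    have hp : σ (σ p) = -p := hpE
    refine ⟨p, hpE, fun h => hp0 (Subtype.ext h), ?_⟩
    have hfix : σ (y * y2 * p ^ 2 + y1 * y3 * (σ p) ^ 2) = y * y2 * p ^ 2 + y1 * y3 * (σ p) ^ 2 := by
      simp only [map_add, map_mul, map_pow, ← hy1, ← hy2, ← hy3, hy4, hp]
      ring
    obtain ⟨g, hg⟩ := h2 K L σ hσ _ hfix
    refine ⟨g, ?_⟩
    rw [map_pow, hg]
    unfold FF
    rw [hala1, hala, hb]
    ring
  · exfalso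
    obtain ⟨n0, a0, b0⟩ := half two κ y hy
    obtain ⟨n1, a1, b1⟩ := half two k1 y1 e1
    obtain ⟨n2, a2, b2⟩ := half two k2 y2 e2
    obtain ⟨n3, a3, b3⟩ := half two k3 y3 e3
    have hid := ident two (κ + y) (k1 + y1) (k2 + y2) (k3 + y3) n0 n1 n2 n3
    rw [← a0, ← a1, ← a2, ← a3, ← b0, ← b1, ← b2, ← b3] at hid
    have hz : κ ^ 2 + k1 ^ 2 + k2 ^ 2 + k3 ^ 2 - 2 + 2 * (κ * k1 * k2 * k3) + 2 * (y * y1 * y2 * y3) = 0 := by
      rw [← hbe, hb]
      ring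
    rw [hz, mul_zero, zero_mul] at hid
    obtain ⟨s, hs⟩ : ∃ s, s = κ + y := ⟨_, rfl⟩
    obtain ⟨s1, hs1⟩ : ∃ s, s = k1 + y1 := ⟨_, rfl⟩
    obtain ⟨s2, hs2⟩ : ∃ s, s = k2 + y2 := ⟨_, rfl⟩
    obtain ⟨s3, hs3⟩ : ∃ s, s = k3 + y3 := ⟨_, rfl⟩
    rw [← hs, ← hs1, ← hs2, ← hs3] at hid
    rw [← hs] at n0
    rw [← hs1] at n1
    rw [← hs2] at n2
    rw [← hs3] at n3
    have f0 : σ s = s1 := by rw [hs, hs1, map_add, ← hk1, ← hy1]
    have f1 : σ s1 = s2 := by rw [hs1, hs2, map_add, ← hk2, ← hy2]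
    have f2 : σ s2 = s3 := by rw [hs2, hs3, map_add, ← hk3, ← hy3]
    have f3 : σ s3 = s := by rw [hs3, hs, map_add, hk4, hy4]
    obtain ⟨P, hP⟩ : ∃ P, P = s * s1 * s2 * s3 := ⟨_, rfl⟩
    have hP0 : P ≠ 0 := by
      rw [hP]
      exact mul_ne_zero (mul_ne_zero (mul_ne_zero n0 n1) n2) n3
    have hPf : σ P = P := by
      rw [hP]
      simp only [map_mul, f0, f1, f2, f3]
      ring
    have q01 : s ^ 2 = -P → s1 ^ 2 = -P := fun h => by
      have := congrArg σ h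
      simpa only [map_pow, map_neg, hPf, f0] using this
    have q12 : s1 ^ 2 = -P → s2 ^ 2 = -P := fun h => by
      have := congrArg σ h
      simpa only [map_pow, map_neg, hPf, f1] using this
    have q23 : s2 ^ 2 = -P → s3 ^ 2 = -P := fun h => by
      have := congrArg σ h
      simpa only [map_pow, map_neg, hPf, f2] using this
    have q30 : s3 ^ 2 = -P → s ^ 2 = -P := fun h => by
      have := congrArg σ h
      simpa only [map_pow, map_neg, hPf, f3] using this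
    have q0 : s ^ 2 = -P := by
      have hid' := hid.symm
      rcases mul_eq_zero.1 hid' with h | h
      · rcases mul_eq_zero.1 h with h | h
        · rcases mul_eq_zero.1 h with h | h
          · exact q30 (by rw [hP]; linear_combination s3 * h)
          · exact q30 (q23 (by rw [hP]; linear_combination s2 * h))
        · exact q30 (q23 (q12 (by rw [hP]; linear_combination s1 * h)))
      · rw [hP]
        linear_combination s * h
    have q1 := q01 q0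
    have q2 := q12 q1
    have q3 := q23 q2
    have hP4 : P ^ 2 = P ^ 4 := by
      have h5 : P ^ 2 = s ^ 2 * s1 ^ 2 * s2 ^ 2 * s3 ^ 2 := by rw [hP]; ring
      rw [q0, q1, q2, q3] at h5
      rw [h5]
      ring
    have hP2 : P ^ 2 = 1 := by
      have h5 : P ^ 2 * (P ^ 2 - 1) = 0 := by linear_combination -hP4
      have h6 := (mul_eq_zero.1 h5).resolve_left (pow_ne_zero 2 hP0)
      linear_combination h6
    have hts : s * (κ - y) = 1 := by
      rw [hs]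
      linear_combination -hy
    have hks : 2 * κ = s + (κ - y) := by
      rw [hs]
      ring
    rcases eq_or_eq_neg_of_sq_eq_sq P 1 (by rw [hP2, one_pow]) with h | h
    · -- `s² = -1`
      rw [h] at q0
      have h5 : κ - y = -s := by
        apply mul_left_cancel₀ n0
        rw [hts]
        linear_combination q0
      rw [h5] at hks
      have h6 : 2 * κ = 0 := by linear_combination hks
      exact hκ0 ((mul_eq_zero.1 h6).resolve_left two)
    · rw [h, neg_neg] at q0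
      have h5 : κ - y = s := by
        apply mul_left_cancel₀ n0
        rw [hts]
        linear_combination -q0
      rw [h5] at hks
      have h6 : κ = s := by
        apply mul_left_cancel₀ two
        linear_combination hks
      apply hκ1
      rw [h6, q0]

end Q154.MR_P2B
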