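import Mathlib
import Pool.Agent.Q154.BohrSingle

/-!
# Balanced mixed radix expansions and a dense set of integers
-/

namespace Q154.MixedRadix

open Finset Filter Q154.BohrSingle

/-- Digit bound at position `j`. -/
def h (j : ℕ) : ℕ := 3 * 2 ^ (j + 1)

/-- Place values. -/
def t : ℕ → ℕ
  | 0 => 1
  | j + 1 => (2 * h j + 1) * t j

theorem t_pos (j : ℕ) : 0 < t j := by
  induction j with
  | zero => exact Nat.one_pos
  | succ j ih => exact Nat.mul_pos (by omega) ih

theorem t_prod (L : ℕ) : t L = ∏ j ∈ range L, (2 * h j + 1) := by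
  induction L with
  | zero => rfl
  | succ L ih =>
    rw [Finset.prod_range_succ, ← ih]
    show (2 * h L + 1) * t L = _
    ring

/-- Value of a digit sequence. -/
noncomputable def dval (d : ℕ →₀ ℤ) : ℤ := d.sum fun j a => a * t j

theorem dval_add (d e : ℕ →₀ ℤ) : dval (d + e) = dval d + dval e := by
  unfold dval
  rw [Finsupp.sum_add_index']
  · intro j; simp
  · intro j a b; ring

theorem dval_eq_sum (d : ℕ →₀ ℤ) (L : ℕ) (hL : ∀ j, L ≤ j → d j = 0) :
    dval d = ∑ j ∈ range L, d j * t j := by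
  unfold dval
  rw [Finsupp.sum_of_support_subset]
  · intro j hj
    rw [Finset.mem_range]
    by_contra hc
    exact Finsupp.mem_support_iff.1 hj (hL j (by omega))
  · intro j _; simp

theorem sum_bound (L : ℕ) (f : ℕ → ℤ) (hf : ∀ j < L, |f j| ≤ h j) :
    2 * |∑ j ∈ range L, f j * t j| < t L := by
  induction L with
  | zero => simp [t]
  | succ L ih =>
    rw [Finset.sum_range_succ]
    have h1 := ih fun j hj => hf j (by omega)
    have h2 := hf L (by omega)
    have h3 : |∑ j ∈ range L, f j * t j + f L * t L| ≤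
        |∑ j ∈ range L, f j * t j| + |f L| * t L := by
      refine (abs_add_le _ _).trans ?_
      rw [abs_mul, Nat.abs_cast]
    have h4 : (t (L + 1) : ℤ) = (2 * h L + 1) * t L := by
      show (((2 * h L + 1) * t L : ℕ) : ℤ) = _
      push_cast; ring
    have h5 : (0 : ℤ) < t L := by exact_mod_cast t_pos L
    rw [h4]
    nlinarith

theorem sum_inj (L : ℕ) (f g : ℕ → ℤ) (hf : ∀ j < L, |f j| ≤ h j) (hg : ∀ j < L, |g j| ≤ h j)
    (hfg : ∑ j ∈ range L, f j * t j = ∑ j ∈ range L, g j * t j) : ∀ j < L, f j = g j := by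
  induction L with
  | zero => intro j hj; omega
  | succ L ih =>
    rw [Finset.sum_range_succ, Finset.sum_range_succ] at hfg
    have h1 := sum_bound L f fun j hj => hf j (by omega)
    have h2 := sum_bound L g fun j hj => hg j (by omega)
    have h5 : (0 : ℤ) < t L := by exact_mod_cast t_pos L
    have h6 : f L = g L := by
      by_contra hne
      have h7 : (f L - g L) * t L = ∑ j ∈ range L, g j * t j - ∑ j ∈ range L, f j * t j := by
        linarith
      have h8 : (t L : ℤ) ≤ |(f L - g L) * t L| := by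
        rw [abs_mul, Nat.abs_cast]
        have : 1 ≤ |f L - g L| := Int.one_le_abs (sub_ne_zero.2 hne)
        nlinarith
      rw [h7] at h8
      have h9 := abs_sub (∑ j ∈ range L, g j * (t j : ℤ)) (∑ j ∈ range L, f j * (t j : ℤ))
      linarith
    have h7 := ih (fun j hj => hf j (by omega)) (fun j hj => hg j (by omega)) (by
      rw [h6] at hfg; linarith)
    intro j hj
    rcases Nat.lt_succ_iff_lt_or_eq.1 hj with hj | rfl
    · exact h7 j hj
    · exact h6

theorem exists_bound' (d : ℕ →₀ ℤ) : ∃ M, ∀ i, M ≤ i → d i = 0 := by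
  refine ⟨d.support.sup id + 1, fun i hi => ?_⟩
  by_contra hc
  have := Finset.le_sup (f := id) (Finsupp.mem_support_iff.2 hc)
  simp only [id] at this
  omega

theorem dval_inj (d e : ℕ →₀ ℤ) (hd : ∀ j, |d j| ≤ h j) (he : ∀ j, |e j| ≤ h j)
    (hde : dval d = dval e) : d = e := by
  obtain ⟨M, hM⟩ := exists_bound' d
  obtain ⟨M', hM'⟩ := exists_bound' e
  have h1 := dval_eq_sum d (max M M') fun j hj => hM j ((le_max_left _ _).trans hj)
  have h2 := dval_eq_sum e (max M M') fun j hj => hM' j ((le_max_right _ _).trans hj)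
  rw [h1, h2] at hde
  have h3 := sum_inj _ d e (fun j _ => hd j) (fun j _ => he j) hde
  ext j
  by_cases hj : j < max M M'
  · exact h3 j hj
  · rw [hM j (by omega), hM' j (by omega)]

/-- Parity pattern of the even positions. -/
noncomputable def par (d : ℕ →₀ ℤ) : V2 :=
  Finsupp.onFinset (d.support.image fun i => i / 2) (fun i => (d (2 * i) : ZMod 2)) (by
    intro i hi
    rw [Finset.mem_image]
    refine ⟨2 * i, ?_, by omega⟩
    rw [Finsupp.mem_support_iff]
    intro h0
    rw [h0] at hi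
    exact hi rfl)

theorem par_apply (d : ℕ →₀ ℤ) (i : ℕ) : par d i = (d (2 * i) : ZMod 2) := rfl

theorem par_add (d e : ℕ →₀ ℤ) : par (d + e) = par d + par e := by
  ext i
  rw [Finsupp.add_apply, par_apply, par_apply, par_apply, Finsupp.add_apply]
  push_cast
  rfl

/-- Allowed digits for a given parity pattern. -/
noncomputable def allowed (y : V2) (j : ℕ) : Finset ℤ :=
  if j % 2 = 0 then
    (Finset.Icc (-((h j : ℤ) - 1)) ((h j : ℤ) - 1)).filter fun a => (a : ZMod 2) = y (j / 2)
  else Finset.Icc (-((h j : ℤ) - 1)) ((h j : ℤ) - 1)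

/-- Lower bound for the number of allowed digits. -/
def b (j : ℕ) : ℕ := if j % 2 = 0 then h j - 1 else 2 * h j - 1

theorem h_pos (j : ℕ) : 6 ≤ h j := by
  unfold h
  have : 2 ^ 1 ≤ 2 ^ (j + 1) := Nat.pow_le_pow_right (by norm_num) (by omega)
  omega

theorem int_zmod2 (a : ℤ) (y : ZMod 2) : ∃ c : ℤ, (c = 0 ∨ c = 1) ∧ ((a + c : ℤ) : ZMod 2) = y := by
  have h1 : ∀ x y : ZMod 2, ∃ c : ZMod 2, (c = 0 ∨ c = 1) ∧ x + c = y := by decide
  obtain ⟨c, hc, hc2⟩ := h1 (a : ZMod 2) y
  rcases hc with rfl | rfl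
  · exact ⟨0, Or.inl rfl, by push_cast; exact hc2⟩
  · exact ⟨1, Or.inr rfl, by push_cast; exact hc2⟩

theorem b_le (y : V2) (j : ℕ) : b j ≤ (allowed y j).card := by
  have h6 := h_pos j
  unfold b allowed
  split_ifs with hj
  · obtain ⟨c, hc, hc2⟩ := int_zmod2 (-((h j : ℤ) - 1)) (y (j / 2))
    calc h j - 1 = (Finset.range (h j - 1)).card := (Finset.card_range _).symm
      _ ≤ _ := by
        apply Finset.card_le_card_of_injOn (fun i : ℕ => -((h j : ℤ) - 1) + c + 2 * (i : ℤ))
        · intro i hi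
          rw [Finset.mem_coe, Finset.mem_range] at hi
          rw [Finset.mem_coe, Finset.mem_filter, Finset.mem_Icc]
          dsimp only
          refine ⟨⟨?_, ?_⟩, ?_⟩
          · rcases hc with rfl | rfl <;> omega
          · rcases hc with rfl | rfl <;> omega
          · rw [← hc2]
            push_cast
            have : (2 : ZMod 2) = 0 := rfl
            rw [this]; ring
        · intro i _ i' _ hii
          simp only at hii
          omega
  · rw [Int.card_Icc]
    omega

theorem b_prod (N : ℕ) : (1 / 2 + 1 / 2 ^ (2 * N + 1) : ℝ) * t (2 * N) ≤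
    (∏ j ∈ range (2 * N), (b j : ℝ)) * 2 ^ N := by
  induction N with
  | zero => simp [t]; norm_num
  | succ N ih =>
    have e1 : 2 * (N + 1) = 2 * N + 1 + 1 := by ring
    rw [e1, Finset.prod_range_succ, Finset.prod_range_succ]
    have h1 : (t (2 * N + 1 + 1) : ℝ) = (2 * h (2 * N + 1) + 1) * ((2 * h (2 * N) + 1) * t (2 * N)) := by
      show (((2 * h (2 * N + 1) + 1) * ((2 * h (2 * N) + 1) * t (2 * N)) : ℕ) : ℝ) = _
      push_cast; ring
    have hb1 : (2 : ℝ) * b (2 * N) = 2 * h (2 * N) + 1 - 3 := by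
      have h6 := h_pos (2 * N)
      have : b (2 * N) = h (2 * N) - 1 := by unfold b; rw [if_pos (by omega)]
      rw [this, Nat.cast_sub (by omega)]
      push_cast; ring
    have hb2 : (b (2 * N + 1) : ℝ) = 2 * h (2 * N + 1) + 1 - 2 := by
      have h6 := h_pos (2 * N + 1)
      have : b (2 * N + 1) = 2 * h (2 * N + 1) - 1 := by unfold b; rw [if_neg (by omega)]
      rw [this, Nat.cast_sub (by omega)]
      push_cast; ring
    have hq1 : (2 * h (2 * N) + 1 : ℝ) = 6 * 2 ^ (2 * N + 1) + 1 := by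
      unfold h; push_cast; ring
    have hq2 : (2 * h (2 * N + 1) + 1 : ℝ) = 6 * 2 ^ (2 * N + 2) + 1 := by
      unfold h; push_cast; ring
    set X : ℝ := 2 ^ (2 * N + 1) with hX
    have hXpos : (2 : ℝ) ≤ X := by
      rw [hX, pow_succ]
      have : (1 : ℝ) ≤ 2 ^ (2 * N) := one_le_pow₀ (by norm_num)
      linarith
    have hX2 : (2 : ℝ) ^ (2 * N + 2) = 2 * X := by rw [hX, pow_succ]; ring
    have hX4 : (2 : ℝ) ^ (2 * N + 1 + 1 + 1) = 4 * X := by
      rw [hX, pow_succ, pow_succ]; ring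
    have hT : (0 : ℝ) < t (2 * N) := by exact_mod_cast t_pos _
    rw [h1, hb2, hq1, hq2, hX2, hX4]
    have hP : (∏ j ∈ range (2 * N), (b j : ℝ)) * b (2 * N) * (6 * (2 * X) + 1 - 2) * 2 ^ (N + 1) =
        ((∏ j ∈ range (2 * N), (b j : ℝ)) * 2 ^ N) * (2 * b (2 * N)) * (12 * X - 1) := by
      rw [pow_succ]; ring
    rw [hP, hb1, hq1]
    have hfac : (1 / 2 + 1 / (4 * X)) * ((12 * X + 1) * (6 * X + 1)) ≤
        (1 / 2 + 1 / X) * (6 * X + 1 - 3) * (12 * X - 1) := by
      have hx0 : (0 : ℝ) < X := by linarith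
      rw [← sub_nonneg]
      have : (1 / 2 + 1 / X) * (6 * X + 1 - 3) * (12 * X - 1) -
          (1 / 2 + 1 / (4 * X)) * ((12 * X + 1) * (6 * X + 1)) =
          (120 * X ^ 2 - 136 * X + 7) / (4 * X) := by
        field_simp
        ring
      rw [this]
      apply div_nonneg _ (by linarith)
      nlinarith
    calc (1 / 2 + 1 / (4 * X)) * ((6 * (2 * X) + 1) * ((6 * X + 1) * (t (2 * N) : ℝ)))
        = ((1 / 2 + 1 / (4 * X)) * ((12 * X + 1) * (6 * X + 1))) * t (2 * N) := by ring
      _ ≤ ((1 / 2 + 1 / X) * (6 * X + 1 - 3) * (12 * X - 1)) * t (2 * N) := by gcongr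
      _ = ((1 / 2 + 1 / X) * t (2 * N)) * (6 * X + 1 - 3) * (12 * X - 1) := by ring
      _ ≤ ((∏ j ∈ range (2 * N), (b j : ℝ)) * 2 ^ N) * (6 * X + 1 - 3) * (12 * X - 1) := by
          gcongr
          · linarith
          · linarith

/-- The digit sequences with parity pattern in `Y`. -/
noncomputable def DY (Y : Finset V2) (N : ℕ) : Finset (ℕ →₀ ℤ) :=
  Y.biUnion fun y => (range (2 * N)).finsupp (allowed y)

theorem mem_DY {Y : Finset V2} {N : ℕ} (hY : Y ⊆ H N) {d : ℕ →₀ ℤ} (hd : d ∈ DY Y N) :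
    (∀ j, |d j| ≤ h j - 1) ∧ par d ∈ Y ∧ ∀ j, 2 * N ≤ j → d j = 0 := by
  unfold DY at hd
  rw [Finset.mem_biUnion] at hd
  obtain ⟨y, hy, hd⟩ := hd
  rw [Finset.mem_finsupp_iff] at hd
  have hz : ∀ j, 2 * N ≤ j → d j = 0 := by
    intro j hj
    by_contra hc
    have := hd.1 (Finsupp.mem_support_iff.2 hc)
    rw [Finset.mem_range] at this
    omega
  have hall : ∀ j < 2 * N, d j ∈ Finset.Icc (-((h j : ℤ) - 1)) ((h j : ℤ) - 1) ∧
      (j % 2 = 0 → (d j : ZMod 2) = y (j / 2)) := by
    intro j hj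
    have h1 := hd.2 j (Finset.mem_range.2 hj)
    unfold allowed at h1
    split_ifs at h1 with h2
    · rw [Finset.mem_filter] at h1
      exact ⟨h1.1, fun _ => h1.2⟩
    · exact ⟨h1, fun h3 => absurd h3 h2⟩
  refine ⟨?_, ?_, hz⟩
  · intro j
    by_cases hj : j < 2 * N
    · have h1 := (hall j hj).1
      rw [Finset.mem_Icc] at h1
      exact abs_le.2 h1
    · rw [hz j (by omega)]
      have := h_pos j
      simp
      omega
  · have : par d = y := by
      ext i
      rw [par_apply]
      by_cases hi : i < N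
      · have h1 := (hall (2 * i) (by omega)).2 (by omega)
        rw [h1]
        congr 1
        omega
      · rw [hz (2 * i) (by omega), mem_H.1 (hY hy) i (by omega)]
        rfl
    rw [this]; exact hy

theorem card_DY {Y : Finset V2} {N : ℕ} (hY : Y ⊆ H N) :
    Y.card * ∏ j ∈ range (2 * N), b j ≤ (DY Y N).card := by
  unfold DY
  rw [Finset.card_biUnion]
  · rw [← smul_eq_mul, ← Finset.sum_const]
    apply Finset.sum_le_sum
    intro y _
    rw [Finset.card_finsupp]
    exact Finset.prod_le_prod' fun j _ => b_le y j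
  · intro y hy y' hy' hne
    show Disjoint _ _
    rw [Finset.disjoint_left]
    intro d hd hd'
    apply hne
    rw [Finset.mem_finsupp_iff] at hd hd'
    ext i
    by_cases hi : i < N
    · have h1 := hd.2 (2 * i) (Finset.mem_range.2 (by omega))
      have h2 := hd'.2 (2 * i) (Finset.mem_range.2 (by omega))
      unfold allowed at h1 h2
      rw [if_pos (by omega), Finset.mem_filter] at h1 h2
      have e : 2 * i / 2 = i := by omega
      rw [e] at h1 h2
      rw [← h1.2, h2.2]
    · rw [mem_H.1 (hY hy) i (by omega), mem_H.1 (hY hy') i (by omega)]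

open Classical in
/-- A dense set in the exponent two group which is disjoint from its shifts. -/
theorem exists_dense : ∃ B : Set V2,
    (∃ᶠ K in atTop, (2 : ℝ) ^ (N nn K) / 8 ≤ (((H (N nn K)).filter fun x => x ∈ B).card : ℝ)) ∧
    ∀ (k : ℕ) (w : V2), (∀ i, i ∉ I nn k → w i = 0) →
      ((I nn k).filter fun i => w i = 0).card ≤ k → ∀ x ∈ B, x + w ∉ B := by
  set c : ℕ → V2 := fun _ => 0 with hc0
  have hc : ∀ k i, N nn k ≤ i → c k i = 0 := fun k i _ => rfl
  have hpig : ∀ K, ∃ ψ : ZMod 2 × ZMod 2, (2 : ℝ) ^ (N nn K) / 8 ≤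
      (((H (N nn K)).filter fun x => Good nn c K x ∧ Phi nn c K x = ψ).card : ℝ) := by
    intro K
    have h1 := bad_count hc K (N nn K) le_rfl
    have h2 : (((H (N nn K)).filter fun x => Good nn c K x).card : ℝ) +
        ((H (N nn K)).filter fun x => ¬ Good nn c K x).card = 2 ^ (N nn K) := by
      have := Finset.card_filter_add_card_filter_not (s := H (N nn K)) (fun x => Good nn c K x)
      rw [card_H] at this
      exact_mod_cast this
    have h3 : (0 : ℝ) < 1 / 2 ^ (K + 1) := by positivity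
    have h4 : (0 : ℝ) < 2 ^ (N nn K) := by positivity
    have h5 : (2 : ℝ) ^ (N nn K) / 2 ≤ ((H (N nn K)).filter fun x => Good nn c K x).card := by
      nlinarith
    obtain ⟨ψ, -, hψ⟩ := Finset.exists_le_card_fiber_of_nsmul_le_card_of_maps_to
      (s := (H (N nn K)).filter fun x => Good nn c K x)
      (t := (Finset.univ : Finset (ZMod 2 × ZMod 2))) (f := fun x => Phi nn c K x)
      (b := (2 : ℝ) ^ (N nn K) / 8) (fun _ _ => Finset.mem_univ _) Finset.univ_nonempty (by
        have : (Finset.univ : Finset (ZMod 2 × ZMod 2)).card = 4 := rfl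
        rw [this, nsmul_eq_mul]
        push_cast
        linarith)
    refine ⟨ψ, ?_⟩
    rw [Finset.filter_filter] at hψ
    exact hψ
  obtain ⟨ψ, hψ⟩ : ∃ ψ : ZMod 2 × ZMod 2, ∃ᶠ K in atTop, (2 : ℝ) ^ (N nn K) / 8 ≤
      (((H (N nn K)).filter fun x => Good nn c K x ∧ Phi nn c K x = ψ).card : ℝ) := by
    by_contra hcon
    push Not at hcon
    have h1 : ∀ ψ : ZMod 2 × ZMod 2, ∀ᶠ K in atTop, ¬ ((2 : ℝ) ^ (N nn K) / 8 ≤
      (((H (N nn K)).filter fun x => Good nn c K x ∧ Phi nn c K x = ψ).card : ℝ)) :=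
      fun ψ => (hcon ψ).mono fun K hK => not_le.2 hK
    obtain ⟨K, hK⟩ := (Filter.eventually_all.2 h1).exists
    obtain ⟨ψ, hψ⟩ := hpig K
    exact hK ψ hψ
  refine ⟨{x | ∃ K, x ∈ H (N nn K) ∧ Good nn c K x ∧ Phi nn c K x = ψ}, ?_, ?_⟩
  · refine hψ.mono fun K hK => hK.trans ?_
    have h2 : ((H (N nn K)).filter fun x => Good nn c K x ∧ Phi nn c K x = ψ) ⊆
        (H (N nn K)).filter fun x => x ∈ {x | ∃ K, x ∈ H (N nn K) ∧ Good nn c K x ∧
          Phi nn c K x = ψ} := by
      intro x hx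
      rw [Finset.mem_filter] at hx ⊢
      exact ⟨hx.1, K, hx.1, hx.2⟩
    exact_mod_cast Finset.card_le_card h2
  · rintro k w hw1 hw2 x ⟨K, h1, h2, h3⟩ ⟨K', h1', h2', h3'⟩
    set L := max (max K K') (k + 1) with hL
    have hkL : k < L := lt_of_lt_of_le (Nat.lt_succ_self k) (le_max_right _ _)
    obtain ⟨h4, h5⟩ := stable nn_large K x (mem_H.1 h1) L
      ((le_max_left _ _).trans (le_max_left _ _))
    obtain ⟨h4', h5'⟩ := stable nn_large K' (x + w) (mem_H.1 h1') L
      ((le_max_right _ _).trans (le_max_left _ _))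
    have h6 := shift1 hc k w hw1 hw2 L hkL x (h5.2 h2)
    have h7 : c k + w = w := by simp [hc0]
    rw [h7, h4', h3', h4, h3] at h6
    have h8 : ((1 : ZMod 2), (0 : ZMod 2)) = 0 := by
      have := h6.symm
      rwa [add_eq_left] at this
    exact absurd h8 (by decide)

end Q154.MixedRadix
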