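import Mathlib

/-!
# Sets of multinomial coefficient values and their pair-sum statistics
-/

namespace Q154.Multinom

open Finset Filter
open scoped Nat Pointwise

/-- The set of values of multinomial coefficients with upper entry `n`. -/
def Mset (n : ℕ) : Finset ℕ :=
  (Finset.univ : Finset (Nat.Partition n)).image
    fun p => n ! / (p.parts.map Nat.factorial).prod

/-- The number of unordered representations of `t` as a sum of two elements of `Mset n`. -/
def r (n t : ℕ) : ℕ :=
  ((Mset n ×ˢ Mset n).filter fun p => p.1 ≤ p.2 ∧ p.1 + p.2 = t).card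

/-- The collision excess. -/
def C (n : ℕ) : ℕ := ∑ t ∈ Mset n + Mset n, (r n t - 1)

/-- The number of sums with more than one representation. -/
def D (n : ℕ) : ℕ := ((Mset n + Mset n).filter fun t => 2 ≤ r n t).card

/-- The maximal number of representations. -/
def mu (n : ℕ) : ℕ := (Mset n + Mset n).sup (r n)

theorem fac_dvd (s : Multiset ℕ) : (s.map Nat.factorial).prod ∣ s.sum ! := by
  induction s using Multiset.induction_on with
  | empty => simp
  | cons a s ih =>
    rw [Multiset.map_cons, Multiset.prod_cons, Multiset.sum_cons]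
    exact (Nat.mul_dvd_mul_left _ ih).trans (Nat.factorial_mul_factorial_dvd_factorial_add _ _)

theorem fac_pos (s : Multiset ℕ) : 0 < (s.map Nat.factorial).prod := by
  apply Multiset.prod_pos
  intro a ha
  obtain ⟨b, -, rfl⟩ := Multiset.mem_map.1 ha
  exact Nat.factorial_pos b

theorem fac_filter (s : Multiset ℕ) :
    ((s.filter (· ≠ 0)).map Nat.factorial).prod = (s.map Nat.factorial).prod := by
  induction s using Multiset.induction_on with
  | empty => simp
  | cons a s ih =>
    by_cases h : a = 0
    · subst h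
      simp [ih]
    · have h' : (a ::ₘ s).filter (· ≠ 0) = a ::ₘ s.filter (· ≠ 0) :=
        Multiset.filter_cons_of_pos (p := (· ≠ 0)) _ h
      rw [h', Multiset.map_cons, Multiset.prod_cons, ih, Multiset.map_cons, Multiset.prod_cons]

theorem mem_Mset {n x : ℕ} :
    x ∈ Mset n ↔ ∃ s : Multiset ℕ, s.sum = n ∧ x * (s.map Nat.factorial).prod = n ! := by
  unfold Mset
  rw [Finset.mem_image]
  constructor
  · rintro ⟨p, -, rfl⟩
    refine ⟨p.parts, p.parts_sum, ?_⟩
    apply Nat.div_mul_cancel
    have := fac_dvd p.parts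
    rwa [p.parts_sum] at this
  · rintro ⟨s, hs, hx⟩
    refine ⟨Nat.Partition.ofSums n s hs, Finset.mem_univ _, ?_⟩
    have h1 : (Nat.Partition.ofSums n s hs).parts = s.filter (· ≠ 0) := rfl
    rw [h1, fac_filter, ← hx]
    exact Nat.mul_div_cancel _ (fac_pos s)

theorem pos_of_mem {n x : ℕ} (h : x ∈ Mset n) : 0 < x := by
  obtain ⟨s, -, h2⟩ := mem_Mset.1 h
  rcases Nat.eq_zero_or_pos x with h0 | h0
  · rw [h0, zero_mul] at h2
    exact absurd h2 (Nat.factorial_pos n).ne
  · exact h0

/-- `Mset` is stable under choosing the parts of a base partition. -/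
theorem key (K n : ℕ) (h : K * (K + 1) ≤ n) :
    ∃ T, 0 < T ∧ ∀ I J : Finset ℕ, I ⊆ Finset.Icc 1 K → J ⊆ Finset.Icc 1 K →
      ∃ x ∈ Mset n, x * ∏ j ∈ J, j = T * ∏ i ∈ I, i := by
  classical
  set P1 : ℕ := ∏ i ∈ Finset.Icc 1 K, i ! with hP1
  set P2 : ℕ := ∏ i ∈ Finset.Icc 1 K, (i - 1)! with hP2
  have hP1pos : 0 < P1 := Finset.prod_pos fun i _ => Nat.factorial_pos i
  have hP2pos : 0 < P2 := Finset.prod_pos fun i _ => Nat.factorial_pos _
  -- a general construction
  have gen : ∀ I J : Finset ℕ, I ⊆ Finset.Icc 1 K → J ⊆ Finset.Icc 1 K →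
      ∃ x ∈ Mset n, x * (P1 * P2) * ∏ j ∈ J, j = n ! * ∏ i ∈ I, i := by
    intro I J hI hJ
    set f : ℕ → ℕ := fun i => if i ∈ I then i - 1 else i with hf
    set g : ℕ → ℕ := fun i => if i ∈ J then i else i - 1 with hg
    set s : Multiset ℕ := (Finset.Icc 1 K).val.map f + (Finset.Icc 1 K).val.map g with hs
    have hsum : s.sum ≤ n := by
      have h1 : s.sum = ∑ i ∈ Finset.Icc 1 K, f i + ∑ i ∈ Finset.Icc 1 K, g i := by
        rw [hs, Multiset.sum_add]; rfl
      have h2 : ∑ i ∈ Finset.Icc 1 K, f i ≤ ∑ i ∈ Finset.Icc 1 K, i := by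
        apply Finset.sum_le_sum
        intro i _
        simp only [hf]; split_ifs <;> omega
      have h3 : ∑ i ∈ Finset.Icc 1 K, g i ≤ ∑ i ∈ Finset.Icc 1 K, i := by
        apply Finset.sum_le_sum
        intro i _
        simp only [hg]; split_ifs <;> omega
      have h4 : (∑ i ∈ Finset.Icc 1 K, i) * 2 = K * (K + 1) := by
        have h5 := Finset.sum_range_id_mul_two (K + 1)
        have h6 : ∑ i ∈ Finset.Icc 1 K, i = ∑ i ∈ Finset.range (K + 1), i := by
          rw [Finset.sum_range_succ']
          simp only [add_zero]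
          rw [Finset.sum_bij (fun i _ => i - 1)]
          · intro a ha; simp only [Finset.mem_Icc] at ha; simp only [Finset.mem_range]; omega
          · intro a ha b hb hab
            simp only [Finset.mem_Icc] at ha hb; omega
          · intro b hb
            simp only [Finset.mem_range] at hb
            exact ⟨b + 1, by simp only [Finset.mem_Icc]; omega, by omega⟩
          · intro a ha; simp only [Finset.mem_Icc] at ha; omega
        rw [h6, h5]
        simp only [Nat.add_sub_cancel]
        ring
      omega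
    have hF1 : ((Finset.Icc 1 K).val.map f |>.map Nat.factorial).prod * ∏ i ∈ I, i = P1 := by
      have h1 : ((Finset.Icc 1 K).val.map f |>.map Nat.factorial).prod
          = ∏ i ∈ Finset.Icc 1 K, (f i)! := by
        rw [Multiset.map_map]; rfl
      have h2 : ∏ i ∈ I, i = ∏ i ∈ Finset.Icc 1 K, (if i ∈ I then i else 1) := by
        rw [← Finset.prod_filter]
        congr 1
        ext i
        simp only [Finset.mem_filter]
        exact ⟨fun hi => ⟨hI hi, hi⟩, fun hi => hi.2⟩
      rw [h1, h2, ← Finset.prod_mul_distrib, hP1]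
      apply Finset.prod_congr rfl
      intro i hi
      have hi1 := (Finset.mem_Icc.1 hi).1
      simp only [hf]
      split_ifs with hiI
      · rw [mul_comm]
        exact Nat.mul_factorial_pred (by omega)
      · simp
    have hF2 : ((Finset.Icc 1 K).val.map g |>.map Nat.factorial).prod = P2 * ∏ j ∈ J, j := by
      have h1 : ((Finset.Icc 1 K).val.map g |>.map Nat.factorial).prod
          = ∏ i ∈ Finset.Icc 1 K, (g i)! := by
        rw [Multiset.map_map]; rfl
      have h2 : ∏ i ∈ J, i = ∏ i ∈ Finset.Icc 1 K, (if i ∈ J then i else 1) := by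
        rw [← Finset.prod_filter]
        congr 1
        ext i
        simp only [Finset.mem_filter]
        exact ⟨fun hi => ⟨hJ hi, hi⟩, fun hi => hi.2⟩
      rw [h1, h2, hP2, ← Finset.prod_mul_distrib]
      apply Finset.prod_congr rfl
      intro i hi
      have hi1 := (Finset.mem_Icc.1 hi).1
      simp only [hg]
      split_ifs with hiI
      · rw [mul_comm]
        exact (Nat.mul_factorial_pred (by omega)).symm
      · simp
    set s' : Multiset ℕ := s + Multiset.replicate (n - s.sum) 1 with hs'
    have hs'sum : s'.sum = n := by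
      rw [hs', Multiset.sum_add, Multiset.sum_replicate]
      simp
      omega
    have hs'F : (s'.map Nat.factorial).prod = (s.map Nat.factorial).prod := by
      rw [hs', Multiset.map_add, Multiset.prod_add, Multiset.map_replicate,
        Multiset.prod_replicate]
      simp
    obtain ⟨x, hx⟩ := fac_dvd s'
    rw [hs'sum] at hx
    refine ⟨x, mem_Mset.2 ⟨s', hs'sum, by rw [hx]; ring⟩, ?_⟩
    rw [hx, hs'F, hs, Multiset.map_add, Multiset.prod_add, hF2, ← hF1]
    ring
  obtain ⟨T, hT, hT2⟩ := gen ∅ ∅ (Finset.empty_subset _) (Finset.empty_subset _)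
  simp only [Finset.prod_empty, mul_one] at hT2
  refine ⟨T, pos_of_mem hT, fun I J hI hJ => ?_⟩
  obtain ⟨x, hx, hx2⟩ := gen I J hI hJ
  refine ⟨x, hx, ?_⟩
  have hpos : 0 < P1 * P2 := Nat.mul_pos hP1pos hP2pos
  apply Nat.eq_of_mul_eq_mul_left hpos
  calc P1 * P2 * (x * ∏ j ∈ J, j) = x * (P1 * P2) * ∏ j ∈ J, j := by ring
    _ = n ! * ∏ i ∈ I, i := hx2
    _ = P1 * P2 * (T * ∏ i ∈ I, i) := by rw [← hT2]; ring

/-- Popular difference: many representations of one number. -/
theorem reps (K n u m : ℕ) (h : K * (K + 1) ≤ n) (hu : 1 ≤ u)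
    (hm : K * m + (K ^ (u - 1) + 1 + K) ≤ (Nat.primeCounting K).choose u) :
    m ≤ mu n := by
  classical
  rcases Nat.eq_zero_or_pos m with hm0 | hm0
  · omega
  obtain ⟨T, hT, hkey⟩ := key K n h
  rcases Nat.eq_zero_or_pos K with hK0 | hK0
  · subst hK0
    exfalso
    have : Nat.primeCounting 0 = 0 := by simp
    rw [this, Nat.choose_eq_zero_of_lt (by omega)] at hm
    have := Nat.zero_le (0 ^ (u - 1))
    omega
  set P : Finset ℕ := (Finset.Icc 1 K).filter Nat.Prime with hP
  have hPcard : P.card = Nat.primeCounting K := by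
    rw [hP, Nat.primeCounting, Nat.primeCounting', Nat.count_eq_card_filter_range]
    congr 1
    ext q
    simp only [Finset.mem_filter, Finset.mem_Icc, Finset.mem_range]
    constructor
    · rintro ⟨⟨h1, h2⟩, h3⟩; exact ⟨by omega, h3⟩
    · rintro ⟨h1, h3⟩; exact ⟨⟨h3.one_lt.le, by omega⟩, h3⟩
  set F : Finset (Finset ℕ) := P.powersetCard u with hF
  set pr : Finset ℕ → ℕ := fun I => ∏ i ∈ I, i with hpr
  have hprfac : ∀ I ∈ F, (pr I).primeFactors = I := by
    intro I hI
    rw [hF, Finset.mem_powersetCard] at hI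
    exact Nat.primeFactors_prod fun p hp => (Finset.mem_filter.1 (hI.1 hp)).2
  have hinj : Set.InjOn pr (F : Set (Finset ℕ)) := by
    intro I hI J hJ hIJ
    rw [← hprfac I hI, ← hprfac J hJ, hIJ]
  set S : Finset ℕ := F.image pr with hS
  have hScard : S.card = (Nat.primeCounting K).choose u := by
    rw [hS, Finset.card_image_of_injOn hinj, hF, Finset.card_powersetCard, hPcard]
  have hSle : ∀ s ∈ S, s ≤ K ^ u := by
    intro s hs
    rw [hS, Finset.mem_image] at hs
    obtain ⟨I, hI, rfl⟩ := hs
    rw [hF, Finset.mem_powersetCard] at hI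
    calc pr I ≤ ∏ _i ∈ I, K := by
          apply Finset.prod_le_prod'
          intro i hi
          exact (Finset.mem_Icc.1 (Finset.mem_filter.1 (hI.1 hi)).1).2
      _ = K ^ u := by rw [Finset.prod_const, hI.2]
  -- the largest element in the block of `s`
  set g : ℕ → ℕ := fun s => (S.filter fun s' => s' / K = s / K).sup id with hg
  have hg1 : ∀ s ∈ S, g s ∈ S ∧ g s / K = s / K ∧ s ≤ g s := by
    intro s hs
    have hne : (S.filter fun s' => s' / K = s / K).Nonempty := ⟨s, by simp [hs]⟩
    obtain ⟨w, hw, hw2⟩ := Finset.exists_mem_eq_sup _ hne (id : ℕ → ℕ)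
    have hgw : g s = w := hw2
    rw [Finset.mem_filter] at hw
    refine ⟨by rw [hgw]; exact hw.1, by rw [hgw]; exact hw.2, ?_⟩
    exact Finset.le_sup (f := (id : ℕ → ℕ)) (by simp [hs])
  set S2 : Finset ℕ := S.filter fun s => K ≤ s ∧ s ≠ g s with hS2
  have hS2card : S.card ≤ S2.card + (K ^ (u - 1) + 1 + K) := by
    have h1 : S ⊆ S2 ∪ ((S.filter fun s => s = g s) ∪ Finset.range K) := by
      intro s hs
      simp only [hS2, Finset.mem_union, Finset.mem_filter, Finset.mem_range]
      by_cases h1 : K ≤ s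
      · by_cases h2 : s = g s
        · exact Or.inr (Or.inl ⟨hs, h2⟩)
        · exact Or.inl ⟨hs, h1, h2⟩
      · exact Or.inr (Or.inr (by omega))
    have h2 : (S.filter fun s => s = g s).card ≤ K ^ (u - 1) + 1 := by
      have h3 : (S.filter fun s => s = g s).card ≤ (Finset.range (K ^ (u - 1) + 1)).card := by
        apply Finset.card_le_card_of_injOn (fun s => s / K)
        · intro s hs
          simp only [Finset.coe_filter, Set.mem_ofPred_eq] at hs
          simp only [Finset.coe_range, Set.mem_Iio]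
          have h4 := hSle s hs.1
          have h5 : K ^ u = K ^ (u - 1) * K := by
            rw [← pow_succ]; congr 1; omega
          rw [h5] at h4
          have h6 : s / K ≤ K ^ (u - 1) := by
            calc s / K ≤ (K ^ (u - 1) * K) / K := Nat.div_le_div_right h4
              _ = K ^ (u - 1) := Nat.mul_div_cancel _ hK0
          omega
        · intro s hs s' hs' hss
          simp only [Finset.coe_filter, Set.mem_ofPred_eq] at hs hs'
          have h7 : g s = g s' := by
            simp only [hg]
            simp only at hss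
            rw [hss]
          rw [hs.2, hs'.2, h7]
      rwa [Finset.card_range] at h3
    calc S.card ≤ (S2 ∪ ((S.filter fun s => s = g s) ∪ Finset.range K)).card :=
          Finset.card_le_card h1
      _ ≤ S2.card + ((S.filter fun s => s = g s) ∪ Finset.range K).card :=
          Finset.card_union_le _ _
      _ ≤ S2.card + ((S.filter fun s => s = g s).card + (Finset.range K).card) := by
          gcongr; exact Finset.card_union_le _ _
      _ ≤ S2.card + (K ^ (u - 1) + 1 + K) := by
          rw [Finset.card_range]; omega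
  have hS2m : K * m ≤ S2.card := by rw [hScard] at hS2card; omega
  have hmaps : ∀ s ∈ S2, g s - s ∈ Finset.range K := by
    intro s hs
    rw [hS2, Finset.mem_filter] at hs
    obtain ⟨h1, h2, h3⟩ := hg1 s hs.1
    rw [Finset.mem_range]
    have h4 := Nat.div_add_mod (g s) K
    have h5 := Nat.div_add_mod s K
    have h6 := Nat.mod_lt (g s) hK0
    have h7 := Nat.mod_lt s hK0
    rw [h2] at h4
    omega
  obtain ⟨d, hd, hdm⟩ := Finset.exists_le_card_fiber_of_mul_le_card_of_maps_to hmaps
    ⟨0, by simpa using hK0⟩ (by rw [Finset.card_range]; exact hS2m)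
  set E : Finset ℕ := S2.filter fun s => g s - s = d with hE
  have hEm : m ≤ E.card := hdm
  have hE1 : ∀ s ∈ E, s ∈ S ∧ s + d ∈ S ∧ K ≤ s ∧ 1 ≤ d ∧ d < K := by
    intro s hs
    rw [hE, Finset.mem_filter, hS2, Finset.mem_filter] at hs
    obtain ⟨⟨h0, h00, h000⟩, h0000⟩ := hs
    obtain ⟨h1, h2, h3⟩ := hg1 s h0
    have h4 : s + d = g s := by omega
    rw [Finset.mem_range] at hd
    refine ⟨h0, by rw [h4]; exact h1, h00, by omega, hd⟩
  -- the two summands
  have hx : ∀ s ∈ E, ∃ x ∈ Mset n, x * (s + d) = T * s := by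
    intro s hs
    obtain ⟨h1, h2, -, -, -⟩ := hE1 s hs
    rw [hS, Finset.mem_image] at h1 h2
    obtain ⟨I, hI, hIs⟩ := h1
    obtain ⟨J, hJ, hJs⟩ := h2
    rw [hF, Finset.mem_powersetCard] at hI hJ
    obtain ⟨x, hx, hx2⟩ := hkey I J (hI.1.trans (Finset.filter_subset _ _))
      (hJ.1.trans (Finset.filter_subset _ _))
    refine ⟨x, hx, ?_⟩
    rw [← hJs, ← hIs]; exact hx2
  have hy : ∀ s ∈ E, ∃ y ∈ Mset n, y * (s + d) = T * d := by
    intro s hs
    obtain ⟨h1, h2, h3, h4, h5⟩ := hE1 s hs
    rw [hS, Finset.mem_image] at h2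
    obtain ⟨J, hJ, hJs⟩ := h2
    rw [hF, Finset.mem_powersetCard] at hJ
    obtain ⟨x, hx, hx2⟩ := hkey {d} J (by
      intro i hi
      rw [Finset.mem_singleton] at hi
      rw [Finset.mem_Icc]; omega)
      (hJ.1.trans (Finset.filter_subset _ _))
    refine ⟨x, hx, ?_⟩
    rw [Finset.prod_singleton] at hx2
    rw [← hJs]; exact hx2
  have hr : E.card ≤ r n T := by
    apply Finset.card_le_card_of_injOn (fun s => (T * d / (s + d), T * s / (s + d)))
    · intro s hs
      obtain ⟨x, hxM, hx⟩ := hx s hs
      obtain ⟨y, hyM, hy⟩ := hy s hs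
      obtain ⟨h1, h2, h3, h4, h5⟩ := hE1 s hs
      have hpos : 0 < s + d := by omega
      have e1 : T * d / (s + d) = y := by rw [← hy]; exact Nat.mul_div_cancel _ hpos
      have e2 : T * s / (s + d) = x := by rw [← hx]; exact Nat.mul_div_cancel _ hpos
      simp only [Finset.coe_filter, Set.mem_ofPred_eq, Finset.mem_product]
      rw [e1, e2]
      refine ⟨⟨hyM, hxM⟩, ?_, ?_⟩
      · apply le_of_mul_le_mul_right _ hpos
        rw [hx, hy]
        exact Nat.mul_le_mul_left _ (by omega)
      · apply Nat.eq_of_mul_eq_mul_right hpos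
        rw [add_mul, hx, hy]
        ring
    · intro s hs s' hs' hss
      obtain ⟨x', hxM', hx'⟩ := hx s' hs'
      obtain ⟨x, hxM, hx⟩ := hx s hs
      obtain ⟨h1, h2, h3, h4, h5⟩ := hE1 s hs
      obtain ⟨h1', h2', h3', h4', h5'⟩ := hE1 s' hs'
      have hpos : 0 < s + d := by omega
      have hpos' : 0 < s' + d := by omega
      have e2 : T * s / (s + d) = x := by rw [← hx]; exact Nat.mul_div_cancel _ hpos
      have e2' : T * s' / (s' + d) = x' := by rw [← hx']; exact Nat.mul_div_cancel _ hpos'
      simp only [Prod.mk.injEq] at hss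
      rw [e2, e2'] at hss
      obtain ⟨-, hxx⟩ := hss
      have h8 : s * (s' + d) = s' * (s + d) := by
        apply Nat.eq_of_mul_eq_mul_left hT
        calc T * (s * (s' + d)) = (T * s) * (s' + d) := by ring
          _ = x * (s + d) * (s' + d) := by rw [hx]
          _ = (x' * (s' + d)) * (s + d) := by rw [hxx]; ring
          _ = T * (s' * (s + d)) := by rw [hx']; ring
      have h9 : s * d = s' * d := by
        have e1 : s * (s' + d) = s * s' + s * d := by ring
        have e2 : s' * (s + d) = s * s' + s' * d := by ring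
        omega
      exact Nat.eq_of_mul_eq_mul_right (by omega) h9
  have hTmem : T ∈ Mset n + Mset n := by
    have h1 : 0 < r n T := by omega
    obtain ⟨p, hp⟩ := Finset.card_pos.1 h1
    simp only [Finset.mem_filter, Finset.mem_product] at hp
    exact Finset.mem_add.2 ⟨p.1, hp.1.1, p.2, hp.1.2, hp.2.2⟩
  calc m ≤ E.card := hEm
    _ ≤ r n T := hr
    _ ≤ mu n := Finset.le_sup (f := r n) hTmem

theorem r_le (n t : ℕ) : r n t ≤ (Mset n).card := by
  apply Finset.card_le_card_of_injOn (fun p => p.1)
  · intro p hp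
    simp only [Finset.coe_filter, Set.mem_ofPred_eq, Finset.mem_product] at hp
    exact hp.1.1
  · rintro ⟨a, b⟩ hp ⟨c, d⟩ hq hpq
    simp only [Finset.coe_filter, Set.mem_ofPred_eq, Finset.mem_product] at hp hq hpq
    ext
    · exact hpq
    · simp only; omega

theorem mu_le (n : ℕ) : mu n ≤ (Mset n).card :=
  Finset.sup_le fun t _ => r_le n t

theorem D_le_C (n : ℕ) : D n ≤ C n := by
  unfold D C
  calc ((Mset n + Mset n).filter fun t => 2 ≤ r n t).card
      = ∑ t ∈ (Mset n + Mset n).filter (fun t => 2 ≤ r n t), 1 := by simp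
    _ ≤ ∑ t ∈ (Mset n + Mset n).filter (fun t => 2 ≤ r n t), (r n t - 1) := by
        apply Finset.sum_le_sum
        intro t ht
        have := (Finset.mem_filter.1 ht).2
        omega
    _ ≤ ∑ t ∈ Mset n + Mset n, (r n t - 1) :=
        Finset.sum_le_sum_of_subset (Finset.filter_subset _ _)

theorem card_le_D (n : ℕ) : (Mset n).card ≤ D (n + 5) := by
  have hc : 0 < (n + 5).choose 5 := Nat.choose_pos (by omega)
  have hfac : (n + 5)! = (n + 5).choose 5 * 120 * n ! := by
    have := Nat.add_choose_mul_factorial_mul_factorial n 5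
    rw [← this]
    have h5 : 5 ! = 120 := rfl
    rw [h5]
    ring
  have aux : ∀ x ∈ Mset n, ∀ (a : ℕ) (l : Multiset ℕ), l.sum = 5 →
      a * (l.map Nat.factorial).prod = 120 → a * (n + 5).choose 5 * x ∈ Mset (n + 5) := by
    intro x hx a l hl1 hl2
    obtain ⟨s, hs1, hs2⟩ := mem_Mset.1 hx
    refine mem_Mset.2 ⟨s + l, by rw [Multiset.sum_add, hs1, hl1], ?_⟩
    rw [Multiset.map_add, Multiset.prod_add, hfac, ← hs2, ← hl2]
    ring
  apply Finset.card_le_card_of_injOn (fun x => 40 * (n + 5).choose 5 * x)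
  · intro x hx
    have hx : x ∈ Mset n := hx
    have hxpos := pos_of_mem hx
    have h10 := aux x hx 10 {3, 2} (by rfl) (by rfl)
    have h20 := aux x hx 20 {3, 1, 1} (by rfl) (by rfl)
    have h30 := aux x hx 30 {2, 2, 1} (by rfl) (by rfl)
    simp only [Finset.coe_filter, Set.mem_ofPred_eq]
    have hp : 0 < (n + 5).choose 5 * x := Nat.mul_pos hc hxpos
    refine ⟨Finset.mem_add.2 ⟨_, h10, _, h30, by ring⟩, ?_⟩
    have h1 : 1 < r (n + 5) (40 * (n + 5).choose 5 * x) := by
      apply Finset.one_lt_card.2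
      refine ⟨(10 * (n + 5).choose 5 * x, 30 * (n + 5).choose 5 * x), ?_,
        (20 * (n + 5).choose 5 * x, 20 * (n + 5).choose 5 * x), ?_, ?_⟩
      · simp only [Finset.mem_filter, Finset.mem_product]
        refine ⟨⟨h10, h30⟩, ?_, by ring⟩
        nlinarith
      · simp only [Finset.mem_filter, Finset.mem_product]
        exact ⟨⟨h20, h20⟩, le_rfl, by ring⟩
      · intro h
        rw [Prod.mk.injEq] at h
        nlinarith [h.1]
    exact h1
  · intro x _ y _ hxy
    simp only at hxy
    exact Nat.eq_of_mul_eq_mul_left (by positivity) hxy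

end Q154.Multinom
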