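import Mathlib
import Pool.Agent.Q154.Multinom

/-!
# Growth of the pair-sum statistics of multinomial coefficient values
-/

namespace Q154.Multinom

open Finset Filter Real
open scoped Nat Pointwise

theorem choose_primeCounting_growth (u c : ℕ) (hu : 1 ≤ u) :
    ∀ᶠ K : ℕ in atTop, c * K ^ (u - 1) ≤ (Nat.primeCounting K).choose u := by
  have hlog : ∀ (k : ℕ) (ε : ℝ), 0 < ε → ∀ᶠ K : ℕ in atTop, (log (K : ℝ)) ^ k ≤ ε * K := by
    intro k ε hε
    have h1 := (isLittleO_pow_log_id_atTop (n := k)).def hε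
    have h2 := tendsto_natCast_atTop_atTop (R := ℝ) |>.eventually h1
    filter_upwards [h2, eventually_ge_atTop 1] with K hK hK1
    have hK1' : (1 : ℝ) ≤ K := by exact_mod_cast hK1
    have h3 : ‖(log (K : ℝ)) ^ k‖ = (log (K : ℝ)) ^ k := by
      rw [Real.norm_eq_abs, abs_of_nonneg (pow_nonneg (log_nonneg hK1') k)]
    have h4 : ‖id (K : ℝ)‖ = K := by
      simp
    rw [h3, h4] at hK
    exact hK
  have hc : (0 : ℝ) < c * (u ! : ℝ) * 4 ^ u + 1 := by positivity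
  filter_upwards [hlog 1 (1 / 100) (by norm_num), hlog 1 (1 / (4 * (u : ℝ) + 1)) (by positivity),
    hlog u (1 / (c * (u ! : ℝ) * 4 ^ u + 1)) (by positivity), eventually_ge_atTop 100]
    with K h1 h2 h3 hK
  have hK' : (100 : ℝ) ≤ K := by exact_mod_cast hK
  have hK0 : (0 : ℝ) < K := by linarith
  set L : ℝ := log (K : ℝ) with hL
  have hLpos : 0 < L := log_pos (by linarith)
  rw [pow_one] at h1 h2
  have hpsi := Chebyshev.psi_ge K
  have hpi := Chebyshev.psi_le_primeCounting_mul_log K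
  set p : ℝ := (Nat.primeCounting K : ℝ) with hp
  have hlog2 : log ((K : ℝ) + 1) ≤ log 2 + L := by
    rw [hL, ← log_mul (by norm_num) hK0.ne']
    apply log_le_log (by linarith); linarith
  have hl2 := Real.log_two_gt_d9
  have hl2' := Real.log_two_lt_d9
  have hpL : (K : ℝ) / 2 ≤ p * L := by
    have : (K : ℝ) * log 2 - log (K + 1) ≤ p * L := hpsi.trans hpi
    nlinarith
  have hcast : ((Nat.primeCounting K + 1 - u : ℕ) : ℝ) ≥ p + 1 - u := by
    rcases le_total u (Nat.primeCounting K + 1) with h | h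
    · rw [Nat.cast_sub h]; push_cast; exact le_rfl
    · rw [Nat.sub_eq_zero_of_le h]
      have : ((Nat.primeCounting K + 1 : ℕ) : ℝ) ≤ u := by exact_mod_cast h
      push_cast at this ⊢
      linarith
  have hu4 : (4 * (u : ℝ)) * L ≤ K := by
    have h5 : L * (4 * (u : ℝ) + 1) ≤ K := by
      have h6 : 1 / (4 * (u : ℝ) + 1) * K = K / (4 * (u : ℝ) + 1) := by ring
      rw [h6, le_div_iff₀ (by positivity)] at h2
      exact h2
    nlinarith
  have hbase : (K : ℝ) / (4 * L) ≤ ((Nat.primeCounting K + 1 - u : ℕ) : ℝ) := by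
    refine le_trans ?_ hcast
    rw [div_le_iff₀ (by positivity)]
    nlinarith
  have hch := Nat.pow_le_choose (α := ℝ) u (Nat.primeCounting K)
  have hchoose : ((K : ℝ) / (4 * L)) ^ u / (u ! : ℝ) ≤ ((Nat.primeCounting K).choose u : ℝ) := by
    refine le_trans ?_ hch
    gcongr
  have hfin : (c : ℝ) * (K : ℝ) ^ (u - 1) ≤ ((K : ℝ) / (4 * L)) ^ u / (u ! : ℝ) := by
    have h7 : L ^ u * (c * (u ! : ℝ) * 4 ^ u + 1) ≤ K := by
      have h6 : 1 / (c * (u ! : ℝ) * 4 ^ u + 1) * K = K / (c * (u ! : ℝ) * 4 ^ u + 1) := by ring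
      rw [h6, le_div_iff₀ (by positivity)] at h3
      exact h3
    have h8 : L ^ u * (c * (u ! : ℝ) * 4 ^ u) ≤ K := by
      have : 0 ≤ L ^ u := by positivity
      nlinarith
    rw [le_div_iff₀ (by positivity), div_pow, le_div_iff₀ (by positivity)]
    have h9 : (K : ℝ) ^ u = K ^ (u - 1) * K := by
      rw [← pow_succ]; congr 1; omega
    rw [h9, mul_pow]
    have h10 : (0 : ℝ) ≤ (K : ℝ) ^ (u - 1) := by positivity
    calc (c : ℝ) * (K : ℝ) ^ (u - 1) * (u ! : ℝ) * (4 ^ u * L ^ u)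
        = K ^ (u - 1) * (L ^ u * (c * (u ! : ℝ) * 4 ^ u)) := by ring
      _ ≤ K ^ (u - 1) * K := by gcongr
  have := hfin.trans hchoose
  exact_mod_cast this

theorem mu_growth (A : ℕ) : ∀ᶠ n : ℕ in atTop, n ^ A ≤ mu n := by
  have h1 := choose_primeCounting_growth (2 * A + 3) (3 ^ (2 * A) + 3) (by omega)
  obtain ⟨K0, hK0⟩ := eventually_atTop.1 h1
  filter_upwards [eventually_ge_atTop ((K0 + 2) ^ 2)] with n hn
  have hs1 : K0 + 2 ≤ Nat.sqrt n := by
    rw [Nat.le_sqrt']; exact hn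
  set K : ℕ := Nat.sqrt n - 1 with hK
  have hsK : Nat.sqrt n = K + 1 := by omega
  have hKn : K * (K + 1) ≤ n := by
    have h2 := Nat.sqrt_le' n
    rw [hsK] at h2
    nlinarith
  have hKn2 : n ≤ (K + 2) ^ 2 := by
    have h2 := Nat.lt_succ_sqrt' n
    rw [hsK] at h2
    exact h2.le
  have hK1 : 1 ≤ K := by omega
  have h2 := hK0 K (by omega)
  have h3 : (K + 2) ^ (2 * A) ≤ mu n := by
    apply reps K n (2 * A + 3) _ hKn (by omega)
    refine le_trans ?_ h2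
    have e1 : 2 * A + 3 - 1 = 2 * A + 2 := by omega
    rw [e1]
    have e2 : (K + 2) ^ (2 * A) ≤ 3 ^ (2 * A) * K ^ (2 * A) := by
      rw [← mul_pow]; exact Nat.pow_le_pow_left (by omega) _
    have e3 : K ^ (2 * A + 2) = K ^ (2 * A) * (K * K) := by ring
    have e4 : 1 ≤ K ^ (2 * A) := Nat.one_le_pow _ _ hK1
    have e5 : K ≤ K * K := by nlinarith
    have e6 : K ≤ K ^ (2 * A + 2) := by rw [e3]; nlinarith
    have e7 : 1 ≤ K ^ (2 * A + 2) := Nat.one_le_pow _ _ hK1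
    calc K * (K + 2) ^ (2 * A) + (K ^ (2 * A + 2) + 1 + K)
        ≤ K * (3 ^ (2 * A) * K ^ (2 * A)) + (K ^ (2 * A + 2) + K ^ (2 * A + 2) + K ^ (2 * A + 2)) := by
          gcongr
      _ ≤ (3 ^ (2 * A) + 3) * K ^ (2 * A + 2) := by
          have e8 : K * (3 ^ (2 * A) * K ^ (2 * A)) ≤ 3 ^ (2 * A) * K ^ (2 * A + 2) := by
            rw [e3]
            calc K * (3 ^ (2 * A) * K ^ (2 * A)) = 3 ^ (2 * A) * (K ^ (2 * A) * K) := by ring
              _ ≤ 3 ^ (2 * A) * (K ^ (2 * A) * (K * K)) := by gcongr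
          linarith
  calc n ^ A ≤ ((K + 2) ^ 2) ^ A := Nat.pow_le_pow_left hKn2 _
    _ = (K + 2) ^ (2 * A) := by rw [← pow_mul]
    _ ≤ mu n := h3

theorem D_growth (A : ℕ) : ∀ᶠ n : ℕ in atTop, n ^ A ≤ D n := by
  have h1 := mu_growth (2 * A)
  obtain ⟨N, hN⟩ := eventually_atTop.1 h1
  filter_upwards [eventually_ge_atTop (N + 10)] with n hn
  obtain ⟨m, rfl⟩ : ∃ m, n = m + 5 := ⟨n - 5, by omega⟩
  have h2 := hN m (by omega)
  have h3 := (mu_le m).trans (card_le_D m)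
  have h4 : m + 5 ≤ m ^ 2 := by nlinarith [show 5 ≤ m by omega]
  calc (m + 5) ^ A ≤ (m ^ 2) ^ A := Nat.pow_le_pow_left h4 _
    _ = m ^ (2 * A) := by rw [← pow_mul]
    _ ≤ D (m + 5) := h2.trans h3

theorem C_growth (A : ℕ) : ∀ᶠ n : ℕ in atTop, n ^ A ≤ C n :=
  (D_growth A).mono fun n h => h.trans (D_le_C n)

/-- If `f` eventually dominates `n ^ (A + 1)` then `f n / g n` tends to infinity for every `g`
that is eventually at most `n ^ A`. -/
theorem ratio_tendsto (f : ℕ → ℕ) (g : ℕ → ℝ) (A : ℕ)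
    (hf : ∀ᶠ n : ℕ in atTop, n ^ (A + 1) ≤ f n)
    (hg : ∀ᶠ n : ℕ in atTop, 0 < g n ∧ g n ≤ (n : ℝ) ^ A) :
    Tendsto (fun n : ℕ => (f n : ℝ) / g n) atTop atTop := by
  apply tendsto_atTop_mono' atTop (f₁ := fun n : ℕ => (n : ℝ))
  · filter_upwards [hf, hg] with n h1 h2
    rw [le_div_iff₀ h2.1]
    have h3 : (n : ℝ) ^ (A + 1) ≤ f n := by exact_mod_cast h1
    calc (n : ℝ) * g n ≤ (n : ℝ) * (n : ℝ) ^ A := by
          gcongr; exact h2.2
      _ = (n : ℝ) ^ (A + 1) := by ring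
      _ ≤ f n := h3
  · exact tendsto_natCast_atTop_atTop

theorem log_le_nat (n : ℕ) (hn : 2 ≤ n) : 0 < log (n : ℝ) ∧ log (n : ℝ) ≤ n := by
  have h : (2 : ℝ) ≤ n := by exact_mod_cast hn
  exact ⟨log_pos (by linarith), (log_le_sub_one_of_pos (by linarith)).trans (by linarith)⟩

theorem ratio_C : Tendsto (fun n : ℕ => (C n : ℝ) / ((n : ℝ) ^ 2 * log n)) atTop atTop := by
  apply ratio_tendsto C _ 3 (C_growth 4)
  filter_upwards [eventually_ge_atTop 2] with n hn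
  obtain ⟨h1, h2⟩ := log_le_nat n hn
  have h : (0 : ℝ) < n := by positivity
  refine ⟨by positivity, ?_⟩
  calc (n : ℝ) ^ 2 * log n ≤ (n : ℝ) ^ 2 * n := by gcongr
    _ = (n : ℝ) ^ 3 := by ring

theorem ratio_D :
    Tendsto (fun n : ℕ => (D n : ℝ) / ((n : ℝ) ^ (3 / 2 : ℝ) * √(log n))) atTop atTop := by
  apply ratio_tendsto D _ 3 (D_growth 4)
  filter_upwards [eventually_ge_atTop 2] with n hn
  obtain ⟨h1, h2⟩ := log_le_nat n hn
  have hn2 : (2 : ℝ) ≤ n := by exact_mod_cast hn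
  have h : (0 : ℝ) < n := by positivity
  refine ⟨by positivity, ?_⟩
  have h3 : (n : ℝ) ^ (3 / 2 : ℝ) ≤ (n : ℝ) ^ 2 := by
    rw [← Real.rpow_natCast (n : ℝ) 2]
    apply Real.rpow_le_rpow_of_exponent_le (by linarith)
    norm_num
  have h4 : √(log n) ≤ n := by
    rw [Real.sqrt_le_left (by linarith)]
    nlinarith
  calc (n : ℝ) ^ (3 / 2 : ℝ) * √(log n) ≤ (n : ℝ) ^ 2 * n := by gcongr
    _ = (n : ℝ) ^ 3 := by ring

theorem ratio_mu :
    Tendsto (fun n : ℕ => (mu n : ℝ) / √((n : ℝ) * log n)) atTop atTop := by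
  apply ratio_tendsto mu _ 1 (mu_growth 2)
  filter_upwards [eventually_ge_atTop 2] with n hn
  obtain ⟨h1, h2⟩ := log_le_nat n hn
  have hn2 : (2 : ℝ) ≤ n := by exact_mod_cast hn
  have h : (0 : ℝ) < n := by positivity
  refine ⟨by positivity, ?_⟩
  rw [pow_one, Real.sqrt_le_left (by linarith)]
  nlinarith

end Q154.Multinom
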