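import Pool.Agent.Q88.PS.Stm

/-!
# PS-HIT
-/

set_option autoImplicit false

open Set

namespace Pool.Agent.Q154.PSJ

open Pool.Agent.Q88.PS

theorem pr_psi (lam : ℝ) (d : D) (x : E2) : pr lam (psi d x) = (pr lam x + dl lam d) / 8 := by
  have h0 : (psi d x) 0 = (1 / 8 : ℝ) * (x 0 + da d) := by
    simp [psi, dv]
    ring
  have h1 : (psi d x) 1 = (1 / 8 : ℝ) * (x 1 + db d) := by
    simp [psi, dv]
    ring
  rw [pr, h0, h1, pr, dl]
  ring

theorem pr_psw (lam : ℝ) (w : List D) : ∀ (τ : ℝ) (x : E2), pr lam (psw w x) = τ ↔ pr lam x = res lam τ w := by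
  induction w with
  | nil =>
    intro τ x
    rfl
  | cons d w ih =>
    intro τ x
    show pr lam (psi d (psw w x)) = τ ↔ pr lam x = res lam (8 * τ - dl lam d) w
    rw [← ih (8 * τ - dl lam d) x, pr_psi]
    constructor
    · intro h
      linarith
    · intro h
      linarith

theorem psw_mem (h : S_base) (w : List D) : ∀ x ∈ KK, psw w x ∈ KK := by
  induction w with
  | nil =>
    intro x hx
    exact hx
  | cons d w ih =>
    intro x hx
    show psi d (psw w x) ∈ KK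
    rw [h.2.2.1]
    exact mem_iUnion.2 ⟨d, mem_image_of_mem _ (ih x hx)⟩

theorem hit (h : S_base) (h1 : S_intv) : S_hit := by
  intro lam hl τ w
  rw [← h1 lam hl]
  constructor
  · rintro ⟨y, ⟨-, hy⟩, x, hx, rfl⟩
    exact ⟨x, hx, (pr_psw lam w τ x).1 hy⟩
  · rintro ⟨x, hx, hx2⟩
    exact ⟨psw w x, ⟨psw_mem h w x hx, (pr_psw lam w τ x).2 hx2⟩, x, hx, rfl⟩

end Pool.Agent.Q154.PSJ
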