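import Pool.Agent.Q88.PS.Stm

/-!
# PS-STEP
-/

set_option autoImplicit false

open Set

namespace Pool.Agent.Q154.PSJ

open Pool.Agent.Q88.PS

/-- the four digits with the same second coordinate -/
theorem block {lam s : ℝ} (h1 : 1 ≤ LL lam) (b : Fin 4) (hs : s - lam * (db (0, b) : ℝ) ∈ Icc (0 : ℝ) (3 + LL lam)) :
    ∃ d : D, s - dl lam d ∈ Icc (0 : ℝ) (LL lam) := by
  obtain ⟨h2, h3⟩ := hs
  have hd : ∀ a : Fin 4, dl lam (a, b) = (a.val : ℝ) + lam * (db (0, b) : ℝ) := by
    intro a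
    rfl
  by_cases c0 : s - lam * (db (0, b) : ℝ) ≤ LL lam
  · refine ⟨(0, b), ?_⟩
    rw [hd]
    constructor
    · norm_num
      linarith
    · norm_num
      linarith
  by_cases c1 : s - lam * (db (0, b) : ℝ) ≤ 1 + LL lam
  · refine ⟨(1, b), ?_⟩
    rw [hd]
    push Not at c0
    constructor
    · norm_num
      linarith
    · norm_num
      linarith
  by_cases c2 : s - lam * (db (0, b) : ℝ) ≤ 2 + LL lam
  · refine ⟨(2, b), ?_⟩
    rw [hd]
    push Not at c1
    constructor
    · norm_num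
      linarith
    · norm_num
      linarith
  · refine ⟨(3, b), ?_⟩
    rw [hd]
    push Not at c2
    have h3' : (((3 : Fin 4).val : ℕ) : ℝ) = 3 := by norm_num
    rw [h3']
    constructor
    · linarith
    · linarith

theorem step : S_step := by
  intro lam hl y hy
  obtain ⟨hl1, hl2⟩ := hl
  obtain ⟨hy1, hy2⟩ := hy
  have hL : LL lam = (3 + 5 * lam) / 7 := rfl
  have h1 : 1 ≤ LL lam := by
    rw [hL]
    linarith
  have e0 : ((db (0, 0) : ℕ) : ℝ) = 0 := by norm_num [db]
  have e1 : ((db (0, 1) : ℕ) : ℝ) = 1 := by norm_num [db]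
  have e2 : ((db (0, 2) : ℕ) : ℝ) = 4 := by norm_num [db]
  have e3 : ((db (0, 3) : ℕ) : ℝ) = 5 := by
    have : db (0, 3) = 5 := by decide
    rw [this]
    norm_num
  by_cases c0 : 8 * y ≤ 3 + LL lam
  · apply block h1 0
    rw [e0]
    exact ⟨by linarith, by linarith⟩
  push Not at c0
  by_cases c1 : 8 * y ≤ lam + 3 + LL lam
  · apply block h1 1
    rw [e1]
    refine ⟨?_, by linarith⟩
    rw [hL] at c0
    linarith
  push Not at c1
  by_cases c2 : 8 * y ≤ 4 * lam + 3 + LL lam
  · apply block h1 2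
    rw [e2]
    refine ⟨?_, by linarith⟩
    rw [hL] at c1
    linarith
  push Not at c2
  apply block h1 3
  rw [e3]
  rw [hL] at c2 hy2 ⊢
  exact ⟨by linarith, by linarith⟩

end Pool.Agent.Q154.PSJ
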