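import Pool.Agent.Q82.QD.Stm

/-!
# Project QD (helper82), MP_af5b7f_an: job LOW

The lower bound for the profile.
-/

set_option autoImplicit false

open MeasureTheory Filter Topology Real Set

namespace Pool.Agent.Q82.QD

theorem low_inner_cont (f : ℝ → ℝ) (hf : Continuous f) :
    Continuous (fun t : ℝ => ∫ θ in (0 : ℝ)..1, θ / 4 * f (θ * t)) := by
  apply intervalIntegral.continuous_parametric_intervalIntegral_of_continuous'
  unfold Function.uncurry
  fun_prop

theorem low_lin (f g : ℝ → ℝ) (hf : Continuous f) (hg : Continuous g) (c s : ℝ) :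
    Lop (fun t => f t + c * g t) s = Lop f s + c * Lop g s := by
  unfold Lop
  have h1 : ∀ t : ℝ, (∫ θ in (0 : ℝ)..1, θ / 4 * (f (θ * t) + c * g (θ * t))) =
      (∫ θ in (0 : ℝ)..1, θ / 4 * f (θ * t)) + c * ∫ θ in (0 : ℝ)..1, θ / 4 * g (θ * t) := by
    intro t
    rw [← intervalIntegral.integral_const_mul, ← intervalIntegral.integral_add]
    · apply intervalIntegral.integral_congr
      intro θ _
      ring
    · exact (by fun_prop : Continuous fun θ : ℝ => θ / 4 * f (θ * t)).intervalIntegrable _ _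
    · exact (by fun_prop : Continuous fun θ : ℝ => c * (θ / 4 * g (θ * t))).intervalIntegrable _ _
  simp_rw [h1]
  rw [intervalIntegral.integral_add, intervalIntegral.integral_const_mul]
  · exact (low_inner_cont f hf).intervalIntegrable _ _
  · exact ((low_inner_cont g hg).const_mul c).intervalIntegrable _ _

theorem low_inner_exp (t : ℝ) (ht : 0 ≤ t) :
    (∫ θ in (0 : ℝ)..1, θ / 4 * Real.exp (3 * (θ * t))) ≤ Real.exp (3 * t) / 8 := by
  have h1 : (∫ θ in (0 : ℝ)..1, θ / 4 * Real.exp (3 * (θ * t))) ≤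
      ∫ θ in (0 : ℝ)..1, θ / 4 * Real.exp (3 * t) := by
    apply intervalIntegral.integral_mono_on (by norm_num)
    · exact (by fun_prop : Continuous fun θ : ℝ => θ / 4 * Real.exp (3 * (θ * t))).intervalIntegrable _ _
    · exact (by fun_prop : Continuous fun θ : ℝ => θ / 4 * Real.exp (3 * t)).intervalIntegrable _ _
    · intro θ hθ
      have h2 : θ * t ≤ t := by nlinarith [hθ.1, hθ.2]
      have h3 : Real.exp (3 * (θ * t)) ≤ Real.exp (3 * t) := Real.exp_le_exp.2 (by linarith)
      exact mul_le_mul_of_nonneg_left h3 (by linarith [hθ.1])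
  have h2 : (∫ θ in (0 : ℝ)..1, θ / 4 * Real.exp (3 * t)) = Real.exp (3 * t) / 8 := by
    rw [intervalIntegral.integral_mul_const, intervalIntegral.integral_div, integral_id]
    ring
  linarith

theorem low_exp (s : ℝ) (hs : 0 ≤ s) :
    Lop (fun t => Real.exp (3 * t)) s ≤ (Real.exp (3 * s) - 1) / 24 := by
  unfold Lop
  have h1 : (∫ t in (0 : ℝ)..s, ∫ θ in (0 : ℝ)..1, θ / 4 * Real.exp (3 * (θ * t))) ≤
      ∫ t in (0 : ℝ)..s, Real.exp (3 * t) / 8 := by
    apply intervalIntegral.integral_mono_on hs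
    · exact (low_inner_cont (fun t => Real.exp (3 * t)) (by fun_prop)).intervalIntegrable _ _
    · exact (by fun_prop : Continuous fun t : ℝ => Real.exp (3 * t) / 8).intervalIntegrable _ _
    · intro t ht
      exact low_inner_exp t ht.1
  have h2 : (∫ t in (0 : ℝ)..s, Real.exp (3 * t) / 8) = (Real.exp (3 * s) - 1) / 24 := by
    have h3 : ∀ t ∈ Set.uIcc 0 s, HasDerivAt (fun t : ℝ => Real.exp (3 * t) / 24)
        (Real.exp (3 * t) / 8) t := by
      intro t _
      have h4 : HasDerivAt (fun t : ℝ => 3 * t) 3 t := by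
        simpa using (hasDerivAt_id t).const_mul (3 : ℝ)
      have h5 := (h4.exp).div_const 24
      have h6 : Real.exp (3 * t) * 3 / 24 = Real.exp (3 * t) / 8 := by ring
      rw [h6] at h5
      exact h5
    rw [intervalIntegral.integral_eq_sub_of_hasDerivAt h3
      ((by fun_prop : Continuous fun t : ℝ => Real.exp (3 * t) / 8).intervalIntegrable _ _)]
    simp
    ring
  linarith

theorem low_zero (s : ℝ) : Lop (fun _ => 0) s = 0 := by
  unfold Lop
  simp

theorem low_exp2 (h1 : S_LOP) (s : ℝ) (hs : 0 ≤ s) :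
    Lop (Lop (fun t => Real.exp (3 * t))) s ≤ (Real.exp (3 * s) - 1) / 576 := by
  have hE : Continuous (fun t : ℝ => Real.exp (3 * t)) := by fun_prop
  have h2 := (h1 (Lop fun t => Real.exp (3 * t)) (h1 _ hE).1).2.2.2
    (fun t => 0 + 1 / 24 * Real.exp (3 * t)) (by fun_prop) s hs (by
      intro t ht _
      have h3 := low_exp t ht
      linarith)
  rw [low_lin (fun _ => 0) (fun t => Real.exp (3 * t)) continuous_const hE, low_zero] at h2
  have h4 := low_exp s hs
  linarith

theorem low (h1 : S_LOP) (h2 : S_SPH) : S_LOW := by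
  intro F hF s₁ hs₁
  by_contra hcon
  push Not at hcon
  obtain ⟨hFc, hFe, hFu⟩ := hF
  set f : ℝ → ℝ := fun t => 6 * Real.exp (4 * F t) with hf
  set g : ℝ → ℝ := fun t => 96 / (1 + |t|) ^ 4 with hg
  set D : ℝ → ℝ := fun t => Real.exp (3 * t) with hD
  have hfc : Continuous f := by fun_prop
  have hDc : Continuous D := by fun_prop
  have hgc : Continuous g := by
    refine Continuous.div continuous_const (by fun_prop) ?_
    intro t
    have : 0 < 1 + |t| := by positivity
    positivity
  set d : ℝ → ℝ := fun t => Real.log 2 - Real.log (1 + |t|) - F t with hd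
  have hdc : Continuous d := by
    have : Continuous fun t : ℝ => Real.log (1 + |t|) := by
      refine Continuous.log (by fun_prop) ?_
      intro t
      have : 0 < 1 + |t| := by positivity
      exact this.ne'
    fun_prop
  have hqq : 0 < qq := by unfold qq; norm_num
  have hd0 : ∀ t, 0 ≤ t → 0 ≤ d t := by
    intro t ht
    have h3 := hFu t ht
    simp only [hd, abs_of_nonneg ht]
    have : 0 ≤ qq * t := by positivity
    linarith
  -- the identity
  have hid : ∀ t, 0 ≤ t → d t = qq * t + Lop (Lop g) t - Lop (Lop f) t := by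
    intro t ht
    have h3 := hFe t ht
    have h4 := h2 t ht
    simp only [hd, abs_of_nonneg ht]
    rw [h3, h4]
    ring
  -- first time
  have hcl : IsCompact {t : ℝ | t ∈ Set.Icc 0 s₁ ∧ qq * D t ≤ d t} := by
    have : {t : ℝ | t ∈ Set.Icc 0 s₁ ∧ qq * D t ≤ d t} =
        Set.Icc 0 s₁ ∩ {t | qq * D t ≤ d t} := rfl
    rw [this]
    exact isCompact_Icc.inter_right (isClosed_le (by fun_prop) hdc)
  have hne : ({t : ℝ | t ∈ Set.Icc 0 s₁ ∧ qq * D t ≤ d t}).Nonempty := by
    refine ⟨s₁, ⟨hs₁, le_refl _⟩, ?_⟩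
    simp only [hd, hD, abs_of_nonneg hs₁]
    linarith
  obtain ⟨s, ⟨⟨hs0, hs1⟩, hsd⟩, hmin⟩ := hcl.exists_isLeast hne
  have hlt : ∀ t, 0 ≤ t → t < s → d t < qq * D t := by
    intro t ht hts
    by_contra h
    push Not at h
    have := hmin ⟨⟨ht, hts.le.trans hs1⟩, h⟩
    linarith
  have hspos : 0 < s := by
    rcases hs0.eq_or_lt with h | h
    · exfalso
      rw [← h] at hsd
      have h3 := hid 0 le_rfl
      have h4 : Lop (Lop g) 0 = 0 := by unfold Lop; simp
      have h5 : Lop (Lop f) 0 = 0 := by unfold Lop; simp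
      rw [h4, h5] at h3
      have h6 : D 0 = 1 := by simp [hD]
      rw [h6] at hsd
      linarith
    · exact h
  have hle : ∀ t, 0 ≤ t → t ≤ s → d t ≤ qq * D t := by
    intro t ht hts
    rcases hts.eq_or_lt with h | h
    · subst h
      have hcls : t ∈ closure (Set.Ico 0 t) := by
        rw [closure_Ico hspos.ne]
        exact ⟨ht, le_rfl⟩
      have hsub : closure (Set.Ico 0 t) ⊆ {x | d x ≤ qq * D x} := by
        apply closure_minimal
        · intro x hx
          exact (hlt x hx.1 hx.2).le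
        · exact isClosed_le hdc (by fun_prop)
      exact hsub hcls
    · exact (hlt t ht h).le
  -- comparison
  have hcmp : ∀ t, 0 ≤ t → t ≤ s → g t ≤ f t + (384 * qq) * D t := by
    intro t ht hts
    have h3 := hle t ht hts
    have h4 := hd0 t ht
    have hpos : 0 < 1 + t := by linarith
    have h5 : f t = 96 / (1 + t) ^ 4 * Real.exp (-(4 * d t)) := by
      have h6 : 4 * F t = Real.log ((2 / (1 + t)) ^ 4) + -(4 * d t) := by
        rw [Real.log_pow, Real.log_div (by norm_num) hpos.ne']
        simp only [hd, abs_of_nonneg ht]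
        push_cast
        ring
      simp only [hf]
      rw [h6, Real.exp_add, Real.exp_log (by positivity)]
      field_simp
      norm_num
    have h6 : 1 - 4 * d t ≤ Real.exp (-(4 * d t)) := by
      have := Real.add_one_le_exp (-(4 * d t))
      linarith
    have h7 : (1 : ℝ) ≤ (1 + t) ^ 4 := one_le_pow₀ (by linarith)
    have h8 : 96 / (1 + t) ^ 4 ≤ 96 := div_le_self (by norm_num) h7
    have h9 : 0 < 96 / (1 + t) ^ 4 := by positivity
    have h10 : 96 / (1 + t) ^ 4 * (1 - 4 * d t) ≤ f t := by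
      rw [h5]
      exact mul_le_mul_of_nonneg_left h6 h9.le
    have h11 : g t = 96 / (1 + t) ^ 4 := by simp only [hg, abs_of_nonneg ht]
    rw [h11]
    have h12 : 96 / (1 + t) ^ 4 * (4 * d t) ≤ 96 * (4 * (qq * D t)) := by
      apply mul_le_mul h8 (by linarith) (by linarith) (by norm_num)
    nlinarith [h10, h12]
  have hLf := (h1 f hfc).1
  have hLg := (h1 g hgc).1
  have hLD := (h1 D hDc).1
  have hstep : ∀ t, 0 ≤ t → t ≤ s → Lop g t ≤ Lop f t + (384 * qq) * Lop D t := by
    intro t ht hts
    have h3 := (h1 g hgc).2.2.2 (fun x => f x + (384 * qq) * D x) (by fun_prop) t ht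
      (fun x hx hxt => hcmp x hx (hxt.trans hts))
    rw [low_lin f D hfc hDc] at h3
    exact h3
  have hstep2 : Lop (Lop g) s ≤ Lop (Lop f) s + (384 * qq) * Lop (Lop D) s := by
    have h3 := (h1 (Lop g) hLg).2.2.2 (fun x => Lop f x + (384 * qq) * Lop D x)
      (by fun_prop) s hs0 hstep
    rw [low_lin (Lop f) (Lop D) hLf hLD] at h3
    exact h3
  have h3 := low_exp2 h1 s hs0
  have h4 := hid s hs0
  have h5 : 3 * s + 1 ≤ D s := by
    have := Real.add_one_le_exp (3 * s)
    simpa [hD] using this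
  have h6 : Lop (Lop D) s ≤ (D s - 1) / 576 := h3
  have h7 : (384 * qq) * Lop (Lop D) s ≤ (384 * qq) * ((D s - 1) / 576) :=
    mul_le_mul_of_nonneg_left h6 (by positivity)
  have h8 : qq * D s ≤ qq * s + (384 * qq) * ((D s - 1) / 576) := by linarith
  have h9 : qq * (3 * s + 1) ≤ qq * D s := mul_le_mul_of_nonneg_left h5 hqq.le
  nlinarith [h8, h9, hqq]

end Pool.Agent.Q82.QD
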