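import Pool.Agent.Q16.SQ.Stm2

/-!
# Project SQ (helper16), MP_a03157_co: job F3

The third family: the tile is commensurable and the triangle is in the family.
-/

set_option autoImplicit false

open scoped BigOperators
open Pool.Agent.Helper549.Tri

namespace Q16.SQ

namespace F3

theorem num_nat (q : ℚ) (hq : 0 < q) : ∃ n : ℕ, 0 < n ∧ (q.den : ℝ) * (q : ℝ) = n := by
  refine ⟨q.num.toNat, ?_, ?_⟩
  · have := Rat.num_pos.2 hq
    omega
  · have h1 : ((q.num.toNat : ℕ) : ℤ) = q.num := Int.toNat_of_nonneg (Rat.num_pos.2 hq).le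
    have h2 : (q.den : ℚ) * q = q.num := Rat.den_mul_eq_num q
    have h3 : ((q.den : ℚ) * q : ℚ) = (q.num.toNat : ℕ) := by
      rw [h2]
      exact_mod_cast h1.symm
    exact_mod_cast congrArg (fun t : ℚ => (t : ℝ)) h3

theorem den3 (x y z : ℝ) (qx qy qz : ℚ) (hx : x = qx) (hy : y = qy) (hz : z = qz)
    (hx0 : 0 < x) (hy0 : 0 < y) (hz0 : 0 < z) :
    ∃ D a b c : ℕ, 0 < D ∧ 0 < a ∧ 0 < b ∧ 0 < c ∧ (D : ℝ) * x = a ∧ (D : ℝ) * y = b ∧
      (D : ℝ) * z = c := by
  have px : 0 < qx := by rw [hx] at hx0; exact_mod_cast hx0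
  have py : 0 < qy := by rw [hy] at hy0; exact_mod_cast hy0
  have pz : 0 < qz := by rw [hz] at hz0; exact_mod_cast hz0
  obtain ⟨a, ha, ha'⟩ := num_nat qx px
  obtain ⟨b, hb, hb'⟩ := num_nat qy py
  obtain ⟨c, hc, hc'⟩ := num_nat qz pz
  have dx := qx.den_pos
  have dy := qy.den_pos
  have dz := qz.den_pos
  refine ⟨qx.den * (qy.den * qz.den), a * (qy.den * qz.den), b * (qx.den * qz.den),
    c * (qx.den * qy.den), by positivity, by positivity, by positivity, by positivity, ?_, ?_, ?_⟩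
  · rw [hx]
    push_cast
    rw [← ha']
    ring
  · rw [hy]
    push_cast
    rw [← hb']
    ring
  · rw [hz]
    push_cast
    rw [← hc']
    ring

end F3

theorem t_F3 (h : S_SH3) : S_F3 := by
  intro N ℓ θ S A κ β hD hN hκ
  obtain ⟨hc, r, hr, hS0, hS1, hS2, hA⟩ := h hD hκ
  have ha := hD.lpos 0
  have hb := hD.lpos 1
  have hcp := hD.lpos 2
  obtain ⟨M, -, -, hM, -⟩ := hD.char ![1, -1, 1] (by intro k; fin_cases k <;> simp) (by simp)
    ⟨2, by rw [hκ]; simp [K3, Fin.sum_univ_three]⟩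
    (by rw [hκ]; simp [K3, Fin.sum_univ_three, Fin.prod_univ_three])
  obtain ⟨M', -, -, hM', -⟩ := hD.char ![-1, 1, 1] (by intro k; fin_cases k <;> simp) (by simp)
    ⟨2, by rw [hκ]; simp [K3, Fin.sum_univ_three]⟩
    (by rw [hκ]; simp [K3, Fin.sum_univ_three, Fin.prod_univ_three])
  rw [hκ] at hM hM'
  simp [K3, Fin.sum_univ_three, Fin.prod_univ_three] at hM hM'
  set a := ℓ 0 with hadef
  set b := ℓ 1 with hbdef
  set c := ℓ 2 with hcdef
  have hbc : b < c := by nlinarith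
  have hac : a < c := by nlinarith
  have e1 : r * a + 2 * (r * b) + r * c = M := by
    have h1 : (a - b + c) * (r * a + 2 * (r * b) + r * c) = (a - b + c) * M := by
      have : S 0 + S 1 - S 2 = M * (a - b + c) := by linarith
      rw [hS0, hS1, hS2] at this
      linear_combination this + 2 * r * hc
    have hne : a - b + c ≠ 0 := by
      have : 0 < a - b + c := by linarith
      exact this.ne'
    exact mul_left_cancel₀ hne h1
  have e2 : r * a + 2 * (r * b) - r * c = M' := by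
    have h1 : (-a + b + c) * (r * a + 2 * (r * b) - r * c) = (-a + b + c) * M' := by
      have : -S 0 + S 1 + S 2 = M' * (-a + b + c) := by linarith
      rw [hS0, hS1, hS2] at this
      linear_combination this - 2 * r * hc
    have hne : -a + b + c ≠ 0 := by
      have : 0 < -a + b + c := by linarith
      exact this.ne'
    exact mul_left_cancel₀ hne h1
  set x := r * a with hx
  set y := r * b with hy
  set z := r * c with hz
  have hx0 : 0 < x := mul_pos hr ha
  have hy0 : 0 < y := mul_pos hr hb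
  have hz0 : 0 < z := mul_pos hr hcp
  have f1 : z ^ 2 = x ^ 2 + x * y + y ^ 2 := by
    rw [hx, hy, hz]
    linear_combination r ^ 2 * hc
  have f2 : (N : ℝ) = 3 * (x + y) * (2 * x + y) := by
    rw [hx, hy, hA]
    ring
  have hv0 : 0 < x + 2 * y := by linarith
  have gz : z = (((M - M' : ℚ) / 2 : ℚ) : ℝ) := by
    push_cast
    linarith
  have gv : x + 2 * y = (((M + M' : ℚ) / 2 : ℚ) : ℝ) := by
    push_cast
    linarith
  have gy : y = (((((M + M' : ℚ) / 2) ^ 2 + ((M - M' : ℚ) / 2) ^ 2 - N / 3) /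
      (2 * ((M + M' : ℚ) / 2)) : ℚ) : ℝ) := by
    have h1 : y = ((x + 2 * y) ^ 2 + z ^ 2 - N / 3) / (2 * (x + 2 * y)) := by
      rw [eq_div_iff (by positivity), f1, f2]
      ring
    rw [h1, gv, gz]
    push_cast
    ring
  have gx : x = (((M + M' : ℚ) / 2 - 2 * (((((M + M' : ℚ) / 2) ^ 2 + ((M - M' : ℚ) / 2) ^ 2 - N / 3) /
      (2 * ((M + M' : ℚ) / 2)))) : ℚ) : ℝ) := by
    rw [Rat.cast_sub, Rat.cast_mul, ← gy, ← gv]
    push_cast
    ring
  obtain ⟨D, a', b', c', hD0, ha0, hb0, hc0, ka, kb, kc⟩ := F3.den3 x y z _ _ _ gx gy gz hx0 hy0 hz0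
  have hDr : (0 : ℝ) < D := by exact_mod_cast hD0
  refine ⟨0, 1, 2, by decide, by decide, by decide, 3 * a' * (a' + b'), (2 * a' + b') * c', c' ^ 2,
    ⟨a', b', c', ha0, hb0, hc0, Or.inr ⟨?_, Or.inl ⟨rfl, rfl, rfl, ?_⟩⟩⟩,
    1 / (r * D ^ 2), by positivity, ?_, ?_, ?_⟩
  · have h1 : ((c' : ℝ)) ^ 2 = (a' : ℝ) ^ 2 + a' * b' + (b' : ℝ) ^ 2 := by
      rw [← ka, ← kb, ← kc]
      linear_combination D ^ 2 * f1
    exact_mod_cast h1
  · intro hsq
    apply hN
    have h1 : 3 * (a' + b') * (2 * a' + b') = D ^ 2 * N := by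
      have h2 : (3 * ((a' : ℝ) + b') * (2 * a' + b')) = D ^ 2 * N := by
        rw [← ka, ← kb, f2]
        ring
      exact_mod_cast h2
    rw [h1] at hsq
    obtain ⟨w, hw⟩ := hsq
    have h3 : D ∣ w := by
      have : D ^ 2 ∣ w ^ 2 := ⟨N, by rw [sq w, ← hw]⟩
      exact (Nat.pow_dvd_pow_iff (by norm_num)).1 this
    obtain ⟨u, rfl⟩ := h3
    refine ⟨u, ?_⟩
    have h4 : D ^ 2 * N = D ^ 2 * (u * u) := by
      rw [hw]
      ring
    exact Nat.eq_of_mul_eq_mul_left (by positivity) h4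
  · push_cast
    rw [hS0, ← ka, ← kb, hx, hy]
    field_simp
  · push_cast
    rw [hS1, ← ka, ← kb, ← kc, hx, hy, hz]
    field_simp
  · push_cast
    rw [hS2, ← kc, hz]
    field_simp

end Q16.SQ
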