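import Pool.Agent.Q16.SQ.Stm

/-!
# Project SQ (helper16), MP_a03157_co: job ISOM

Congruent triples of points of the plane are related by an isometry.
-/

set_option autoImplicit false

open scoped BigOperators
open Pool.Agent.Helper549.Tri Module

namespace Q16.SQ

namespace Isom

theorem inner_dist (A B C : E2) :
    inner ℝ (B - A) (C - A) = (dist A B ^ 2 + dist A C ^ 2 - dist B C ^ 2) / 2 := by
  have h := norm_sub_sq_real (B - A) (C - A)
  have e : (B - A) - (C - A) = B - C := by abel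
  rw [e] at h
  rw [dist_comm A B, dist_comm A C, dist_eq_norm, dist_eq_norm, dist_eq_norm]
  linarith

theorem iso (P Q : Fin 3 → E2) (hP : AffineIndependent ℝ P)
    (hd : ∀ i j, dist (P i) (P j) = dist (Q i) (Q j)) :
    ∃ L : E2 ≃ₗᵢ[ℝ] E2, ∀ i, L (P i - P 0) = Q i - Q 0 := by
  have hli : LinearIndependent ℝ (fun i : Fin 2 => P i.succ - P 0) := by
    have h1 := (affineIndependent_iff_linearIndependent_vsub ℝ P 0).1 hP
    have h2 := h1.comp (fun i : Fin 2 => (⟨i.succ, Fin.succ_ne_zero i⟩ : {x : Fin 3 // x ≠ 0}))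
      (by
        intro i j hij
        have := congrArg Subtype.val hij
        exact Fin.succ_injective _ this)
    exact h2
  let b : Basis (Fin 2) ℝ E2 := basisOfLinearIndependentOfCardEqFinrank hli (by simp)
  have hb : ∀ i, b i = P i.succ - P 0 := fun i => by
    simp [b]
  let L0 : E2 →ₗ[ℝ] E2 := b.constr ℝ (fun i : Fin 2 => Q i.succ - Q 0)
  have hL0 : ∀ i, L0 (P (Fin.succ i) - P 0) = Q (Fin.succ i) - Q 0 := by
    intro i
    rw [← hb i]
    exact b.constr_basis ℝ _ i
  have hin : ∀ i j : Fin 2, inner ℝ (Q i.succ - Q 0) (Q j.succ - Q 0) =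
      inner ℝ (P i.succ - P 0) (P j.succ - P 0) := by
    intro i j
    rw [inner_dist, inner_dist, hd, hd, hd]
  have hnorm : ∀ x, ‖L0 x‖ = ‖x‖ := by
    intro x
    have h1 : L0 x = ∑ i, b.equivFun x i • (Q i.succ - Q 0) := b.constr_apply_fintype ℝ _ x
    have h2 : x = ∑ i, b.equivFun x i • (P i.succ - P 0) := by
      conv_lhs => rw [← b.sum_equivFun x]
      exact Finset.sum_congr rfl fun i _ => by rw [hb i]
    have h3 : inner ℝ (L0 x) (L0 x) = inner ℝ x x := by
      rw [h1]
      conv_rhs => rw [h2]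
      simp only [sum_inner, inner_sum, real_inner_smul_left, real_inner_smul_right, hin]
    rw [real_inner_self_eq_norm_sq, real_inner_self_eq_norm_sq] at h3
    have h4 := congrArg Real.sqrt h3
    rwa [Real.sqrt_sq (norm_nonneg _), Real.sqrt_sq (norm_nonneg _)] at h4
  let L1 : E2 →ₗᵢ[ℝ] E2 := ⟨L0, hnorm⟩
  refine ⟨L1.toLinearIsometryEquiv rfl, ?_⟩
  intro i
  rw [LinearIsometry.coe_toLinearIsometryEquiv]
  refine Fin.cases ?_ (fun j => ?_) i
  · rw [sub_self, sub_self, map_zero]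
  · exact hL0 j

end Isom

theorem t_ISOM : S_ISOM := by
  intro P Q hP hd
  obtain ⟨L, hL⟩ := Isom.iso P Q hP hd
  let A : E2 ≃ᵃⁱ[ℝ] E2 := AffineIsometryEquiv.mk' (fun x => L (x - P 0) + Q 0) L (P 0) (by
    intro x
    simp)
  have hA : ∀ x, A x = L (x - P 0) + Q 0 := fun x => rfl
  refine ⟨A.toIsometryEquiv, ?_⟩
  have h1 : (A.toIsometryEquiv : E2 → E2) '' TriSet P =
      (A.toAffineEquiv.toAffineMap : E2 → E2) '' convexHull ℝ (Set.range P) := rfl
  rw [h1, AffineMap.image_convexHull, ← Set.range_comp]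
  unfold TriSet
  congr 1
  ext z
  simp only [Set.mem_range, Function.comp_apply]
  have h2 : ∀ i, A.toAffineEquiv.toAffineMap (P i) = Q i := by
    intro i
    change A (P i) = Q i
    rw [hA, hL]
    abel
  constructor
  · rintro ⟨i, rfl⟩
    exact ⟨i, (h2 i).symm⟩
  · rintro ⟨i, rfl⟩
    exact ⟨i, h2 i⟩

end Q16.SQ
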