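import Pool.Agent.Q16.SQ.Stm4

/-! Right triangles with rational angles (job RX of project SQ, helper16). -/

set_option autoImplicit false

namespace Q16.SQ

open Pool.Agent.Helper549.Tri

theorem RX.sq_ne_three (q : ℚ) : (q : ℝ) ^ 2 ≠ 3 := by
  intro h
  have h3 : Irrational (√(3 : ℝ)) := by
    have := Nat.Prime.irrational_sqrt (show Nat.Prime 3 by norm_num)
    exact_mod_cast this
  apply h3
  refine ⟨|q|, ?_⟩
  push_cast
  rw [← h, Real.sqrt_sq_eq_abs]

theorem t_RX : S_RX := by
  intro T hT hsc hrat hX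
  obtain ⟨i, j, k, hij, hjk, hik, hi, ⟨q, hq⟩, -⟩ := hX
  obtain ⟨hpos, hsum, hsin⟩ := tri_facts hT
  have hsum' : angle T i + angle T j + angle T k = Real.pi := by
    rw [← hsum]
    fin_cases i <;> fin_cases j <;> fin_cases k <;>
      first
        | exact absurd rfl hij
        | exact absurd rfl hjk
        | exact absurd rfl hik
        | (simp only [Fin.zero_eta, Fin.mk_one, Fin.reduceFinMk, Fin.isValue] <;> ring)
  have hAk : angle T k = Real.pi / 2 - angle T j := by linarith
  have hjpos := hpos j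
  have hkpos := hpos k
  have hjlt : angle T j < Real.pi / 2 := by linarith
  have hsinj : 0 < Real.sin (angle T j) :=
    Real.sin_pos_of_pos_of_lt_pi hjpos (by linarith [Real.pi_pos])
  have hcosj : 0 < Real.cos (angle T j) :=
    Real.cos_pos_of_mem_Ioo ⟨by linarith [Real.pi_pos], hjlt⟩
  have hSk : side T k ≠ 0 := by
    intro h0
    apply hsc j k hjk
    rw [hq, h0, mul_zero]
  have hrel := hsin j k
  rw [hAk, Real.sin_pi_div_two_sub, hq] at hrel
  have hqc : (q : ℝ) * Real.cos (angle T j) = Real.sin (angle T j) := by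
    have h1 : side T k * ((q : ℝ) * Real.cos (angle T j)) =
        side T k * Real.sin (angle T j) := by
      rw [← hrel]
      ring
    exact mul_left_cancel₀ hSk h1
  have hq0 : 0 < (q : ℝ) := by
    by_contra hcon
    push Not at hcon
    have : (q : ℝ) * Real.cos (angle T j) ≤ 0 := mul_nonpos_of_nonpos_of_nonneg hcon hcosj.le
    linarith
  have h1q : (1 + (q : ℝ) ^ 2) ≠ 0 := by positivity
  have hcs := Real.sin_sq_add_cos_sq (angle T j)
  rw [← hqc] at hcs
  have hcos2 : Real.cos (angle T j) ^ 2 = 1 / (1 + (q : ℝ) ^ 2) := by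
    rw [eq_div_iff h1q]
    linarith
  have hC : Real.cos (2 * angle T j) = (1 - (q : ℝ) ^ 2) / (1 + (q : ℝ) ^ 2) := by
    rw [Real.cos_two_mul, hcos2]
    field_simp
    ring
  obtain ⟨r, hr⟩ := hrat j
  have hniv := _root_.niven (θ := 2 * angle T j) ⟨2 * r, by rw [hr]; push_cast; ring⟩
    ⟨(1 - q ^ 2) / (1 + q ^ 2), by rw [hC]; push_cast; ring⟩
  rw [hC] at hniv
  simp only [Set.mem_insert_iff, Set.mem_singleton_iff] at hniv
  rcases hniv with h | h | h | h | h
  · rw [div_eq_iff h1q] at h
    linarith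
  · rw [div_eq_iff h1q] at h
    exact RX.sq_ne_three q (by linarith)
  · rw [div_eq_iff h1q] at h
    have h2 : ((q : ℝ) - 1) * ((q : ℝ) + 1) = 0 := by linarith
    rcases mul_eq_zero.1 h2 with h3 | h3
    · apply hsc j k hjk
      have h4 : (q : ℝ) = 1 := by linarith
      rw [hq, h4, one_mul]
    · linarith
  · rw [div_eq_iff h1q] at h
    apply RX.sq_ne_three (3 * q)
    push_cast
    have : 3 * (q : ℝ) ^ 2 = 1 := by linarith
    nlinarith
  · rw [div_eq_iff h1q] at h
    have h2 : (q : ℝ) ^ 2 = 0 := by linarith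
    have h3 : 0 < (q : ℝ) ^ 2 := by positivity
    linarith

end Q16.SQ
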