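import Mathlib

/-!
# Balancing vectors modulo one with few zero coefficients
-/

namespace Q154.Signing

open Finset

/-- The scale attached to a level. -/
noncomputable def rho (R : ℕ) (l : ℕ) : ℝ := 1 / R / 4 ^ (l - 1)

/-- Level `0` means no information; level `l ≥ 1` means every coordinate is within `rho R l` of an
integer. -/
def P (R : ℕ) {k : ℕ} (v : Fin k → ℝ) (l : ℕ) : Prop :=
  l = 0 ∨ ∀ c, ∃ z : ℤ, |v c - z| ≤ rho R l

theorem rho_nonneg (R l : ℕ) : 0 ≤ rho R l := by unfold rho; positivity

theorem rho_succ (R : ℕ) {l : ℕ} (hl : 1 ≤ l) : rho R (l + 1) = rho R l / 4 := by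
  unfold rho
  obtain ⟨m, rfl⟩ : ∃ m, l = m + 1 := ⟨l - 1, by omega⟩
  simp only [Nat.add_sub_cancel]
  rw [pow_succ]
  field_simp

theorem sum_rho (R L : ℕ) : ∑ l ∈ Finset.Icc 1 L, rho R l ≤ 4 / 3 * (1 / R) := by
  have h : ∀ L : ℕ, ∑ l ∈ Finset.Icc 1 L, rho R l ≤ 4 / 3 * (1 / R) - (4 / 3) * (1 / R / 4 ^ L) := by
    intro L
    induction L with
    | zero => simp
    | succ L ih =>
      rw [Finset.sum_Icc_succ_top (by omega)]
      have h1 : rho R (L + 1) = 1 / R / 4 ^ L := by unfold rho; simp
      have h2 : (1 : ℝ) / R / 4 ^ (L + 1) = (1 / R / 4 ^ L) / 4 := by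
        rw [pow_succ]; field_simp
      rw [h1, h2]
      linarith
  have h2 : (0 : ℝ) ≤ (4 / 3) * (1 / R / 4 ^ L) := by positivity
  linarith [h L]

/-- Two vectors of the same positive level in the same cell have a difference of the next level. -/
theorem merge_pos {R k : ℕ} (hR : 0 < R) {l : ℕ} (hl : 1 ≤ l) {I : Finset ℕ} {v : ℕ → Fin k → ℝ}
    (hv : ∀ i ∈ I, P R (v i) l) (hI : 9 ^ k < I.card) :
    ∃ i ∈ I, ∃ j ∈ I, i ≠ j ∧ P R (v i - v j) (l + 1) := by
  have hρ : 0 < rho R l := by unfold rho; positivity
  set f : ℕ → Fin k → ℤ := fun i c => ⌊(v i c - round (v i c)) * 4 / rho R l⌋ with hf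
  have hmaps : ∀ i ∈ I, f i ∈ (Fintype.piFinset fun _ : Fin k => Finset.Icc (-4 : ℤ) 4) := by
    intro i hi
    rw [Fintype.mem_piFinset]
    intro c
    have h1 : |v i c - round (v i c)| ≤ rho R l := by
      rcases hv i hi with h0 | h0
      · omega
      · obtain ⟨z, hz⟩ := h0 c
        exact (round_le (v i c) z).trans hz
    rw [abs_le] at h1
    rw [Finset.mem_Icc, Int.le_floor]
    constructor
    · rw [le_div_iff₀ hρ]; push_cast; linarith
    · have h2 : (v i c - round (v i c)) * 4 / rho R l ≤ 4 := by
        rw [div_le_iff₀ hρ]; linarith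
      exact_mod_cast Int.floor_le_floor h2 |>.trans (by norm_num)
  have hcard : (Fintype.piFinset fun _ : Fin k => Finset.Icc (-4 : ℤ) 4).card < I.card := by
    rw [Fintype.card_piFinset]
    simpa using hI
  obtain ⟨i, hi, j, hj, hij, hfij⟩ := Finset.exists_ne_map_eq_of_card_lt_of_maps_to hcard hmaps
  refine ⟨i, hi, j, hj, hij, Or.inr fun c => ⟨round (v i c) - round (v j c), ?_⟩⟩
  have h1 : f i c = f j c := by rw [hfij]
  simp only [hf] at h1
  have h2 := Int.abs_sub_lt_one_of_floor_eq_floor h1
  rw [rho_succ R hl]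
  have h3 : (v i c - round (v i c)) * 4 / rho R l - (v j c - round (v j c)) * 4 / rho R l =
      ((v i c - round (v i c)) - (v j c - round (v j c))) * (4 / rho R l) := by ring
  rw [h3, abs_mul, abs_of_pos (by positivity : (0 : ℝ) < 4 / rho R l), mul_div_assoc',
    div_lt_one hρ] at h2
  have h4 : (v i - v j) c - ((round (v i c) - round (v j c) : ℤ) : ℝ) =
      (v i c - round (v i c)) - (v j c - round (v j c)) := by
    rw [Pi.sub_apply]; push_cast; ring
  rw [h4]
  linarith

/-- Two raw vectors in the same cell have a difference of level one. -/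
theorem merge_zero {R k : ℕ} (hR : 0 < R) {I : Finset ℕ} {v : ℕ → Fin k → ℝ}
    (hI : R ^ k < I.card) :
    ∃ i ∈ I, ∃ j ∈ I, i ≠ j ∧ P R (v i - v j) 1 := by
  have hR' : (0 : ℝ) < R := by exact_mod_cast hR
  set f : ℕ → Fin k → ℤ := fun i c => ⌊Int.fract (v i c) * R⌋ with hf
  have hmaps : ∀ i ∈ I, f i ∈ (Fintype.piFinset fun _ : Fin k => Finset.Ico (0 : ℤ) R) := by
    intro i _
    rw [Fintype.mem_piFinset]
    intro c
    have h1 := Int.fract_nonneg (v i c)
    have h2 := Int.fract_lt_one (v i c)
    rw [Finset.mem_Ico, Int.le_floor, Int.floor_lt]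
    push_cast
    constructor
    · positivity
    · nlinarith
  have hcard : (Fintype.piFinset fun _ : Fin k => Finset.Ico (0 : ℤ) R).card < I.card := by
    rw [Fintype.card_piFinset]
    simpa using hI
  obtain ⟨i, hi, j, hj, hij, hfij⟩ := Finset.exists_ne_map_eq_of_card_lt_of_maps_to hcard hmaps
  refine ⟨i, hi, j, hj, hij, Or.inr fun c => ⟨⌊v i c⌋ - ⌊v j c⌋, ?_⟩⟩
  have h1 : f i c = f j c := by rw [hfij]
  simp only [hf] at h1
  have h2 := Int.abs_sub_lt_one_of_floor_eq_floor h1
  have h3 : Int.fract (v i c) * R - Int.fract (v j c) * R =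
      (Int.fract (v i c) - Int.fract (v j c)) * R := by ring
  rw [h3, abs_mul, abs_of_pos hR'] at h2
  have h4 : (v i - v j) c - ((⌊v i c⌋ - ⌊v j c⌋ : ℤ) : ℝ) =
      Int.fract (v i c) - Int.fract (v j c) := by
    rw [Pi.sub_apply]; push_cast; unfold Int.fract; ring
  rw [h4]
  unfold rho
  simp only [Nat.sub_self, pow_zero, div_one]
  rw [le_div_iff₀ hR']
  exact h2.le

/-- The signing lemma. -/
theorem signing {R k : ℕ} (hR : 0 < R) : ∀ (n : ℕ) (I : Finset ℕ) (v : ℕ → Fin k → ℝ)
    (lev : ℕ → ℕ), I.card = n → (∀ i ∈ I, P R (v i) (lev i)) →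
    ∃ ε : ℕ → ℤ, (∀ i ∈ I, ε i = -1 ∨ ε i = 0 ∨ ε i = 1) ∧ (∀ i ∈ I, ε i = 0 → lev i = 0) ∧
      (I.filter fun i => ε i = 0).card ≤ R ^ k ∧
      ∀ c, ∃ z : ℤ, |∑ i ∈ I, (ε i : ℝ) * v i c - z| ≤ 9 ^ k * (4 / 3 * (1 / R)) := by
  classical
  intro n
  induction n with
  | zero =>
    intro I v lev hI _
    rw [Finset.card_eq_zero] at hI
    subst hI
    refine ⟨fun _ => 1, by simp, by simp, by simp, fun c => ⟨0, ?_⟩⟩
    simp
  | succ n ih =>
    intro I v lev hI hP
    -- a merge step
    have step : ∀ i ∈ I, ∀ j ∈ I, i ≠ j → ∀ l, P R (v i - v j) (l + 1) →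
        ∃ ε : ℕ → ℤ, (∀ i ∈ I, ε i = -1 ∨ ε i = 0 ∨ ε i = 1) ∧ (∀ i ∈ I, ε i = 0 → lev i = 0) ∧
      (I.filter fun i => ε i = 0).card ≤ R ^ k ∧
      ∀ c, ∃ z : ℤ, |∑ i ∈ I, (ε i : ℝ) * v i c - z| ≤ 9 ^ k * (4 / 3 * (1 / R)) := by
      intro i hi j hj hij l hl
      obtain ⟨ε, h1, h2, h3, h4⟩ := ih (I.erase j) (Function.update v i (v i - v j))
        (Function.update lev i (l + 1)) (by rw [Finset.card_erase_of_mem hj]; omega) (by
          intro x hx
          by_cases hxi : x = i
          · subst hxi; simpa using hl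
          · rw [Function.update_of_ne hxi, Function.update_of_ne hxi]
            exact hP x (Finset.mem_of_mem_erase hx))
      have hiI : i ∈ I.erase j := Finset.mem_erase.2 ⟨hij, hi⟩
      have hεi : ε i ≠ 0 := fun h0 => by
        have := h2 i hiI h0
        rw [Function.update_self] at this
        omega
      refine ⟨Function.update ε j (-ε i), ?_, ?_, ?_, ?_⟩
      · intro x hx
        by_cases hxj : x = j
        · subst hxj
          rw [Function.update_self]
          rcases h1 i hiI with h | h | h <;> rw [h] <;> simp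
        · rw [Function.update_of_ne hxj]
          exact h1 x (Finset.mem_erase.2 ⟨hxj, hx⟩)
      · intro x hx h0
        by_cases hxj : x = j
        · subst hxj
          rw [Function.update_self, neg_eq_zero] at h0
          exact absurd h0 hεi
        · rw [Function.update_of_ne hxj] at h0
          have h5 := h2 x (Finset.mem_erase.2 ⟨hxj, hx⟩) h0
          by_cases hxi : x = i
          · subst hxi; exact absurd h0 hεi
          · rwa [Function.update_of_ne hxi] at h5
      · refine (Finset.card_le_card ?_).trans h3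
        intro x hx
        rw [Finset.mem_filter] at hx ⊢
        by_cases hxj : x = j
        · have h0 := hx.2
          rw [hxj, Function.update_self, neg_eq_zero] at h0
          exact absurd h0 hεi
        · have h0 := hx.2
          rw [Function.update_of_ne hxj] at h0
          exact ⟨Finset.mem_erase.2 ⟨hxj, hx.1⟩, h0⟩
      · intro c
        obtain ⟨z, hz⟩ := h4 c
        refine ⟨z, ?_⟩
        have h5 : ∑ x ∈ I, ((Function.update ε j (-ε i) x : ℤ) : ℝ) * v x c =
            ∑ x ∈ I.erase j, (ε x : ℝ) * Function.update v i (v i - v j) x c := by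
          rw [← Finset.add_sum_erase I _ hj, ← Finset.add_sum_erase (I.erase j) _ hiI,
            ← Finset.add_sum_erase (I.erase j) (fun x => (ε x : ℝ) *
              Function.update v i (v i - v j) x c) hiI]
          rw [Function.update_self, Function.update_self, Function.update_of_ne hij]
          have h6 : ∑ x ∈ (I.erase j).erase i, ((Function.update ε j (-ε i) x : ℤ) : ℝ) * v x c =
              ∑ x ∈ (I.erase j).erase i, (ε x : ℝ) * Function.update v i (v i - v j) x c := by
            apply Finset.sum_congr rfl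
            intro x hx
            rw [Finset.mem_erase, Finset.mem_erase] at hx
            rw [Function.update_of_ne hx.2.1, Function.update_of_ne hx.1]
          rw [h6, Pi.sub_apply]
          push_cast
          ring
        rw [h5]
        exact hz
    by_cases hA : ∃ l, 1 ≤ l ∧ 9 ^ k < (I.filter fun i => lev i = l).card
    · obtain ⟨l, hl, hlI⟩ := hA
      obtain ⟨i, hi, j, hj, hij, h⟩ := merge_pos hR hl (v := v) (I := I.filter fun i => lev i = l)
        (by
          intro i hi
          rw [Finset.mem_filter] at hi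
          have := hP i hi.1
          rwa [hi.2] at this) hlI
      exact step i (Finset.mem_filter.1 hi).1 j (Finset.mem_filter.1 hj).1 hij l h
    by_cases hB : R ^ k < (I.filter fun i => lev i = 0).card
    · obtain ⟨i, hi, j, hj, hij, h⟩ := merge_zero hR (v := v) hB
      exact step i (Finset.mem_filter.1 hi).1 j (Finset.mem_filter.1 hj).1 hij 0 h
    push Not at hA hB
    refine ⟨fun i => if lev i = 0 then 0 else 1, ?_, ?_, ?_, ?_⟩
    · intro i _
      by_cases h : lev i = 0 <;> simp [h]
    · intro i _ h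
      by_contra h'
      simp [h'] at h
    · refine (Finset.card_le_card ?_).trans hB
      intro x hx
      rw [Finset.mem_filter] at hx ⊢
      refine ⟨hx.1, ?_⟩
      by_contra h'
      simp [h'] at hx
    · intro c
      have hz : ∀ i ∈ I, ∃ z : ℤ, lev i ≠ 0 → |v i c - z| ≤ rho R (lev i) := by
        intro i hi
        rcases hP i hi with h | h
        · exact ⟨0, fun h' => absurd h h'⟩
        · obtain ⟨z, hz⟩ := h c
          exact ⟨z, fun _ => hz⟩
      choose! z hz using hz
      set I' := I.filter fun i => lev i ≠ 0 with hI'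
      refine ⟨∑ i ∈ I', z i, ?_⟩
      have h1 : ∑ i ∈ I, (((if lev i = 0 then (0 : ℤ) else 1) : ℤ) : ℝ) * v i c =
          ∑ i ∈ I', v i c := by
        rw [hI', Finset.sum_filter]
        apply Finset.sum_congr rfl
        intro i _
        by_cases h : lev i = 0 <;> simp [h]
      rw [h1]
      push_cast
      rw [← Finset.sum_sub_distrib]
      calc |∑ i ∈ I', (v i c - z i)| ≤ ∑ i ∈ I', |v i c - z i| := Finset.abs_sum_le_sum_abs _ _
        _ ≤ ∑ i ∈ I', rho R (lev i) := by
            apply Finset.sum_le_sum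
            intro i hi
            rw [hI', Finset.mem_filter] at hi
            exact hz i hi.1 hi.2
        _ = ∑ l ∈ Finset.Icc 1 (I'.sup lev), ∑ i ∈ I' with lev i = l, rho R (lev i) := by
            rw [Finset.sum_fiberwise_of_maps_to]
            intro i hi
            rw [Finset.mem_Icc]
            refine ⟨?_, Finset.le_sup hi⟩
            rw [hI', Finset.mem_filter] at hi
            omega
        _ ≤ ∑ l ∈ Finset.Icc 1 (I'.sup lev), 9 ^ k * rho R l := by
            apply Finset.sum_le_sum
            intro l hl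
            rw [Finset.mem_Icc] at hl
            have h2 : ∑ i ∈ I' with lev i = l, rho R (lev i) =
                (I'.filter fun i => lev i = l).card * rho R l := by
              rw [Finset.sum_congr rfl (fun i hi => by rw [(Finset.mem_filter.1 hi).2]),
                Finset.sum_const, nsmul_eq_mul]
            rw [h2]
            apply mul_le_mul_of_nonneg_right _ (rho_nonneg R l)
            have h3 : (I'.filter fun i => lev i = l).card ≤ 9 ^ k := by
              refine (Finset.card_le_card ?_).trans (hA l hl.1)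
              intro x hx
              rw [Finset.mem_filter] at hx ⊢
              exact ⟨(Finset.mem_filter.1 hx.1).1, hx.2⟩
            exact_mod_cast h3
        _ = 9 ^ k * ∑ l ∈ Finset.Icc 1 (I'.sup lev), rho R l := by rw [Finset.mul_sum]
        _ ≤ 9 ^ k * (4 / 3 * (1 / R)) := by
            apply mul_le_mul_of_nonneg_left (sum_rho R _) (by positivity)

end Q154.Signing
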