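import Pool.Agent.Q256.UG.Stm

/-! # Project UG (helper256), job CL1 -/

set_option autoImplicit false

namespace Pool.Agent.Q154.UG

open Finset Pool.Agent.Q256.UG

lemma choose_taylor (d i j : ℕ) (hi : i ≤ d) (t z : ℝ) :
    ((i.choose j : ℕ) : ℝ) * t ^ (i - j) = ∑ l ∈ range (d + 1),
      ((l.choose j : ℕ) : ℝ) * ((i.choose l : ℕ) : ℝ) * z ^ (i - l) * (t - z) ^ (l - j) := by
  rcases lt_or_ge i j with hij | hij
  · rw [Nat.choose_eq_zero_of_lt hij]
    symm
    rw [Nat.cast_zero, zero_mul]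
    apply Finset.sum_eq_zero
    intro l _
    rcases lt_or_ge l j with h | h
    · rw [Nat.choose_eq_zero_of_lt h]; simp
    · rw [Nat.choose_eq_zero_of_lt (lt_of_lt_of_le hij h)]; simp
  · have h1 : t ^ (i - j) = ∑ m ∈ range (i - j + 1),
        (t - z) ^ m * z ^ (i - j - m) * (((i - j).choose m : ℕ) : ℝ) := by
      rw [← add_pow, sub_add_cancel]
    rw [h1, Finset.mul_sum]
    have h2 : ∑ l ∈ range (d + 1),
        ((l.choose j : ℕ) : ℝ) * ((i.choose l : ℕ) : ℝ) * z ^ (i - l) * (t - z) ^ (l - j) =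
        ∑ l ∈ (range (i - j + 1)).image (fun m => j + m),
        ((l.choose j : ℕ) : ℝ) * ((i.choose l : ℕ) : ℝ) * z ^ (i - l) * (t - z) ^ (l - j) := by
      symm
      apply Finset.sum_subset
      · intro l hl
        obtain ⟨m, hm, rfl⟩ := Finset.mem_image.1 hl
        rw [Finset.mem_range] at hm ⊢
        omega
      · intro l _ hn
        rcases lt_or_ge l j with h | h
        · rw [Nat.choose_eq_zero_of_lt h]; simp
        · have : i < l := by
            by_contra hcon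
            apply hn
            exact Finset.mem_image.2 ⟨l - j, Finset.mem_range.2 (by omega), by omega⟩
          rw [Nat.choose_eq_zero_of_lt this]; simp
    rw [h2, Finset.sum_image (fun x _ y _ h => by simpa using h)]
    apply Finset.sum_congr rfl
    intro m hm
    rw [Finset.mem_range] at hm
    have h3 : i.choose (j + m) * (j + m).choose j = i.choose j * (i - j).choose m := by
      have h4 := Nat.choose_mul (n := i) (k := j + m) (s := j) (by omega)
      rwa [Nat.add_sub_cancel_left] at h4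
    have h5 : ((i.choose (j + m) : ℕ) : ℝ) * (((j + m).choose j : ℕ) : ℝ) =
        ((i.choose j : ℕ) : ℝ) * (((i - j).choose m : ℕ) : ℝ) := by exact_mod_cast h3
    have h6 : i - (j + m) = i - j - m := by omega
    have h7 : j + m - j = m := by omega
    rw [h6, h7]
    calc ((i.choose j : ℕ) : ℝ) * ((t - z) ^ m * z ^ (i - j - m) * (((i - j).choose m : ℕ) : ℝ))
        = (((i.choose j : ℕ) : ℝ) * (((i - j).choose m : ℕ) : ℝ)) *
          ((t - z) ^ m * z ^ (i - j - m)) := by ring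
      _ = _ := by rw [← h5]; ring

lemma pv_taylor (d : ℕ) (c : Fin (d + 1) → ℤ) (j : ℕ) (t z : ℝ) :
    pv d c j t = ∑ l ∈ range (d + 1), ((l.choose j : ℕ) : ℝ) * pv d c l z * (t - z) ^ (l - j) := by
  unfold pv
  have h1 : ∀ i : Fin (d + 1), (c i : ℝ) * ((i : ℕ).choose j : ℝ) * t ^ ((i : ℕ) - j) =
      ∑ l ∈ range (d + 1), (c i : ℝ) * (((l.choose j : ℕ) : ℝ) * (((i : ℕ).choose l : ℕ) : ℝ) *
        z ^ ((i : ℕ) - l) * (t - z) ^ (l - j)) := by
    intro i
    rw [← Finset.mul_sum, ← choose_taylor d i j (by have := i.2; omega) t z]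
    ring
  rw [Finset.sum_congr rfl (fun i _ => h1 i), Finset.sum_comm]
  apply Finset.sum_congr rfl
  intro l _
  rw [Finset.mul_sum, Finset.sum_mul]
  apply Finset.sum_congr rfl
  intro i _
  ring

lemma pv_le (d H : ℕ) (c : Fin (d + 1) → ℤ) (hc : c ∈ Vc d H) (l : ℕ) (z : ℝ) (hz : |z| ≤ 2) :
    |pv d c l z| ≤ ((d : ℝ) + 1) * 4 ^ d * H := by
  unfold pv
  refine (Finset.abs_sum_le_sum_abs _ _).trans ?_
  have h1 : ∀ i ∈ (univ : Finset (Fin (d + 1))),
      |(c i : ℝ) * ((i : ℕ).choose l : ℝ) * z ^ ((i : ℕ) - l)| ≤ 4 ^ d * (H : ℝ) := by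
    intro i _
    rw [abs_mul, abs_mul, abs_pow, Nat.abs_cast]
    have e1 : |(c i : ℝ)| ≤ H := by
      have := hc i
      have h2 : ((|c i| : ℤ) : ℝ) ≤ ((H : ℤ) : ℝ) := by exact_mod_cast this
      simpa using h2
    have e2 : (((i : ℕ).choose l : ℕ) : ℝ) ≤ 2 ^ d := by
      have h2 : (i : ℕ).choose l ≤ 2 ^ (i : ℕ) := Nat.choose_le_two_pow _ _
      have h3 : 2 ^ (i : ℕ) ≤ 2 ^ d := Nat.pow_le_pow_right (by norm_num) (by have := i.2; omega)
      exact_mod_cast h2.trans h3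
    have e3 : |z| ^ ((i : ℕ) - l) ≤ 2 ^ d := by
      calc |z| ^ ((i : ℕ) - l) ≤ 2 ^ ((i : ℕ) - l) := pow_le_pow_left₀ (abs_nonneg z) hz _
        _ ≤ 2 ^ d := pow_le_pow_right₀ (by norm_num) (by have := i.2; omega)
    calc |(c i : ℝ)| * (((i : ℕ).choose l : ℕ) : ℝ) * |z| ^ ((i : ℕ) - l)
        ≤ (H : ℝ) * 2 ^ d * 2 ^ d := by
          apply mul_le_mul _ e3 (by positivity) (by positivity)
          exact mul_le_mul e1 e2 (by positivity) (by positivity)
      _ = 4 ^ d * H := by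
          have : (4 : ℝ) = 2 * 2 := by norm_num
          rw [this, mul_pow]; ring
  refine (Finset.sum_le_sum h1).trans ?_
  rw [Finset.sum_const, Finset.card_univ, Fintype.card_fin, nsmul_eq_mul]
  push_cast
  apply le_of_eq
  ring

lemma vc_finite (d H : ℕ) : (Vc d H).Finite := by
  apply (Set.finite_Icc (fun _ : Fin (d + 1) => -(H : ℤ)) (fun _ => (H : ℤ))).subset
  intro c hc
  exact ⟨fun i => (abs_le.1 (hc i)).1, fun i => (abs_le.1 (hc i)).2⟩

theorem cl1 : S_GRD → S_CL1 := by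
  classical
  intro hGRD d hd
  set C1 : ℝ := ((d : ℝ) + 1) * 4 ^ d with hC1
  have hC1one : 1 ≤ C1 := by
    rw [hC1]
    have h1 : (1 : ℝ) ≤ (d : ℝ) + 1 := by
      have : (0 : ℝ) ≤ d := Nat.cast_nonneg d
      linarith
    have h2 : (1 : ℝ) ≤ 4 ^ d := one_le_pow₀ (by norm_num)
    nlinarith
  set C2 : ℝ := ((d : ℝ) + 1) * (2 ^ d * C1) with hC2
  have hC2one : 1 ≤ C2 := by
    rw [hC2]
    have h1 : (1 : ℝ) ≤ (d : ℝ) + 1 := by
      have : (0 : ℝ) ≤ d := Nat.cast_nonneg d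
      linarith
    have h2 : (1 : ℝ) ≤ 2 ^ d := one_le_pow₀ (by norm_num)
    have h3 : 1 ≤ 2 ^ d * C1 := by nlinarith
    nlinarith
  refine ⟨6 * ((3 * C2) * (3 * C2) * (3 * C2) * 3 ^ (d - 2)), ?_, ?_⟩
  · have h1 : (1 : ℝ) ≤ 3 ^ (d - 2) := one_le_pow₀ (by norm_num)
    have h2 : 1 ≤ 3 * C2 := by linarith
    have h3 : 1 ≤ (3 * C2) * (3 * C2) := by nlinarith
    have h4 : 1 ≤ (3 * C2) * (3 * C2) * (3 * C2) := by nlinarith
    have h5 : 1 ≤ (3 * C2) * (3 * C2) * (3 * C2) * 3 ^ (d - 2) := by nlinarith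
    linarith
  intro H hH
  have hHr : (1 : ℝ) ≤ H := by exact_mod_cast hH
  set η : ℝ := (H : ℝ) ^ ((1 : ℝ) / 3) with hη
  have hη1 : 1 ≤ η := Real.one_le_rpow hHr (by norm_num)
  have hη0 : 0 < η := by linarith
  have hη3 : η ^ 3 = H := by
    rw [hη, ← Real.rpow_natCast, ← Real.rpow_mul (by positivity)]
    norm_num
  have hη2 : (H : ℝ) ^ ((2 : ℝ) / 3) = η ^ 2 := by
    rw [hη, ← Real.rpow_natCast, ← Real.rpow_mul (by positivity)]
    norm_num
  have hfin : (H : ℝ) ^ ((d : ℝ) - 2 / 3) = η ^ 4 * (H : ℝ) ^ (d - 2) := by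
    rw [hη, ← Real.rpow_natCast, ← Real.rpow_mul (by positivity), ← Real.rpow_natCast,
      ← Real.rpow_add (by positivity)]
    congr 1
    have : ((d - 2 : ℕ) : ℝ) = (d : ℝ) - 2 := by
      rw [Nat.cast_sub hd]; norm_num
    rw [this]
    push_cast
    ring
  -- the set for one grid point
  set Ak : ℤ → Set (Fin (d + 1) → ℤ) := fun k => {c | c ∈ Vc d H ∧ |pv d c 0 ((k : ℝ) / η)| ≤ C2 ∧
    |pv d c 1 ((k : ℝ) / η)| ≤ C2 * η ∧ |pv d c 2 ((k : ℝ) / η)| ≤ C2 * η ^ 2} with hAk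
  set I : Finset ℤ := Finset.Icc ⌊-(2 * η)⌋ ⌊2 * η⌋ with hI
  have hsub : {c | c ∈ Vc d H ∧ ∃ z : ℝ, |z| ≤ 2 ∧ |pv d c 0 z| ≤ 1 ∧ |pv d c 1 z| ≤ 1 ∧
      |pv d c 2 z| ≤ (H : ℝ) ^ ((2 : ℝ) / 3)} ⊆ ⋃ k ∈ I, Ak k := by
    rintro c ⟨hc, z, hz, h0, h1, h2⟩
    have hbd : ∀ l : ℕ, |pv d c l z| ≤ C1 * η ^ l := by
      intro l
      match l with
      | 0 => rw [pow_zero, mul_one]; exact h0.trans hC1one
      | 1 =>
        rw [pow_one]
        calc |pv d c 1 z| ≤ 1 * 1 := by rw [one_mul]; exact h1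
          _ ≤ C1 * η := mul_le_mul hC1one hη1 (by norm_num) (by linarith)
      | 2 =>
        calc |pv d c 2 z| ≤ 1 * η ^ 2 := by rw [one_mul, ← hη2]; exact h2
          _ ≤ C1 * η ^ 2 := mul_le_mul_of_nonneg_right hC1one (by positivity)
      | (l + 3) =>
        calc |pv d c (l + 3) z| ≤ C1 * H := pv_le d H c hc (l + 3) z hz
          _ = C1 * η ^ 3 := by rw [hη3]
          _ ≤ C1 * η ^ (l + 3) :=
            mul_le_mul_of_nonneg_left (pow_le_pow_right₀ hη1 (by omega)) (by linarith)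
    set k : ℤ := ⌊z * η⌋ with hk
    have hk1 : (k : ℝ) ≤ z * η := Int.floor_le _
    have hk2 : z * η < k + 1 := Int.lt_floor_add_one _
    have htz : |(k : ℝ) / η - z| ≤ 1 / η := by
      have e1 : (k : ℝ) / η - z = ((k : ℝ) - z * η) / η := by field_simp
      rw [e1, abs_div, abs_of_pos hη0]
      apply div_le_div_of_nonneg_right _ hη0.le
      rw [abs_le]
      constructor <;> linarith
    have hkI : k ∈ I := by
      rw [hI, Finset.mem_Icc]
      obtain ⟨hz1, hz2⟩ := abs_le.1 hz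
      constructor
      · apply Int.floor_le_floor
        nlinarith
      · apply Int.floor_le_floor
        nlinarith
    have hj : ∀ j : ℕ, |pv d c j ((k : ℝ) / η)| ≤ C2 * η ^ j := by
      intro j
      rw [pv_taylor d c j _ z]
      refine (Finset.abs_sum_le_sum_abs _ _).trans ?_
      have h3 : ∀ l ∈ range (d + 1), |((l.choose j : ℕ) : ℝ) * pv d c l z *
          ((k : ℝ) / η - z) ^ (l - j)| ≤ 2 ^ d * C1 * η ^ j := by
        intro l hl
        rw [Finset.mem_range] at hl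
        rcases lt_or_ge l j with h | h
        · rw [Nat.choose_eq_zero_of_lt h, Nat.cast_zero, zero_mul, zero_mul, abs_zero]
          have : (0 : ℝ) < 2 ^ d := by positivity
          have : 0 < C1 := by linarith
          positivity
        · rw [abs_mul, abs_mul, abs_pow, Nat.abs_cast]
          have e2 : (((l.choose j : ℕ)) : ℝ) ≤ 2 ^ d := by
            have g2 : l.choose j ≤ 2 ^ l := Nat.choose_le_two_pow _ _
            have g3 : 2 ^ l ≤ 2 ^ d := Nat.pow_le_pow_right (by norm_num) (by omega)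
            exact_mod_cast g2.trans g3
          have e3 : |(k : ℝ) / η - z| ^ (l - j) ≤ (1 / η) ^ (l - j) :=
            pow_le_pow_left₀ (abs_nonneg _) htz _
          have e4 : η ^ l * (1 / η) ^ (l - j) = η ^ j := by
            have : l = j + (l - j) := by omega
            conv_lhs => rw [this]
            rw [pow_add, show j + (l - j) - j = l - j by omega, mul_assoc, ← mul_pow,
              mul_one_div_cancel hη0.ne', one_pow, mul_one]
          calc ((l.choose j : ℕ) : ℝ) * |pv d c l z| * |(k : ℝ) / η - z| ^ (l - j)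
              ≤ 2 ^ d * (C1 * η ^ l) * (1 / η) ^ (l - j) := by
                apply mul_le_mul _ e3 (by positivity) (by
                  have : 0 < C1 := by linarith
                  positivity)
                exact mul_le_mul e2 (hbd l) (abs_nonneg _) (by positivity)
            _ = 2 ^ d * C1 * (η ^ l * (1 / η) ^ (l - j)) := by ring
            _ = _ := by rw [e4]
      refine (Finset.sum_le_sum h3).trans ?_
      rw [Finset.sum_const, Finset.card_range, nsmul_eq_mul]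
      push_cast
      apply le_of_eq
      rw [hC2]
      ring
    refine Set.mem_biUnion hkI ⟨hc, ?_, ?_, ?_⟩
    · have := hj 0
      rwa [pow_zero, mul_one] at this
    · have := hj 1
      rwa [pow_one] at this
    · exact hj 2
  have hfinU : (⋃ k ∈ I, Ak k).Finite := by
    apply (vc_finite d H).subset
    intro c hc
    simp only [Set.mem_iUnion] at hc
    obtain ⟨k, _, hck⟩ := hc
    exact hck.1
  have h1 : (Set.ncard {c | c ∈ Vc d H ∧ ∃ z : ℝ, |z| ≤ 2 ∧ |pv d c 0 z| ≤ 1 ∧ |pv d c 1 z| ≤ 1 ∧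
      |pv d c 2 z| ≤ (H : ℝ) ^ ((2 : ℝ) / 3)}) ≤ ∑ k ∈ I, (Ak k).ncard :=
    (Set.ncard_le_ncard hsub hfinU).trans (Finset.set_ncard_biUnion_le I Ak)
  have hAkc : ∀ k : ℤ, ((Ak k).ncard : ℝ) ≤
      (3 * C2) * (3 * C2) * (3 * C2) * 3 ^ (d - 2) * (η ^ 3 * (H : ℝ) ^ (d - 2)) := by
    intro k
    have h2 := (hGRD d H ((k : ℝ) / η) C2 (C2 * η) (C2 * η ^ 2) hd (by linarith)
      (by have : 0 < C2 := by linarith
          positivity) (by have : 0 < C2 := by linarith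
                          positivity)).2
    rw [Nat.card_coe_set_eq] at h2
    refine h2.trans ?_
    have g1 : 2 * C2 + 1 ≤ 3 * C2 := by linarith
    have g2 : 2 * (C2 * η) + 1 ≤ 3 * C2 * η := by nlinarith
    have g3 : 2 * (C2 * η ^ 2) + 1 ≤ 3 * C2 * η ^ 2 := by
      have : 1 ≤ η ^ 2 := one_le_pow₀ hη1
      nlinarith
    have g4 : 2 * (H : ℝ) + 1 ≤ 3 * H := by linarith
    have hC2p : 0 < C2 := by linarith
    calc (2 * C2 + 1) * (2 * (C2 * η) + 1) * (2 * (C2 * η ^ 2) + 1) * (2 * (H : ℝ) + 1) ^ (d - 2)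
        ≤ (3 * C2) * (3 * C2 * η) * (3 * C2 * η ^ 2) * (3 * (H : ℝ)) ^ (d - 2) := by
          apply mul_le_mul _ (pow_le_pow_left₀ (by positivity) g4 _) (by positivity)
            (by positivity)
          apply mul_le_mul _ g3 (by positivity) (by positivity)
          exact mul_le_mul g1 g2 (by positivity) (by positivity)
      _ = _ := by rw [mul_pow]; ring
  have hIc : ((I.card : ℕ) : ℝ) ≤ 6 * η := by
    rw [hI, Int.card_Icc]
    have e1 : ((⌊2 * η⌋ : ℤ) : ℝ) ≤ 2 * η := Int.floor_le _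
    have e2 : -(2 * η) < ((⌊-(2 * η)⌋ : ℤ) : ℝ) + 1 := Int.lt_floor_add_one _
    have e3 : (⌊-(2 * η)⌋ : ℤ) ≤ ⌊2 * η⌋ := Int.floor_le_floor (by linarith)
    have e4 : (((⌊2 * η⌋ + 1 - ⌊-(2 * η)⌋).toNat : ℕ) : ℝ) =
        (((⌊2 * η⌋ + 1 - ⌊-(2 * η)⌋ : ℤ)) : ℝ) := by
      have : (((⌊2 * η⌋ + 1 - ⌊-(2 * η)⌋).toNat : ℕ) : ℤ) = ⌊2 * η⌋ + 1 - ⌊-(2 * η)⌋ :=
        Int.toNat_of_nonneg (by omega)
      exact_mod_cast this
    rw [e4]
    push_cast
    linarith
  rw [Nat.card_coe_set_eq]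
  set D : ℝ := (3 * C2) * (3 * C2) * (3 * C2) * 3 ^ (d - 2) with hD
  have hDp : 0 < D := by
    have : 0 < C2 := by linarith
    rw [hD]; positivity
  calc ((Set.ncard {c | c ∈ Vc d H ∧ ∃ z : ℝ, |z| ≤ 2 ∧ |pv d c 0 z| ≤ 1 ∧ |pv d c 1 z| ≤ 1 ∧
      |pv d c 2 z| ≤ (H : ℝ) ^ ((2 : ℝ) / 3)} : ℕ) : ℝ) ≤ ((∑ k ∈ I, (Ak k).ncard : ℕ) : ℝ) := by
        exact_mod_cast h1
    _ = ∑ k ∈ I, ((Ak k).ncard : ℝ) := by push_cast; rfl
    _ ≤ ∑ _k ∈ I, D * (η ^ 3 * (H : ℝ) ^ (d - 2)) := Finset.sum_le_sum (fun k _ => hAkc k)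
    _ = (I.card : ℝ) * (D * (η ^ 3 * (H : ℝ) ^ (d - 2))) := by
        rw [Finset.sum_const, nsmul_eq_mul]
    _ ≤ (6 * η) * (D * (η ^ 3 * (H : ℝ) ^ (d - 2))) :=
        mul_le_mul_of_nonneg_right hIc (by positivity)
    _ = 6 * D * (η ^ 4 * (H : ℝ) ^ (d - 2)) := by ring
    _ = _ := by rw [hfin]

end Pool.Agent.Q154.UG
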